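import Pool.Agent.H91.Hil.Defs

/-!
# Hilali: the complex-level lemmas for one-variable extensions
-/

namespace Pool.Agent.H91.Hil.Cx

open PowerSeries Pool.Agent.H91.Hil

section ev

variable {K R : Type*} [Field K] [Ring R] [Algebra K R]

theorem pD_pD (D : R →ₗ[K] R) (u : R) (huu : u * u = 0) (hDu : ∀ r, D (u * r) = -(u * D r))
    (hDD : ∀ r, D (D r) = 0) (f : R⟦X⟧) : pD D u (pD D u f) = 0 := by
  ext a
  rw [coeff_pD, coeff_pD, coeff_pD, map_add, hDD, zero_add, map_nsmul, hDu, mul_add,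
    mul_smul_comm, ← mul_assoc, huu, zero_mul, smul_zero, add_zero, smul_neg]
  simp

theorem coeff_sub' (f g : R⟦X⟧) (a : ℕ) : coeff a (f - g) = coeff a f - coeff a g := by
  simp

/-- (1) one even variable: acyclicity of quotients -/
theorem acy_pw {D : R →ₗ[K] R} (u : R) (e : ℤ) (he : 0 < e) {P Q : ℤ → Submodule K R}
    (hneg : ∀ p < 0, P p = ⊥) (hQP : ∀ q, Q q ≤ P q)
    (hP : ∀ q, ∀ r ∈ P q, u * r ∈ P (q + e + 1)) (hQ : ∀ q, ∀ r ∈ Q q, u * r ∈ Q (q + e + 1))
    (huu : u * u = 0) (hDu : ∀ r, D (u * r) = -(u * D r)) (hDD : ∀ r, D (D r) = 0)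
    (h : Acy D P Q) : Acy (pD D u) (pw e P) (pw e Q) := by
  intro p f hf hDf
  have key : ∀ n : ℕ, ∀ f ∈ pw e P p, pD D u f ∈ pw e Q (p + 1) →
      (∀ a : ℕ, n ≤ a → coeff a f ∈ Q (p - a * e)) →
      ∃ w ∈ pw e P (p - 1), f - pD D u w ∈ pw e Q p := by
    intro n
    induction n with
    | zero =>
      intro f _ _ ha
      refine ⟨0, Submodule.zero_mem _, ?_⟩
      rw [map_zero, sub_zero, mem_pw]
      exact fun a => ha a (Nat.zero_le _)
    | succ n ih =>
      intro f hf hDf ha
      have h1 : D (coeff n f) ∈ Q (p - n * e + 1) := by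
        have h2 := hDf n
        rw [coeff_pD] at h2
        have h3 := hQ _ _ (ha (n + 1) le_rfl)
        have e1 : p - ((n + 1 : ℕ) : ℤ) * e + e + 1 = p + 1 - n * e := by push_cast; ring
        rw [e1] at h3
        have h4 := Submodule.sub_mem _ h2 (Submodule.smul_mem _ ((n : K) + 1) h3)
        have e2 : p - n * e + 1 = p + 1 - n * e := by ring
        rw [e2]
        have e3 : ((n : K) + 1) • (u * coeff (n + 1) f) = (n + 1) • (u * coeff (n + 1) f) := by
          rw [← Nat.cast_smul_eq_nsmul K]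
          push_cast
          rfl
        rw [e3, add_sub_cancel_right] at h4
        exact h4
      obtain ⟨w, hw, hw2⟩ := h _ _ (hf n) h1
      have hW : monomial n w ∈ pw e P (p - 1) := by
        intro a
        rw [coeff_monomial]
        split_ifs with hc
        · subst hc
          have e1 : p - 1 - a * e = p - a * e - 1 := by ring
          rw [e1]
          exact hw
        · exact Submodule.zero_mem _
      have hDW : ∀ a : ℕ, coeff a (pD D u (monomial n w)) =
          (if a = n then D w else 0) + (if a + 1 = n then n • (u * w) else 0) := by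
        intro a
        rw [coeff_pD, coeff_monomial, coeff_monomial]
        congr 1
        · split_ifs <;> simp
        · split_ifs with hc
          · rw [hc]
          · simp
      have hDWP : pD D u (monomial n w) ∈ pw e P p := by
        intro a
        rw [hDW]
        refine Submodule.add_mem _ ?_ ?_
        · split_ifs with hc
          · subst hc
            have h5 := Submodule.sub_mem _ (hf a) (hQP _ hw2)
            rwa [sub_sub_cancel] at h5
          · exact Submodule.zero_mem _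
        · split_ifs with hc
          · have h5 := hP _ _ hw
            have e1 : p - n * e - 1 + e + 1 = p - a * e := by
              have : (n : ℤ) = a + 1 := by exact_mod_cast hc.symm
              rw [this]
              ring
            rw [e1] at h5
            rw [← Nat.cast_smul_eq_nsmul K]
            exact Submodule.smul_mem _ _ h5
          · exact Submodule.zero_mem _
      obtain ⟨v, hv, hv2⟩ := ih (f - pD D u (monomial n w)) (Submodule.sub_mem _ hf hDWP)
        (by
          rw [map_sub, pD_pD D u huu hDu hDD, sub_zero]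
          exact hDf)
        (by
          intro a hna
          rw [coeff_sub', hDW, if_neg (by omega : ¬ a + 1 = n), add_zero]
          split_ifs with hc
          · subst hc
            exact hw2
          · rw [sub_zero]
            exact ha a (by omega))
      refine ⟨monomial n w + v, Submodule.add_mem _ hW hv, ?_⟩
      rw [map_add, ← sub_sub]
      exact hv2
  refine key (p.toNat + 1) f hf hDf ?_
  intro a ha
  have h6 := hf a
  have h7 : p - a * e < 0 := by
    have h8 : p < a := by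
      have := Int.self_le_toNat p
      have h9 : ((p.toNat + 1 : ℕ) : ℤ) ≤ a := by exact_mod_cast ha
      push_cast at h9
      omega
    nlinarith
  rw [hneg _ h7, Submodule.mem_bot] at h6
  rw [h6]
  exact Submodule.zero_mem _

/-- (3) one even variable `t` with `D t = u`, `u` odd: the top class goes down -/
theorem top_ev [CharZero K] {D : R →ₗ[K] R} (u : R) (e : ℤ) (he : 0 < e)
    {gr : ℤ → Submodule K R}
    (hu : ∀ p, ∀ r ∈ gr p, u * r ∈ gr (p + e + 1)) (huu : u * u = 0)
    (hDu : ∀ r, D (u * r) = -(u * D r)) {M : ℤ} {z : R⟦X⟧}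
    (h : Top (pD D u) (pw e gr) M z) : Top D gr (M + e + 1) (u * coeff 0 z) := by
  obtain ⟨hz, hDz, hnb, hv⟩ := h
  have hK : ∀ a : ℕ, ((a : K) + 1) ≠ 0 := fun a => Nat.cast_add_one_ne_zero a
  have hsm : ∀ (a : ℕ) (r : R), (a + 1) • r = ((a : K) + 1) • r := by
    intro a r
    rw [← Nat.cast_smul_eq_nsmul K]
    push_cast
    rfl
  -- the derivative
  let dd : R⟦X⟧ → R⟦X⟧ := fun H => PowerSeries.mk fun a => (a + 1) • coeff (a + 1) H
  have hdd : ∀ (H : R⟦X⟧) (a : ℕ), coeff a (dd H) = (a + 1) • coeff (a + 1) H := by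
    intro H a
    simp [dd]
  have hcomm : ∀ H : R⟦X⟧, pD D u (dd H) = dd (pD D u H) := by
    intro H
    ext a
    rw [coeff_pD, hdd, hdd, hdd, coeff_pD, map_nsmul, smul_add, mul_smul_comm]
  have hddm : ∀ (H : R⟦X⟧) (q : ℤ), H ∈ pw e gr q → dd H ∈ pw e gr (q - e) := by
    intro H q hH a
    rw [hdd, hsm]
    refine Submodule.smul_mem _ _ ?_
    have h1 := hH (a + 1)
    have e1 : q - ((a + 1 : ℕ) : ℤ) * e = q - e - a * e := by push_cast; ring
    rwa [e1] at h1
  have hz0 : coeff 0 z ∈ gr M := by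
    have := hz 0
    simpa using this
  refine ⟨hu _ _ hz0, ?_, ?_, ?_⟩
  · -- cocycle
    have h0 : coeff 0 (pD D u z) = 0 := by rw [hDz]; simp
    rw [coeff_pD] at h0
    have h1 : D (coeff 0 z) = -(u * coeff 1 z) := by
      have : D (coeff 0 z) + (u * coeff 1 z) = 0 := by simpa using h0
      exact eq_neg_of_add_eq_zero_left this
    rw [hDu, h1, mul_neg, ← mul_assoc, huu, zero_mul]
    simp
  · -- not a boundary
    intro w hw hDw
    let G : R⟦X⟧ := PowerSeries.mk fun a => if a = 0 then -w else (a : K)⁻¹ • coeff (a - 1) z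
    have hG0 : coeff 0 G = -w := by simp [G]
    have hG1 : ∀ a : ℕ, coeff (a + 1) G = ((a : K) + 1)⁻¹ • coeff a z := by
      intro a
      simp [G]
    have hG : G ∈ pw e gr (M + e) := by
      intro a
      cases a with
      | zero =>
        rw [hG0]
        have e1 : M + e - ((0 : ℕ) : ℤ) * e = M + e + 1 - 1 := by push_cast; ring
        rw [e1]
        exact Submodule.neg_mem _ hw
      | succ a =>
        rw [hG1]
        have e1 : M + e - ((a + 1 : ℕ) : ℤ) * e = M - a * e := by push_cast; ring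
        rw [e1]
        exact Submodule.smul_mem _ _ (hz a)
    have hDG : pD D u G = 0 := by
      ext a
      rw [coeff_pD]
      cases a with
      | zero =>
        rw [hG0, hG1, map_neg, hDw]
        simp
      | succ a =>
        have h0 : coeff a (pD D u z) = 0 := by rw [hDz]; simp
        rw [coeff_pD, hsm] at h0
        rw [hG1, hG1, map_smul, mul_smul_comm, hsm, smul_smul, mul_inv_cancel₀ (hK (a + 1)),
          one_smul]
        have h1 : D (coeff a z) = -(((a : K) + 1) • (u * coeff (a + 1) z)) :=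
          eq_neg_of_add_eq_zero_left h0
        rw [h1, smul_neg, smul_smul, inv_mul_cancel₀ (hK a), one_smul]
        simp
    obtain ⟨H, hH, hH2⟩ := hv (M + e) (by linarith) G hG hDG
    have h2 : dd G = z := by
      ext a
      rw [hdd, hG1, hsm, smul_smul, mul_inv_cancel₀ (hK a), one_smul]
    refine hnb (dd H) ?_ ?_
    · have := hddm H _ hH
      have e1 : M + e - 1 - e = M - 1 := by ring
      rwa [e1] at this
    · rw [hcomm, hH2, h2]
  · -- vanishing
    intro p hp x hx hDx
    have hC : (PowerSeries.C x) ∈ pw e gr p := by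
      intro a
      rw [coeff_C]
      split_ifs with hc
      · subst hc
        simpa using hx
      · exact Submodule.zero_mem _
    have hDC : pD D u (PowerSeries.C x) = 0 := by
      ext a
      rw [coeff_pD, coeff_C, coeff_C, if_neg (by omega : ¬ a + 1 = 0), mul_zero, smul_zero,
        add_zero]
      split_ifs
      · rw [hDx]; simp
      · simp
    obtain ⟨w, hw, hw2⟩ := hv p (by linarith) _ hC hDC
    have h3 : pD D u (dd w) = 0 := by
      rw [hcomm, hw2]
      ext a
      rw [hdd, coeff_C, if_neg (by omega : ¬ a + 1 = 0)]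
      simp
    obtain ⟨y, hy, hy2⟩ := hv (p - 1 - e) (by linarith) (dd w) (hddm w _ hw) h3
    have h4 : coeff 0 w ∈ gr (p - 1) := by simpa using hw 0
    have h5 : coeff 0 y ∈ gr (p - 1 - e - 1) := by simpa using hy 0
    refine ⟨coeff 0 w - u * coeff 0 y, Submodule.sub_mem _ h4 ?_, ?_⟩
    · have := hu _ _ h5
      have e1 : p - 1 - e - 1 + e + 1 = p - 1 := by ring
      rwa [e1] at this
    · have h6 : coeff 0 (pD D u w) = x := by rw [hw2]; simp
      rw [coeff_pD] at h6
      have h7 : coeff 0 (pD D u y) = coeff 0 (dd w) := by rw [hy2]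
      rw [coeff_pD, hdd] at h7
      simp only [zero_add, one_smul] at h6 h7
      have h8 : u * coeff 1 w = u * D (coeff 0 y) := by
        have h9 : coeff 1 w = D (coeff 0 y) + u * coeff 1 y := by simpa using h7.symm
        rw [h9, mul_add, ← mul_assoc, huu, zero_mul, add_zero]
      rw [map_sub, hDu, ← h8, sub_neg_eq_add]
      simpa using h6

end ev

section od

variable {K R : Type*} [Field K] [Ring R] [Algebra K R] {α : R →ₐ[K] R}

/-- (2) one odd variable: acyclicity of quotients -/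
theorem acy_ow {D : R →ₗ[K] R} (x : R) (e : ℤ) {P Q : ℤ → Submodule K R}
    (hP : ∀ q, ∀ r ∈ P q, x * r ∈ P (q + e + 1)) (hQ : ∀ q, ∀ r ∈ Q q, x * r ∈ Q (q + e + 1))
    (hDx : ∀ r, D (x * r) = x * D r)
    (h : Acy D P Q) : Acy (oD α D x) (ow α e P) (ow α e Q) := by
  intro p z hz hDz
  obtain ⟨ha, hb⟩ := hz
  obtain ⟨hDa, hDb⟩ := hDz
  rw [c0_oD] at hDa
  rw [c1_oD] at hDb
  have h1 : D z.c1 ∈ Q (p - e + 1) := by
    have e1 : p - e + 1 = p + 1 - e := by ring
    rw [e1]
    have := Submodule.neg_mem _ hDb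
    rwa [neg_neg] at this
  obtain ⟨w1, hw1, hw1'⟩ := h _ _ hb h1
  have hxw : x * w1 ∈ P p := by
    have := hP _ _ hw1
    have e1 : p - e - 1 + e + 1 = p := by ring
    rwa [e1] at this
  have h2 : D (z.c0 + x * w1) ∈ Q (p + 1) := by
    have h3 := hQ _ _ hw1'
    have e1 : p - e + e + 1 = p + 1 := by ring
    rw [e1] at h3
    have h4 := Submodule.sub_mem _ hDa h3
    rw [map_add, hDx]
    have e2 : D z.c0 + x * z.c1 - x * (z.c1 - D w1) = D z.c0 + x * D w1 := by
      rw [mul_sub]
      abel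
    rwa [e2] at h4
  obtain ⟨w0, hw0, hw0'⟩ := h _ _ (Submodule.add_mem _ ha hxw) h2
  refine ⟨OE.mk α w0 (-w1), ⟨hw0, ?_⟩, ?_, ?_⟩
  · rw [OE.c1_mk]
    have e1 : p - 1 - e = p - e - 1 := by ring
    rw [e1]
    exact Submodule.neg_mem _ hw1
  · rw [OE.c0_sub, c0_oD, OE.c0_mk, OE.c1_mk]
    have e2 : z.c0 - (D w0 + x * -w1) = z.c0 + x * w1 - D w0 := by
      rw [mul_neg]
      abel
    rw [e2]
    exact hw0'
  · rw [OE.c1_sub, c1_oD, OE.c1_mk, map_neg, neg_neg]
    exact hw1'

/-- (5) one odd variable `t` with `D t = x`: the cohomology of `R` is bounded above -/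
theorem bdd_ow {D : R →ₗ[K] R} (x : R) (e : ℤ) (he : 0 ≤ e + 1) {gr : ℤ → Submodule K R}
    (hx : ∀ p, ∀ r ∈ gr p, x * r ∈ gr (p + e + 1))
    (hDx : ∀ r, D (x * r) = x * D r)
    (r : ℕ) (hnil : ∀ p, ∀ y ∈ gr p, D y = 0 →
      ∃ w ∈ gr (p + r * (e + 1) - 1), D w = x ^ r * y) {M : ℤ}
    (hv : ∀ p, M < p → ∀ y ∈ ow α e gr p, oD α D x y = 0 →
      ∃ w ∈ ow α e gr (p - 1), oD α D x w = y) :
    ∀ p, M + r * (e + 1) < p → ∀ y ∈ gr p, D y = 0 → ∃ w ∈ gr (p - 1), D w = y := by
  have hxi : ∀ (i : ℕ) (p : ℤ), ∀ r ∈ gr p, x ^ i * r ∈ gr (p + i * (e + 1)) := by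
    intro i
    induction i with
    | zero =>
      intro p r hr
      simpa using hr
    | succ i ih =>
      intro p r hr
      rw [pow_succ', mul_assoc]
      have := hx _ _ (ih p r hr)
      have e1 : p + ((i + 1 : ℕ) : ℤ) * (e + 1) = p + i * (e + 1) + e + 1 := by push_cast; ring
      rw [e1]
      exact this
  have hDxi : ∀ (i : ℕ) (r : R), D (x ^ i * r) = x ^ i * D r := by
    intro i
    induction i with
    | zero => intro r; simp
    | succ i ih =>
      intro r
      rw [pow_succ', mul_assoc, hDx, ih, mul_assoc]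
  have key : ∀ i : ℕ, ∀ p, M + i * (e + 1) < p → ∀ y ∈ gr p, D y = 0 →
      ∃ c ∈ gr (p - i * (e + 1)), D c = 0 ∧ ∃ w ∈ gr (p - 1), y = D w + x ^ i * c := by
    intro i
    induction i with
    | zero =>
      intro p _ y hy hDy
      refine ⟨y, by simpa using hy, hDy, 0, Submodule.zero_mem _, ?_⟩
      simp
    | succ i ih =>
      intro p hp y hy hDy
      push_cast at hp
      obtain ⟨c, hc, hDc, w, hw, hyw⟩ := ih p (by nlinarith) y hy hDy
      obtain ⟨v, hv1, hv2⟩ := hv (p - i * (e + 1)) (by nlinarith) (OE.mk α c 0)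
        ⟨hc, by rw [OE.c1_mk]; exact Submodule.zero_mem _⟩ (by
          ext
          · rw [c0_oD, OE.c0_mk, OE.c1_mk, mul_zero, add_zero, hDc, OE.c0_zero]
          · rw [c1_oD, OE.c1_mk, map_zero, neg_zero, OE.c1_zero])
      have h1 : D v.c0 + x * v.c1 = c := by
        have := congrArg OE.c0 hv2
        rwa [c0_oD, OE.c0_mk] at this
      have h2 : D v.c1 = 0 := by
        have := congrArg OE.c1 hv2
        rw [c1_oD, OE.c1_mk] at this
        exact neg_eq_zero.mp this
      refine ⟨v.c1, ?_, h2, w + x ^ i * v.c0, Submodule.add_mem _ hw ?_, ?_⟩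
      · have := hv1.2
        have e1 : p - ((i + 1 : ℕ) : ℤ) * (e + 1) = p - i * (e + 1) - 1 - e := by
          push_cast; ring
        rwa [e1]
      · have := hxi i _ _ hv1.1
        have e1 : p - i * (e + 1) - 1 + i * (e + 1) = p - 1 := by ring
        rwa [e1] at this
      · rw [map_add, hDxi, hyw, ← h1, mul_add, pow_succ, mul_assoc, add_assoc]
  intro p hp y hy hDy
  obtain ⟨c, hc, hDc, w, hw, hyw⟩ := key r p hp y hy hDy
  obtain ⟨v, hv1, hv2⟩ := hnil _ c hc hDc
  refine ⟨w + v, Submodule.add_mem _ hw ?_, ?_⟩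
  · have e1 : p - r * (e + 1) + r * (e + 1) - 1 = p - 1 := by ring
    rwa [e1] at hv1
  · rw [map_add, hv2, hyw]

/-- (4) one odd variable `t` with `D t = x`, `x` even: the top class goes down -/
theorem nonvan {D : R →ₗ[K] R} (x : R) (e : ℤ) (he : 1 ≤ e) {gr : ℤ → Submodule K R}
    (hx : ∀ p, ∀ r ∈ gr p, x * r ∈ gr (p + e + 1))
    (hDx : ∀ r, D (x * r) = x * D r)
    (hnil : ∃ r : ℕ, ∀ p, ∀ y ∈ gr p, D y = 0 →
      ∃ w ∈ gr (p + r * (e + 1) - 1), D w = x ^ r * y) {M : ℤ} {z : OE α}
    (h : Top (oD α D x) (ow α e gr) M z) : Top D gr (M - e) z.c1 := by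
  obtain ⟨⟨hz0, hz1⟩, hDz, hnb, hv⟩ := h
  obtain ⟨r, hr⟩ := hnil
  have hbd := bdd_ow (α := α) x e (by linarith) hx hDx r hr hv
  have hD0 : D z.c0 + x * z.c1 = 0 := by
    have := congrArg OE.c0 hDz
    rwa [c0_oD, OE.c0_zero] at this
  have hD1 : D z.c1 = 0 := by
    have := congrArg OE.c1 hDz
    rw [c1_oD, OE.c1_zero] at this
    exact neg_eq_zero.mp this
  -- vanishing above `M - e`
  have hvan : ∀ p, M - e < p → ∀ y ∈ gr p, D y = 0 → ∃ w ∈ gr (p - 1), D w = y := by
    by_contra hcon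
    push Not at hcon
    obtain ⟨p0, hp0, y0, hy0, hDy0, hn0⟩ := hcon
    let S : Set ℤ := {p | M - e < p ∧ ∃ y ∈ gr p, D y = 0 ∧ ∀ w ∈ gr (p - 1), D w ≠ y}
    have hSne : ∃ p, p ∈ S := ⟨p0, hp0, y0, hy0, hDy0, hn0⟩
    have hSb : ∀ p ∈ S, p ≤ M + r * (e + 1) := by
      rintro p ⟨_, y, hy, hDy, hn⟩
      by_contra hlt
      push Not at hlt
      obtain ⟨w, hw, hw2⟩ := hbd p hlt y hy hDy
      exact hn w hw hw2
    obtain ⟨q, ⟨hq1, u, hu, hDu, hun⟩, hqmax⟩ := Int.exists_greatest_of_bdd
      (P := fun p => p ∈ S) ⟨_, hSb⟩ hSne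
    have hxu : x * u ∈ gr (q + e + 1) := hx _ _ hu
    have hDxu : D (x * u) = 0 := by rw [hDx, hDu, mul_zero]
    have hc : ∃ c ∈ gr (q + e + 1 - 1), D c = x * u := by
      by_contra hcc
      push Not at hcc
      have := hqmax (q + e + 1) ⟨by linarith, x * u, hxu, hDxu, hcc⟩
      linarith
    obtain ⟨c, hc1, hc2⟩ := hc
    have e1 : q + e + 1 - 1 = q + e := by ring
    rw [e1] at hc1
    obtain ⟨v, hv1, hv2⟩ := hv (q + e) (by linarith) (OE.mk α (-c) u)
      ⟨Submodule.neg_mem _ hc1, by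
        rw [OE.c1_mk]
        have e2 : q + e - e = q := by ring
        rwa [e2]⟩ (by
        ext
        · rw [c0_oD, OE.c0_mk, OE.c1_mk, map_neg, hc2, OE.c0_zero]
          simp
        · rw [c1_oD, OE.c1_mk, hDu, neg_zero, OE.c1_zero])
    have h3 : -(D v.c1) = u := by
      have := congrArg OE.c1 hv2
      rwa [c1_oD, OE.c1_mk] at this
    refine hun (-v.c1) ?_ (by rw [map_neg, h3])
    have := Submodule.neg_mem _ hv1.2
    have e2 : q + e - 1 - e = q - 1 := by ring
    rwa [e2] at this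
  refine ⟨hz1, hD1, ?_, hvan⟩
  intro w hw hDw
  have hxw : x * w ∈ gr M := by
    have := hx _ _ hw
    have e1 : M - e - 1 + e + 1 = M := by ring
    rwa [e1] at this
  obtain ⟨y, hy, hDy⟩ := hvan M (by linarith) (z.c0 + x * w) (Submodule.add_mem _ hz0 hxw) (by
    rw [map_add, hDx, hDw, hD0])
  refine hnb (OE.mk α y (-w)) ⟨hy, ?_⟩ ?_
  · rw [OE.c1_mk]
    have e1 : M - 1 - e = M - e - 1 := by ring
    rw [e1]
    exact Submodule.neg_mem _ hw
  · ext
    · rw [c0_oD, OE.c0_mk, OE.c1_mk, hDy, mul_neg]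
      abel
    · rw [c1_oD, OE.c1_mk, map_neg, neg_neg, hDw]

end od

end Pool.Agent.H91.Hil.Cx
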