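import Pool.Agent.H91.Hil.Stage
import Pool.Agent.H91.Hil.Cx

/-!
# Hilali: killing an odd generator by an even variable
-/

namespace Pool.Agent.H91.Hil.ExtEv

open PowerSeries Finset

set_option linter.unusedSectionVars false

variable {K A : Type*} [Field K] [CharZero K] [Ring A] [Algebra K A]
variable {B : Base K A} {j : ℕ} {R : Type*} [Ring R] [Algebra K R] (st : Stage B j R)

/-- the parity involution of `R⟦t⟧` -/
noncomputable def al : R⟦X⟧ →ₐ[K] R⟦X⟧ :=
  { PowerSeries.map (st.α : R →+* R) with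
    commutes' := by
      intro c
      ext a
      simp [PowerSeries.algebraMap_apply, PowerSeries.coeff_C] }

theorem coeff_al (f : R⟦X⟧) (a : ℕ) : coeff a (al st f) = st.α (coeff a f) := by
  change coeff a (PowerSeries.map (st.α : R →+* R) f) = _
  simp

/-- the inclusion of `A` -/
noncomputable def inc : A →ₐ[K] R⟦X⟧ :=
  { (PowerSeries.C : R →+* R⟦X⟧).comp (st.inc : A →+* R) with
    commutes' := by
      intro c
      simp [PowerSeries.algebraMap_apply] }

theorem inc_apply (a : A) : inc st a = PowerSeries.C (st.inc a) := rfl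

theorem coeff_inc (a : A) (b : ℕ) : coeff b (inc st a) = if b = 0 then st.inc a else 0 := by
  rw [inc_apply, PowerSeries.coeff_C]

/-- the retraction to `A` -/
noncomputable def rho : R⟦X⟧ →ₐ[K] A :=
  { (st.ρ : R →+* A).comp (PowerSeries.constantCoeff) with
    commutes' := by
      intro c
      simp [PowerSeries.algebraMap_apply] }

theorem rho_apply (f : R⟦X⟧) : rho st f = st.ρ (coeff 0 f) := by
  rw [PowerSeries.coeff_zero_eq_constantCoeff_apply]
  rfl

variable {st} {u : R} (hu : Nxt st u) {e : ℤ} (he : B.dg j = e + 1) (ho : Odd (B.dg j))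
  (hj : j < B.n)

include he ho in
theorem even_e : Even e := by
  rw [he] at ho
  rcases ho with ⟨k, hk⟩
  exact ⟨k, by omega⟩

include he ho hj in
theorem pos_e : 0 < e := by
  have h := B.two_le j hj
  omega

include hu in
theorem u_mem : u ∈ st.F B.gr (B.dg j) := st.F_mono _ _ B.gp_le _ hu.mem_gp

include hu ho in
theorem u_mul (f : R) : u * f = st.α f * u := st.gc_od _ ho u (u_mem hu) f

include hu ho in
theorem α_u : st.α u = -u := st.α_od _ ho u (u_mem hu)

include hu ho in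
theorem u_sq : u * u = 0 := by
  have h := u_mul hu ho u
  rw [α_u hu ho, neg_mul] at h
  have h2 : (2 : K) • (u * u) = 0 := by
    rw [two_smul]
    nth_rewrite 1 [h]
    simp
  exact (smul_eq_zero.mp h2).resolve_left two_ne_zero

include hu ho in
theorem D_u_mul (f : R) : st.D (u * f) = -(u * st.D f) := by
  rw [st.D_mul, hu.D_u, zero_mul, zero_add, α_u hu ho, neg_mul]

theorem nsmul_inv (n : ℕ) (hn : n ≠ 0) {S : Submodule K R} {x : R} (h : n • x ∈ S) : x ∈ S := by
  have h1 : ((n : K)⁻¹) • (n • x) ∈ S := Submodule.smul_mem _ _ h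
  rw [← Nat.cast_smul_eq_nsmul K n x, smul_smul,
    inv_mul_cancel₀ (Nat.cast_ne_zero.mpr hn), one_smul] at h1
  exact h1

theorem nsmul_inv' (n : ℕ) (hn : n ≠ 0) {S : Submodule K A} {x : A} (h : n • x ∈ S) : x ∈ S := by
  have h1 : ((n : K)⁻¹) • (n • x) ∈ S := Submodule.smul_mem _ _ h
  rw [← Nat.cast_smul_eq_nsmul K n x, smul_smul,
    inv_mul_cancel₀ (Nat.cast_ne_zero.mpr hn), one_smul] at h1
  exact h1

theorem mul_mem (X Y Z : ℤ → Submodule K A) (hX : ∀ p, X p ≤ B.gr p)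
    (h : ∀ a b, ∀ x ∈ X a, ∀ y ∈ Y b, x * y ∈ Z (a + b)) (a b : ℤ) (f : R⟦X⟧)
    (hf : f ∈ pw e (st.F X) a) (g : R⟦X⟧) (hg : g ∈ pw e (st.F Y) b) :
    f * g ∈ pw e (st.F Z) (a + b) := by
  intro c
  rw [PowerSeries.coeff_mul]
  refine Submodule.sum_mem _ fun p hp => ?_
  rw [Finset.HasAntidiagonal.mem_antidiagonal] at hp
  have h1 := st.mul_mem X Y Z hX h _ _ _ (hf p.1) _ (hg p.2)
  have e1 : a + b - (c : ℤ) * e = a - (p.1 : ℤ) * e + (b - (p.2 : ℤ) * e) := by
    rw [← hp]
    push_cast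
    ring
  rw [e1]
  exact h1

include he ho in
theorem even_sub {p : ℤ} (hp : Even p) (a : ℕ) : Even (p - a * e) :=
  hp.sub ((even_e he ho).mul_left _)

include he ho in
theorem odd_sub {p : ℤ} (hp : Odd p) (a : ℕ) : Odd (p - a * e) :=
  hp.sub_even ((even_e he ho).mul_left _)

include he ho in
theorem α_ev (p : ℤ) (hp : Even p) (z : R⟦X⟧) (hz : z ∈ pw e (st.F B.gr) p) :
    al st z = z := by
  ext a
  rw [coeff_al]
  exact st.α_ev _ (even_sub he ho hp a) _ (hz a)

include he ho in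
theorem α_od (p : ℤ) (hp : Odd p) (z : R⟦X⟧) (hz : z ∈ pw e (st.F B.gr) p) :
    al st z = -z := by
  ext a
  rw [coeff_al, map_neg]
  exact st.α_od _ (odd_sub he ho hp a) _ (hz a)

include he ho in
theorem gc_ev (p : ℤ) (hp : Even p) (z : R⟦X⟧) (hz : z ∈ pw e (st.F B.gr) p) (f : R⟦X⟧) :
    z * f = f * z := by
  ext a
  rw [PowerSeries.coeff_mul, PowerSeries.coeff_mul, ← Finset.Nat.sum_antidiagonal_swap]
  refine Finset.sum_congr rfl fun x _ => ?_
  exact st.gc_ev _ (even_sub he ho hp _) _ (hz _) _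

include he ho in
theorem gc_od (p : ℤ) (hp : Odd p) (z : R⟦X⟧) (hz : z ∈ pw e (st.F B.gr) p) (f : R⟦X⟧) :
    z * f = al st f * z := by
  ext a
  rw [PowerSeries.coeff_mul, PowerSeries.coeff_mul, ← Finset.Nat.sum_antidiagonal_swap]
  refine Finset.sum_congr rfl fun x _ => ?_
  simp only [Prod.fst_swap, Prod.snd_swap]
  rw [coeff_al]
  exact st.gc_od _ (odd_sub he ho hp _) _ (hz _) _

include hu ho in
theorem D_sq (z : R⟦X⟧) : pD st.D u (pD st.D u z) = 0 := by
  ext a
  rw [coeff_pD, coeff_pD, coeff_pD, map_add, st.D_sq, map_nsmul, D_u_mul hu ho, map_zero, mul_add,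
    mul_smul_comm, ← mul_assoc, u_sq hu ho, zero_mul, smul_zero, add_zero, zero_add, smul_neg]
  simp

include hu ho in
theorem D_mul (f g : R⟦X⟧) :
    pD st.D u (f * g) = pD st.D u f * g + al st f * pD st.D u g := by
  ext a
  rw [coeff_pD, map_add, PowerSeries.coeff_mul, PowerSeries.coeff_mul, PowerSeries.coeff_mul,
    PowerSeries.coeff_mul, map_sum]
  have e1 : (a + 1) • (u * ∑ p ∈ antidiagonal (a + 1), coeff p.1 f * coeff p.2 g)
      = (∑ p ∈ antidiagonal (a + 1), p.1 • (u * (coeff p.1 f * coeff p.2 g))) +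
        ∑ p ∈ antidiagonal (a + 1), p.2 • (u * (coeff p.1 f * coeff p.2 g)) := by
    rw [← Finset.sum_add_distrib, Finset.mul_sum, Finset.smul_sum]
    refine Finset.sum_congr rfl fun p hp => ?_
    rw [Finset.HasAntidiagonal.mem_antidiagonal] at hp
    rw [← add_smul, hp]
  rw [e1, Finset.Nat.sum_antidiagonal_succ, Finset.Nat.sum_antidiagonal_succ']
  simp only [zero_smul, zero_add]
  rw [← Finset.sum_add_distrib, ← Finset.sum_add_distrib, ← Finset.sum_add_distrib]
  refine Finset.sum_congr rfl fun p _ => ?_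
  rw [st.D_mul, coeff_pD, coeff_pD, coeff_al, add_mul, mul_add, mul_smul_comm, ← mul_assoc (st.α _),
    ← u_mul hu ho, smul_mul_assoc, mul_assoc, mul_assoc]
  abel

include hu ho in
theorem D_α (z : R⟦X⟧) : pD st.D u (al st z) = -al st (pD st.D u z) := by
  ext a
  rw [coeff_pD, map_neg, coeff_al, coeff_al, coeff_al, coeff_pD, map_add, st.D_α, map_nsmul,
    map_mul, α_u hu ho, neg_mul, smul_neg, neg_add, neg_neg]

theorem D_inc (a : A) : pD st.D u (inc st a) = inc st (B.d a) := by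
  ext b
  rw [coeff_pD, coeff_inc, coeff_inc, coeff_inc, if_neg (Nat.succ_ne_zero b), mul_zero, smul_zero,
    add_zero]
  split_ifs
  · exact st.D_inc a
  · exact map_zero _

include hu he in
theorem DF (Y Y' : ℤ → Submodule K A) (h1 : ∀ q, ∀ y ∈ Y' q, B.d y ∈ Y (q + 1))
    (h2 : ∀ a q, ∀ x ∈ B.gp a, ∀ y ∈ Y' q, x * y ∈ Y (a + q)) (p : ℤ) (z : R⟦X⟧)
    (hz : z ∈ pw e (st.F Y') p) : pD st.D u z ∈ pw e (st.F Y) (p + 1) := by
  intro a
  rw [coeff_pD]
  have h3 := st.DF Y Y' h1 h2 _ _ (hz a)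
  have h4 := st.mul_mem B.gp Y' Y B.gp_le h2 _ _ _ hu.mem_gp _ (hz (a + 1))
  have e1 : p + 1 - (a : ℤ) * e = p - (a : ℤ) * e + 1 := by ring
  have e2 : B.dg j + (p - ((a + 1 : ℕ) : ℤ) * e) = p - (a : ℤ) * e + 1 := by
    rw [he]; push_cast; ring
  rw [e2] at h4
  rw [e1]
  exact Submodule.add_mem _ h3 (Submodule.smul_of_tower_mem _ _ h4)

theorem Q_mul (B : Base K A) (i : ℕ) (a b : ℤ) (x : A) (hx : x ∈ B.Q i a) (y : A)
    (hy : y ∈ B.gr b) : x * y ∈ B.Q i (a + b) := by
  refine ⟨?_, B.mul_mem _ _ _ hx.2 _ hy⟩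
  obtain ⟨x1, h1, x2, h2, rfl⟩ := Submodule.mem_sup.mp hx.1
  rw [add_mul]
  exact Submodule.add_mem _ (Submodule.mem_sup_left (B.I_right _ _ _ h1))
    (Submodule.mem_sup_right (B.A2_right _ _ h2))

include hu he in
theorem m1 (p : ℤ) (z : R⟦X⟧) (hz : z ∈ pw e (st.F B.gr) p) :
    pD st.D u z ∈ pw e (st.F (B.Q (j + 1))) (p + 1) := by
  intro a
  rw [coeff_pD]
  have h3 := st.F_mono _ _ (B.Q_mono j) _ (st.m1 _ _ (hz a))
  have h4 := st.mul_mem (B.Q (j + 1)) B.gr (B.Q (j + 1)) (B.Q_le _)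
    (fun a b x hx y hy => Q_mul B _ a b x hx y hy) _ _ _ hu.mem_Q _ (hz (a + 1))
  have e1 : p + 1 - (a : ℤ) * e = p - (a : ℤ) * e + 1 := by ring
  have e2 : B.dg j + (p - ((a + 1 : ℕ) : ℤ) * e) = p - (a : ℤ) * e + 1 := by
    rw [he]; push_cast; ring
  rw [e2] at h4
  rw [e1]
  exact Submodule.add_mem _ h3 (Submodule.smul_of_tower_mem _ _ h4)

include hu he ho hj in
theorem m2 (p : ℤ) (hp : 0 < p) (z : R⟦X⟧) (hz : z ∈ pw e (st.F B.gr) p)
    (h : pD st.D u z ∈ pw e (st.F B.G2) (p + 1)) : z ∈ pw e (st.F B.gp) p := by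
  have key : ∀ a : ℕ, coeff (a + 1) z ∈ st.F B.gp (p - ((a + 1 : ℕ) : ℤ) * e) := by
    intro a
    set y := coeff (a + 1) z with hy
    have hyz : y ∈ st.F B.gr (p - ((a + 1 : ℕ) : ℤ) * e) := hz (a + 1)
    have h1 := h a
    rw [coeff_pD] at h1
    have e1 : p + 1 - (a : ℤ) * e = p - (a : ℤ) * e + 1 := by ring
    have e2 : p - ((a + 1 : ℕ) : ℤ) * e + B.dg j = p - (a : ℤ) * e + 1 := by
      rw [he]; push_cast; ring
    rw [e1] at h1
    have h2 := st.F_mono _ _ (B.G2_le_Q j) _ h1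
    have h3 : (a + 1) • (u * y) ∈ st.F (B.Q j) (p - (a : ℤ) * e + 1) :=
      (Submodule.add_mem_iff_right _ (st.m1 _ _ (hz a))).mp h2
    have h4 := nsmul_inv (a + 1) (Nat.succ_ne_zero a) h3
    have h5 := st.mul_mem (B.Q j) B.gr (B.Q j) (B.Q_le _)
      (fun a b x hx y hy => Q_mul B _ a b x hx y hy) _ _ _ hu.sub_mem _ hyz
    rw [add_comm, e2, sub_mul] at h5
    have h6 : st.inc (B.v j) * y ∈ st.F (B.Q j) (p - (a : ℤ) * e + 1) := by
      have := Submodule.add_mem _ h5 h4
      rwa [sub_add_cancel] at this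
    have h7 : y * st.inc (B.v j) ∈ st.F (B.Q j) (p - (a : ℤ) * e + 1) := by
      have h8 := st.gc_od _ ho _ (st.inc_mem _ _ _ (B.v_mem j hj)) y
      rcases Int.even_or_odd (p - ((a + 1 : ℕ) : ℤ) * e) with h9 | h9
      · rw [st.α_ev _ h9 _ hyz] at h8
        rwa [← h8]
      · rw [st.α_od _ h9 _ hyz, neg_mul] at h8
        rw [h8] at h6
        exact (Submodule.neg_mem_iff _).mp h6
    exact st.lin j hj _ _ hyz (by rw [e2]; exact h7)
  intro a
  rcases a with _ | a
  · have h1 := h 0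
    rw [coeff_pD] at h1
    have h2 := st.mul_mem B.gp B.gp B.G2 B.gp_le (fun a b x hx y hy => by
      have hx' := hx
      have hy' := hy
      unfold Base.gp at hx' hy'
      split_ifs at hx' hy' with h3 h4
      · exact ⟨B.A2_mul _ _ h3 h4 _ hx' _ hy', B.mul_mem _ _ _ hx' _ hy'⟩
      · rw [Submodule.mem_bot] at hy'
        rw [hy', mul_zero]; exact Submodule.zero_mem _
      · rw [Submodule.mem_bot] at hx'
        rw [hx', zero_mul]; exact Submodule.zero_mem _
      · rw [Submodule.mem_bot] at hx'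
        rw [hx', zero_mul]; exact Submodule.zero_mem _) _ _ _ hu.mem_gp _ (key 0)
    have e1 : p + 1 - ((0 : ℕ) : ℤ) * e = p + 1 := by push_cast; ring
    have e2 : B.dg j + (p - ((0 + 1 : ℕ) : ℤ) * e) = p + 1 := by
      rw [he]; push_cast; ring
    have e3 : p - ((0 : ℕ) : ℤ) * e = p := by push_cast; ring
    rw [e1] at h1
    rw [e2] at h2
    have h3 : st.D (coeff 0 z) ∈ st.F B.G2 (p + 1) :=
      (Submodule.add_mem_iff_left _ (Submodule.smul_of_tower_mem _ _ h2)).mp h1
    have h4 := hz 0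
    rw [e3] at h4 ⊢
    exact st.m2 p hp _ h4 h3
  · exact key a

theorem G2_gp (B : Base K A) (a b : ℤ) (x : A) (hx : x ∈ B.gp a) (y : A) (hy : y ∈ B.gp b) :
    x * y ∈ B.G2 (a + b) := by
  by_cases ha : 0 < a
  · by_cases hb : 0 < b
    · exact ⟨B.A2_mul _ _ ha hb _ (B.gp_le _ hx) _ (B.gp_le _ hy),
        B.mul_mem _ _ _ (B.gp_le _ hx) _ (B.gp_le _ hy)⟩
    · unfold Base.gp at hy
      rw [if_neg hb, Submodule.mem_bot] at hy
      rw [hy, mul_zero]
      exact Submodule.zero_mem _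
  · unfold Base.gp at hx
    rw [if_neg ha, Submodule.mem_bot] at hx
    rw [hx, zero_mul]
    exact Submodule.zero_mem _

include hu in
theorem ρ_u (hj : j < B.n) : st.ρ u ∈ B.I (j + 1) := by
  have h := Submodule.sub_mem _ (B.v_mem_I j hj) (B.I_mono _ _ hu.ρ_sub)
  rwa [sub_sub_cancel] at h

include hu hj in
theorem ρD (z : R⟦X⟧) : rho st (pD st.D u z) - B.d (rho st z) ∈ B.I (j + 1) := by
  rw [rho_apply, rho_apply, coeff_pD, map_add, map_nsmul, map_mul, add_sub_right_comm]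
  refine Submodule.add_mem _ (B.I_mono _ _ (st.ρD _)) ?_
  exact Submodule.smul_of_tower_mem _ _ (B.I_right _ _ _ (ρ_u hu hj))

theorem lin (i : ℕ) (hi : i < B.n) (p : ℤ) (z : R⟦X⟧) (hz : z ∈ pw e (st.F B.gr) p)
    (h : z * inc st (B.v i) ∈ pw e (st.F (B.Q i)) (p + B.dg i)) : z ∈ pw e (st.F B.gp) p := by
  intro a
  have h1 := h a
  rw [inc_apply, PowerSeries.coeff_mul_C] at h1
  refine st.lin i hi _ _ (hz a) ?_
  have e1 : p - (a : ℤ) * e + B.dg i = p + B.dg i - (a : ℤ) * e := by ring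
  rw [e1]
  exact h1

include he hj ho in
theorem low (i : ℕ) (hi : i < B.n) (p : ℤ) (hp : p ≤ B.dg i) (z : R⟦X⟧)
    (hz : z ∈ pw e (st.F B.gp) p) (h : rho st z ∈ B.I i) : z ∈ pw e (st.F (B.Q i)) p := by
  have he0 := pos_e he ho hj
  intro a
  have h1 := hz a
  rcases Nat.eq_zero_or_pos a with ha | ha
  · subst ha
    rw [rho_apply] at h
    have e1 : p - ((0 : ℕ) : ℤ) * e = p := by push_cast; ring
    rw [e1] at h1 ⊢
    exact st.low i hi p hp _ h1 h
  · have hlt : p - (a : ℤ) * e < p := by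
      have : 0 < (a : ℤ) * e := by positivity
      omega
    refine st.low i hi _ (by omega) _ h1 ?_
    have h2 := st.ρ_mem _ _ _ h1
    by_cases h3 : 0 < p - (a : ℤ) * e
    · exact B.low i hi _ h3 (by omega) _ (B.gp_le _ h2)
    · unfold Base.gp at h2
      rw [if_neg h3, Submodule.mem_bot] at h2
      rw [h2]
      exact Submodule.zero_mem _

/-- graded kernel of `R_j → A / I j` -/
def N (st : Stage B j R) (q : ℤ) : Submodule K R :=
  st.F B.gr q ⊓ (B.I j).comap (st.ρ : R →ₗ[K] A)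

theorem mem_N {q : ℤ} {z : R} : z ∈ N st q ↔ z ∈ st.F B.gr q ∧ st.ρ z ∈ B.I j := Iff.rfl

include hu he in
theorem u_mul_gr (q : ℤ) (r : R) (hr : r ∈ st.F B.gr q) : u * r ∈ st.F B.gr (q + e + 1) := by
  have h := st.mul_mem B.gp B.gr B.gr B.gp_le B.gr_idl.2 _ _ _ hu.mem_gp _ hr
  have e1 : B.dg j + q = q + e + 1 := by rw [he]; ring
  rwa [e1] at h

include hu he ho hj in
theorem acy_N : Acy (pD st.D u) (pw e (N st)) (pw e (fun _ => ⊥)) := by
  refine Cx.acy_pw u e (pos_e he ho hj) ?_ (fun _ => bot_le) ?_ ?_ (u_sq hu ho)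
    (D_u_mul hu ho) st.D_sq ?_
  · intro p hp
    rw [eq_bot_iff, ← st.F_gr_neg hp]
    exact inf_le_left
  · intro q r hr
    refine ⟨u_mul_gr hu he q r hr.1, ?_⟩
    change st.ρ (u * r) ∈ B.I j
    rw [map_mul]
    exact B.I_left _ _ _ hr.2
  · intro q r hr
    rw [Submodule.mem_bot] at hr ⊢
    rw [hr, mul_zero]
  · intro p z hz hDz
    rw [Submodule.mem_bot] at hDz
    obtain ⟨w, hw, hρ, hD⟩ := st.acyN p z hz.1 hz.2 hDz
    refine ⟨w, ⟨hw, hρ⟩, ?_⟩
    rw [hD, sub_self]
    exact Submodule.zero_mem _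

/-- the monomial `t^n r` -/
noncomputable def mon (n : ℕ) (r : R) : R⟦X⟧ := PowerSeries.mk fun a => if a = n then r else 0

theorem coeff_mon (n : ℕ) (r : R) (a : ℕ) : coeff a (mon n r) = if a = n then r else 0 := by
  unfold mon
  rw [PowerSeries.coeff_mk]

theorem mon_mem {P : ℤ → Submodule K R} {n : ℕ} {r : R} {p : ℤ} (h : r ∈ P (p - n * e)) :
    mon n r ∈ pw e P p := by
  intro a
  rw [coeff_mon]
  split_ifs with h1
  · rw [h1]; exact h
  · exact Submodule.zero_mem _

include hu he ho hj in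
theorem step (p : ℤ) (z : R⟦X⟧) (hz : z ∈ pw e (st.F B.gr) p) (h0 : rho st z ∈ B.I (j + 1))
    (hD : pD st.D u z = 0) (b : ℕ) :
    ∃ w ∈ pw e (st.F B.gr) (p - 1), rho st w ∈ B.I (j + 1) ∧
      ∀ a < b, st.ρ (coeff a (z - pD st.D u w)) ∈ B.I j := by
  induction b with
  | zero =>
    refine ⟨0, Submodule.zero_mem _, ?_, fun a ha => absurd ha (Nat.not_lt_zero a)⟩
    rw [map_zero]
    exact Submodule.zero_mem _
  | succ b ih =>
    obtain ⟨w, hw, hw0, hwa⟩ := ih
    set z' := z - pD st.D u w with hz'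
    have hDw : pD st.D u w ∈ pw e (st.F B.gr) p := by
      have h1 := m1 hu he _ w hw
      rw [sub_add_cancel] at h1
      exact fun a => st.F_mono _ _ (B.Q_le _) _ (h1 a)
    have hz'm : z' ∈ pw e (st.F B.gr) p := Submodule.sub_mem _ hz hDw
    have hDz' : pD st.D u z' = 0 := by
      rw [hz', map_sub, hD, D_sq hu ho, sub_zero]
    have hc : ∃ c ∈ B.gr (p - b * e - B.dg j), st.ρ (coeff b z') - B.v j * c ∈ B.I j := by
      rcases Nat.eq_zero_or_pos b with hb | hb
      · subst hb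
        have h1 : st.ρ (coeff 0 z') ∈ B.I (j + 1) := by
          rw [← rho_apply, hz', map_sub]
          refine Submodule.sub_mem _ h0 ?_
          have h2 := ρD hu hj w
          have h3 := B.I_d (j + 1) hj _ hw0
          have h4 := Submodule.add_mem _ h2 h3
          rwa [sub_add_cancel] at h4
        exact B.I_dec j hj _ _ (st.ρ_mem _ _ _ (hz'm 0)) h1
      · obtain ⟨b', rfl⟩ : ∃ b', b = b' + 1 := ⟨b - 1, by omega⟩
        have h1 : coeff b' (pD st.D u z') = 0 := by rw [hDz', map_zero]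
        rw [coeff_pD] at h1
        have h2 : st.ρ (st.D (coeff b' z')) ∈ B.I j := by
          have h3 := st.ρD (coeff b' z')
          have h4 := B.I_d j hj.le _ (hwa b' (Nat.lt_succ_self b'))
          have h5 := Submodule.add_mem _ h3 h4
          rwa [sub_add_cancel] at h5
        have h3 : (b' + 1) • st.ρ (u * coeff (b' + 1) z') ∈ B.I j := by
          have h4 := congrArg st.ρ h1
          rw [map_add, map_nsmul, map_zero] at h4
          rw [eq_neg_of_add_eq_zero_right h4]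
          exact Submodule.neg_mem _ h2
        have h4 := nsmul_inv' (b' + 1) (Nat.succ_ne_zero b') h3
        rw [map_mul] at h4
        have h5 : B.v j * st.ρ (coeff (b' + 1) z') ∈ B.I j := by
          have h6 := B.I_right _ (st.ρ (coeff (b' + 1) z')) _ hu.ρ_sub
          rw [sub_mul] at h6
          have h7 := Submodule.add_mem _ h6 h4
          rwa [sub_add_cancel] at h7
        exact B.reg_od j hj ho _ _ (st.ρ_mem _ _ _ (hz'm (b' + 1))) h5
    obtain ⟨c, hc1, hc2⟩ := hc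
    set y : R := (((b + 1 : ℕ) : K)⁻¹) • st.inc c with hy
    have hyb : (b + 1) • (u * y) = u * st.inc c := by
      rw [hy, mul_smul_comm, ← Nat.cast_smul_eq_nsmul K (b + 1), smul_smul,
        mul_inv_cancel₀ (Nat.cast_ne_zero.mpr (Nat.succ_ne_zero b)), one_smul]
    have hym : y ∈ st.F B.gr (p - 1 - ((b + 1 : ℕ) : ℤ) * e) := by
      have e1 : p - 1 - ((b + 1 : ℕ) : ℤ) * e = p - b * e - B.dg j := by
        rw [he]; push_cast; ring
      rw [e1]
      exact Submodule.smul_mem _ _ (st.inc_mem _ _ _ hc1)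
    refine ⟨w + mon (b + 1) y, Submodule.add_mem _ hw (mon_mem hym), ?_, ?_⟩
    · rw [map_add]
      refine Submodule.add_mem _ hw0 ?_
      rw [rho_apply, coeff_mon, if_neg (Nat.succ_ne_zero b).symm, map_zero]
      exact Submodule.zero_mem _
    · intro a ha
      have e1 : z - pD st.D u (w + mon (b + 1) y) = z' - pD st.D u (mon (b + 1) y) := by
        rw [map_add, hz']
        abel
      rw [e1, map_sub, coeff_pD, coeff_mon, coeff_mon, if_neg (by omega : ¬ a = b + 1), map_zero,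
        zero_add]
      rcases Nat.lt_succ_iff_lt_or_eq.mp ha with h1 | h1
      · rw [if_neg (by omega : ¬ a + 1 = b + 1), mul_zero, smul_zero, sub_zero]
        exact hwa a h1
      · subst h1
        rw [if_pos rfl, hyb, map_sub, map_mul, st.ρ_inc]
        have h6 := B.I_right _ c _ hu.ρ_sub
        rw [sub_mul] at h6
        have h7 := Submodule.add_mem _ hc2 h6
        have e2 : st.ρ (coeff a z') - B.v j * c + (B.v j * c - st.ρ u * c) =
            st.ρ (coeff a z') - st.ρ u * c := by abel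
        rwa [e2] at h7

include hu he ho hj in
theorem acyN (p : ℤ) (z : R⟦X⟧) (hz : z ∈ pw e (st.F B.gr) p) (h0 : rho st z ∈ B.I (j + 1))
    (hD : pD st.D u z = 0) :
    ∃ w ∈ pw e (st.F B.gr) (p - 1), rho st w ∈ B.I (j + 1) ∧ pD st.D u w = z := by
  have he0 := pos_e he ho hj
  obtain ⟨w, hw, hw0, hwa⟩ := step hu he ho hj p z hz h0 hD (p.toNat + 1)
  set z' := z - pD st.D u w with hz'
  have hDw : pD st.D u w ∈ pw e (st.F B.gr) p := by
    have h1 := m1 hu he _ w hw
    rw [sub_add_cancel] at h1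
    exact fun a => st.F_mono _ _ (B.Q_le _) _ (h1 a)
  have hz'm : z' ∈ pw e (st.F B.gr) p := Submodule.sub_mem _ hz hDw
  have hDz' : pD st.D u z' = 0 := by
    rw [hz', map_sub, hD, D_sq hu ho, sub_zero]
  have hN : z' ∈ pw e (N st) p := by
    intro a
    refine ⟨hz'm a, ?_⟩
    change st.ρ (coeff a z') ∈ B.I j
    rcases Nat.lt_or_ge a (p.toNat + 1) with h1 | h1
    · exact hwa a h1
    · have h2 : p - (a : ℤ) * e < 0 := by
        have h3 : (a : ℤ) * 1 ≤ (a : ℤ) * e :=
          mul_le_mul_of_nonneg_left (by omega) (by positivity)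
        omega
      have h3 := hz'm a
      rw [st.F_gr_neg h2, Submodule.mem_bot] at h3
      rw [h3, map_zero]
      exact Submodule.zero_mem _
  obtain ⟨w', hw', hb⟩ := acy_N hu he ho hj p z' hN (by rw [hDz']; exact Submodule.zero_mem _)
  have hz0 : z' - pD st.D u w' = 0 := by
    ext a
    have := hb a
    rw [Submodule.mem_bot] at this
    rw [this, map_zero]
  refine ⟨w + w', Submodule.add_mem _ hw (fun a => (hw' a).1), ?_, ?_⟩
  · rw [map_add]
    refine Submodule.add_mem _ hw0 ?_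
    rw [rho_apply]
    have h1 : st.ρ (coeff 0 w') ∈ B.I j := (hw' 0).2
    exact B.I_mono _ _ h1
  · rw [map_add]
    have h1 := sub_eq_zero.mp hz0
    rw [← h1, hz']
    abel

include hu he ho hj in
theorem acyT (X Y : ℤ → Submodule K A) (hX : B.Idl X) (hY : B.Idl Y) (hYX : ∀ q, Y q ≤ X q)
    (h : Acy B.d X Y) : Acy (pD st.D u) (pw e (st.F X)) (pw e (st.F Y)) := by
  have key : ∀ X : ℤ → Submodule K A, B.Idl X → ∀ q, ∀ r ∈ st.F X q,
      u * r ∈ st.F X (q + e + 1) := by
    intro X hX q r hr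
    have h1 := st.mul_mem B.gp X X B.gp_le hX.2 _ _ _ hu.mem_gp _ hr
    have e1 : B.dg j + q = q + e + 1 := by rw [he]; ring
    rwa [e1] at h1
  refine Cx.acy_pw u e (pos_e he ho hj) ?_ ?_ (key X hX) (key Y hY) (u_sq hu ho)
    (D_u_mul hu ho) st.D_sq (st.acyT X Y hX hY hYX h)
  · intro p hp
    refine st.F_neg X (fun q hq => ?_) p hp
    rw [eq_bot_iff, ← B.gr_neg q hq]
    exact hX.1 q
  · exact st.F_mono _ _ hYX

variable (st) in
/-- The next stage. -/
noncomputable def ext : Stage B (j + 1) R⟦X⟧ where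
  α := al st
  D := pD st.D u
  F := fun X => pw e (st.F X)
  inc := inc st
  ρ := rho st
  F_mono := fun X Y h p z hz a => st.F_mono X Y h _ (hz a)
  F_bot := fun p => by
    rw [eq_bot_iff]
    intro z hz
    rw [Submodule.mem_bot]
    ext a
    have := hz a
    rw [st.F_bot, Submodule.mem_bot] at this
    rw [this, map_zero]
  F_neg := fun X h p hp => by
    rw [eq_bot_iff]
    intro z hz
    rw [Submodule.mem_bot]
    ext a
    have h1 := hz a
    have he0 := pos_e he ho hj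
    have h2 : p - (a : ℤ) * e < 0 := by
      have : 0 ≤ (a : ℤ) * e := by positivity
      omega
    rw [st.F_neg X h _ h2, Submodule.mem_bot] at h1
    rw [h1, map_zero]
  inc_mem := fun X p a ha b => by
    rw [coeff_inc]
    split_ifs with h1
    · subst h1
      have e1 : p - ((0 : ℕ) : ℤ) * e = p := by push_cast; ring
      rw [e1]
      exact st.inc_mem X p a ha
    · exact Submodule.zero_mem _
  ρ_mem := fun X p z hz => by
    rw [rho_apply]
    have h1 := hz 0
    have e1 : p - ((0 : ℕ) : ℤ) * e = p := by push_cast; ring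
    rw [e1] at h1
    exact st.ρ_mem X p _ h1
  ρ_inc := fun a => by
    rw [rho_apply, coeff_inc, if_pos rfl, st.ρ_inc]
  mul_mem := fun X Y Z hX h a b f hf g hg => mul_mem X Y Z hX h a b f hf g hg
  α_ev := α_ev he ho
  α_od := α_od he ho
  α_α := fun z => by
    ext a
    rw [coeff_al, coeff_al, st.α_α]
  gc_ev := gc_ev he ho
  gc_od := gc_od he ho
  D_sq := D_sq hu ho
  D_mul := D_mul hu ho
  D_α := D_α hu ho
  D_inc := D_inc
  DF := DF hu he
  m1 := m1 hu he
  m2 := m2 hu he ho hj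
  ρD := ρD hu hj
  lin := lin
  low := low he ho hj
  acyN := acyN hu he ho hj
  acyT := acyT hu he ho hj

end Pool.Agent.H91.Hil.ExtEv
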