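import Pool.Agent.H91.Hil.Defs

/-!
# Hilali: the ring `R ⊕ t R` with `t` odd
-/

namespace Pool.Agent.H91.Hil

variable {K R : Type*} [Field K] [Ring R] [Algebra K R] {α : R →ₐ[K] R}

instance : Mul (OE α) := ⟨fun y z => OE.mk α (y.c0 * z.c0) (α y.c0 * z.c1 + y.c1 * z.c0)⟩

instance : One (OE α) := ⟨OE.mk α 1 0⟩

@[simp] theorem OE.c0_mul (y z : OE α) : (y * z).c0 = y.c0 * z.c0 := rfl
@[simp] theorem OE.c1_mul (y z : OE α) : (y * z).c1 = α y.c0 * z.c1 + y.c1 * z.c0 := rfl
@[simp] theorem OE.c0_one : (1 : OE α).c0 = 1 := rfl
@[simp] theorem OE.c1_one : (1 : OE α).c1 = 0 := rfl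

instance : Ring (OE α) :=
  { (inferInstance : AddCommGroup (OE α)) with
    mul := fun y z => y * z
    one := 1
    left_distrib := by
      intro a b c
      ext
      · simp [mul_add]
      · simp [mul_add]
        abel
    right_distrib := by
      intro a b c
      ext
      · simp [add_mul]
      · simp [add_mul]
        abel
    zero_mul := by
      intro a
      ext <;> simp
    mul_zero := by
      intro a
      ext <;> simp
    mul_assoc := by
      intro a b c
      ext
      · simp [mul_assoc]
      · simp [mul_assoc, mul_add, add_mul]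
        abel
    one_mul := by
      intro a
      ext <;> simp
    mul_one := by
      intro a
      ext <;> simp }

instance : Algebra K (OE α) :=
  Algebra.ofModule
    (by
      intro r x y
      ext <;> simp [smul_add])
    (by
      intro r x y
      ext <;> simp [smul_add])

theorem OE.c0_algebraMap (c : K) : (algebraMap K (OE α) c).c0 = algebraMap K R c := by
  rw [Algebra.algebraMap_eq_smul_one, OE.c0_smul, OE.c0_one, ← Algebra.algebraMap_eq_smul_one]

theorem OE.c1_algebraMap (c : K) : (algebraMap K (OE α) c).c1 = 0 := by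
  rw [Algebra.algebraMap_eq_smul_one, OE.c1_smul, OE.c1_one, smul_zero]

end Pool.Agent.H91.Hil
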