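import Pool.Agent.H91.Hil.Stage
import Pool.Agent.H91.Hil.OERing
import Pool.Agent.H91.Hil.Cx

/-!
# Hilali: killing an even generator by an odd variable
-/

namespace Pool.Agent.H91.Hil.ExtOd

set_option linter.unusedSectionVars false

variable {K A : Type*} [Field K] [CharZero K] [Ring A] [Algebra K A]
variable {B : Base K A} {j : ℕ} {R : Type*} [Ring R] [Algebra K R] (st : Stage B j R)

/-- the parity involution of `R ⊕ t R` -/
def al : OE st.α →ₐ[K] OE st.α where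
  toFun z := OE.mk st.α (st.α z.c0) (-(st.α z.c1))
  map_one' := by ext <;> simp
  map_mul' := by
    intro x y
    ext
    · simp
    · simp
      abel
  map_zero' := by ext <;> simp
  map_add' := by
    intro x y
    ext
    · simp
    · simp
      abel
  commutes' := by
    intro c
    ext
    · simp [OE.c0_algebraMap]
    · simp [OE.c1_algebraMap]

@[simp] theorem c0_al (z : OE st.α) : (al st z).c0 = st.α z.c0 := rfl
@[simp] theorem c1_al (z : OE st.α) : (al st z).c1 = -(st.α z.c1) := rfl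

/-- the inclusion of `A` -/
def inc : A →ₐ[K] OE st.α where
  toFun a := OE.mk st.α (st.inc a) 0
  map_one' := by ext <;> simp
  map_mul' := by
    intro x y
    ext <;> simp
  map_zero' := by ext <;> simp
  map_add' := by
    intro x y
    ext <;> simp
  commutes' := by
    intro c
    ext
    · simp [OE.c0_algebraMap]
    · simp [OE.c1_algebraMap]

@[simp] theorem c0_inc (a : A) : (inc st a).c0 = st.inc a := rfl
@[simp] theorem c1_inc (a : A) : (inc st a).c1 = 0 := rfl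

/-- the retraction to `A` -/
def rho : OE st.α →ₐ[K] A where
  toFun z := st.ρ z.c0
  map_one' := by simp
  map_mul' := by simp
  map_zero' := by simp
  map_add' := by simp
  commutes' := by
    intro c
    simp [OE.c0_algebraMap]

theorem rho_apply (z : OE st.α) : rho st z = st.ρ z.c0 := rfl

variable {st} {u : R} (hu : Nxt st u) {e : ℤ} (he : B.dg j = e + 1) (ho : Even (B.dg j))
  (hj : j < B.n)

include he ho in
theorem odd_e : Odd e := by
  rw [he] at ho
  rcases ho with ⟨k, hk⟩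
  exact ⟨k - 1, by omega⟩

include he hj in
theorem pos_e : 0 < e := by
  have h := B.two_le j hj
  omega

include hu in
theorem u_mem : u ∈ st.F B.gr (B.dg j) := st.F_mono _ _ B.gp_le _ hu.mem_gp

include hu ho in
theorem u_mul (f : R) : u * f = f * u := st.gc_ev _ ho u (u_mem hu) f

include hu ho in
theorem α_u : st.α u = u := st.α_ev _ ho u (u_mem hu)

include hu ho in
theorem D_u_mul (f : R) : st.D (u * f) = u * st.D f := by
  rw [st.D_mul, hu.D_u, zero_mul, zero_add, α_u hu ho]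

theorem mul_mem (X Y Z : ℤ → Submodule K A) (hX : ∀ p, X p ≤ B.gr p)
    (h : ∀ a b, ∀ x ∈ X a, ∀ y ∈ Y b, x * y ∈ Z (a + b)) (a b : ℤ) (f : OE st.α)
    (hf : f ∈ ow st.α e (st.F X) a) (g : OE st.α) (hg : g ∈ ow st.α e (st.F Y) b) :
    f * g ∈ ow st.α e (st.F Z) (a + b) := by
  have h1 : st.α f.c0 ∈ st.F X a := by
    have h2 := st.F_mono X B.gr hX a hf.1
    rcases Int.even_or_odd a with h3 | h3
    · rw [st.α_ev a h3 _ h2]; exact hf.1
    · rw [st.α_od a h3 _ h2]; exact Submodule.neg_mem _ hf.1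
  refine ⟨st.mul_mem X Y Z hX h _ _ _ hf.1 _ hg.1, ?_⟩
  rw [OE.c1_mul]
  refine Submodule.add_mem _ ?_ ?_
  · have h2 := st.mul_mem X Y Z hX h _ _ _ h1 _ hg.2
    rwa [← add_sub_assoc] at h2
  · have h2 := st.mul_mem X Y Z hX h _ _ _ hf.2 _ hg.1
    have e1 : a - e + b = a + b - e := by ring
    rwa [e1] at h2

include he ho in
theorem α_ev (p : ℤ) (hp : Even p) (z : OE st.α) (hz : z ∈ ow st.α e (st.F B.gr) p) :
    al st z = z := by
  ext
  · rw [c0_al, st.α_ev p hp _ hz.1]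
  · rw [c1_al, st.α_od _ (hp.sub_odd (odd_e he ho)) _ hz.2, neg_neg]

include he ho in
theorem α_od (p : ℤ) (hp : Odd p) (z : OE st.α) (hz : z ∈ ow st.α e (st.F B.gr) p) :
    al st z = -z := by
  ext
  · rw [c0_al, st.α_od p hp _ hz.1]; rfl
  · rw [c1_al, st.α_ev _ (hp.sub_odd (odd_e he ho)) _ hz.2]; rfl

include he ho in
theorem gc_ev (p : ℤ) (hp : Even p) (z : OE st.α) (hz : z ∈ ow st.α e (st.F B.gr) p)
    (f : OE st.α) : z * f = f * z := by
  have h1 := st.α_ev p hp _ hz.1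
  have h2 := st.gc_ev p hp _ hz.1
  have h3 := st.gc_od _ (hp.sub_odd (odd_e he ho)) _ hz.2
  ext
  · exact h2 _
  · rw [OE.c1_mul, OE.c1_mul, h1, h2, h3, add_comm]

include he ho in
theorem gc_od (p : ℤ) (hp : Odd p) (z : OE st.α) (hz : z ∈ ow st.α e (st.F B.gr) p)
    (f : OE st.α) : z * f = al st f * z := by
  have h1 := st.α_od p hp _ hz.1
  have h2 := st.gc_od p hp _ hz.1
  have h3 := st.gc_ev _ (hp.sub_odd (odd_e he ho)) _ hz.2
  ext
  · exact h2 _
  · rw [OE.c1_mul, OE.c1_mul, h1, c0_al, c1_al, neg_mul, h2, h3, neg_mul, st.α_α, add_comm]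

include hu ho in
theorem D_sq (z : OE st.α) : oD st.α st.D u (oD st.α st.D u z) = 0 := by
  ext
  · rw [c0_oD, c0_oD, c1_oD, map_add, st.D_sq, D_u_mul hu ho, zero_add, mul_neg, add_neg_cancel]
    rfl
  · rw [c1_oD, c1_oD, map_neg, st.D_sq, neg_zero, neg_zero]
    rfl

include hu ho in
theorem D_mul (f g : OE st.α) :
    oD st.α st.D u (f * g) = oD st.α st.D u f * g + al st f * oD st.α st.D u g := by
  have hx : ∀ r, r * u = u * r := fun r => (u_mul hu ho r).symm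
  ext
  · rw [c0_oD, OE.c0_mul, OE.c1_mul, OE.c0_add, OE.c0_mul, OE.c0_mul, c0_al, c0_oD, c0_oD,
      st.D_mul, mul_add, add_mul, mul_add, ← mul_assoc (st.α f.c0) u, hx, mul_assoc, mul_assoc]
    abel
  · rw [c1_oD, OE.c1_mul, OE.c1_add, OE.c1_mul, OE.c1_mul, c0_al, c1_al, c0_oD, c0_oD, c1_oD,
      c1_oD, map_add, st.D_mul, st.D_mul, map_add, map_mul, α_u hu ho, st.D_α, mul_add,
      ← mul_assoc (-(st.α f.c1)) u, neg_mul (st.α f.c1) u, hx, add_mul, neg_mul, neg_mul,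
      neg_mul, neg_mul, mul_neg]
    abel

include hu ho in
theorem D_α (z : OE st.α) : oD st.α st.D u (al st z) = -al st (oD st.α st.D u z) := by
  ext
  · rw [c0_oD, c0_al, c1_al, OE.c0_neg, c0_al, c0_oD, st.D_α, map_add, map_mul, α_u hu ho]
    rw [mul_neg, neg_add]
  · rw [c1_oD, c1_al, OE.c1_neg, c1_al, c1_oD, map_neg, map_neg, st.D_α, neg_neg]

theorem D_inc (a : A) : oD st.α st.D u (inc st a) = inc st (B.d a) := by
  ext
  · rw [c0_oD, c0_inc, c1_inc, c0_inc, mul_zero, add_zero, st.D_inc]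
  · rw [c1_oD, c1_inc, c1_inc, map_zero, neg_zero]

include hu he in
theorem DF (Y Y' : ℤ → Submodule K A) (h1 : ∀ q, ∀ y ∈ Y' q, B.d y ∈ Y (q + 1))
    (h2 : ∀ a q, ∀ x ∈ B.gp a, ∀ y ∈ Y' q, x * y ∈ Y (a + q)) (p : ℤ) (z : OE st.α)
    (hz : z ∈ ow st.α e (st.F Y') p) : oD st.α st.D u z ∈ ow st.α e (st.F Y) (p + 1) := by
  have h3 := st.DF Y Y' h1 h2 _ _ hz.1
  have h4 := st.mul_mem B.gp Y' Y B.gp_le h2 _ _ _ hu.mem_gp _ hz.2
  have h5 := st.DF Y Y' h1 h2 _ _ hz.2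
  have e2 : B.dg j + (p - e) = p + 1 := by
    rw [he]; ring
  have e3 : p - e + 1 = p + 1 - e := by ring
  rw [e2] at h4
  rw [e3] at h5
  exact ⟨Submodule.add_mem _ h3 h4, Submodule.neg_mem _ h5⟩

theorem Q_mul (B : Base K A) (i : ℕ) (a b : ℤ) (x : A) (hx : x ∈ B.Q i a) (y : A)
    (hy : y ∈ B.gr b) : x * y ∈ B.Q i (a + b) := by
  refine ⟨?_, B.mul_mem _ _ _ hx.2 _ hy⟩
  obtain ⟨x1, h1, x2, h2, rfl⟩ := Submodule.mem_sup.mp hx.1
  rw [add_mul]
  exact Submodule.add_mem _ (Submodule.mem_sup_left (B.I_right _ _ _ h1))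
    (Submodule.mem_sup_right (B.A2_right _ _ h2))

theorem G2_gp (B : Base K A) (a b : ℤ) (x : A) (hx : x ∈ B.gp a) (y : A) (hy : y ∈ B.gp b) :
    x * y ∈ B.G2 (a + b) := by
  by_cases ha : 0 < a
  · by_cases hb : 0 < b
    · exact ⟨B.A2_mul _ _ ha hb _ (B.gp_le _ hx) _ (B.gp_le _ hy),
        B.mul_mem _ _ _ (B.gp_le _ hx) _ (B.gp_le _ hy)⟩
    · unfold Base.gp at hy
      rw [if_neg hb, Submodule.mem_bot] at hy
      rw [hy, mul_zero]
      exact Submodule.zero_mem _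
  · unfold Base.gp at hx
    rw [if_neg ha, Submodule.mem_bot] at hx
    rw [hx, zero_mul]
    exact Submodule.zero_mem _

include hu he in
theorem m1 (p : ℤ) (z : OE st.α) (hz : z ∈ ow st.α e (st.F B.gr) p) :
    oD st.α st.D u z ∈ ow st.α e (st.F (B.Q (j + 1))) (p + 1) := by
  have h3 := st.F_mono _ _ (B.Q_mono j) _ (st.m1 _ _ hz.1)
  have h4 := st.mul_mem (B.Q (j + 1)) B.gr (B.Q (j + 1)) (B.Q_le _)
    (fun a b x hx y hy => Q_mul B _ a b x hx y hy) _ _ _ hu.mem_Q _ hz.2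
  have h5 := st.F_mono _ _ (B.Q_mono j) _ (st.m1 _ _ hz.2)
  have e2 : B.dg j + (p - e) = p + 1 := by
    rw [he]; ring
  have e3 : p - e + 1 = p + 1 - e := by ring
  rw [e2] at h4
  rw [e3] at h5
  exact ⟨Submodule.add_mem _ h3 h4, Submodule.neg_mem _ h5⟩

include hu he ho hj in
theorem m2 (p : ℤ) (hp : 0 < p) (z : OE st.α) (hz : z ∈ ow st.α e (st.F B.gr) p)
    (h : oD st.α st.D u z ∈ ow st.α e (st.F B.G2) (p + 1)) : z ∈ ow st.α e (st.F B.gp) p := by
  have e2 : p - e + B.dg j = p + 1 := by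
    rw [he]; ring
  have key : z.c1 ∈ st.F B.gp (p - e) := by
    have h1 := h.1
    rw [c0_oD] at h1
    have h2 := st.F_mono _ _ (B.G2_le_Q j) _ h1
    have h3 : u * z.c1 ∈ st.F (B.Q j) (p + 1) :=
      (Submodule.add_mem_iff_right _ (st.m1 _ _ hz.1)).mp h2
    have h5 := st.mul_mem (B.Q j) B.gr (B.Q j) (B.Q_le _)
      (fun a b x hx y hy => Q_mul B _ a b x hx y hy) _ _ _ hu.sub_mem _ hz.2
    rw [add_comm, e2, sub_mul] at h5
    have h6 : st.inc (B.v j) * z.c1 ∈ st.F (B.Q j) (p + 1) := by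
      have := Submodule.add_mem _ h5 h3
      rwa [sub_add_cancel] at this
    rw [st.gc_ev _ ho _ (st.inc_mem _ _ _ (B.v_mem j hj))] at h6
    exact st.lin j hj _ _ hz.2 (by rw [e2]; exact h6)
  refine ⟨?_, key⟩
  have h1 := h.1
  rw [c0_oD] at h1
  have h2 := st.mul_mem B.gp B.gp B.G2 B.gp_le (G2_gp B) _ _ _ hu.mem_gp _ key
  rw [add_comm, e2] at h2
  exact st.m2 p hp _ hz.1 ((Submodule.add_mem_iff_left _ h2).mp h1)

include hu in
theorem ρ_u (hj : j < B.n) : st.ρ u ∈ B.I (j + 1) := by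
  have h := Submodule.sub_mem _ (B.v_mem_I j hj) (B.I_mono _ _ hu.ρ_sub)
  rwa [sub_sub_cancel] at h

include hu hj in
theorem ρD (z : OE st.α) : rho st (oD st.α st.D u z) - B.d (rho st z) ∈ B.I (j + 1) := by
  rw [rho_apply, rho_apply, c0_oD, map_add, map_mul, add_sub_right_comm]
  exact Submodule.add_mem _ (B.I_mono _ _ (st.ρD _)) (B.I_right _ _ _ (ρ_u hu hj))

theorem lin (i : ℕ) (hi : i < B.n) (p : ℤ) (z : OE st.α) (hz : z ∈ ow st.α e (st.F B.gr) p)
    (h : z * inc st (B.v i) ∈ ow st.α e (st.F (B.Q i)) (p + B.dg i)) :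
    z ∈ ow st.α e (st.F B.gp) p := by
  refine ⟨st.lin i hi _ _ hz.1 h.1, ?_⟩
  have h1 := h.2
  rw [OE.c1_mul, c0_inc, c1_inc, mul_zero, zero_add] at h1
  refine st.lin i hi _ _ hz.2 ?_
  have e1 : p - e + B.dg i = p + B.dg i - e := by ring
  rw [e1]
  exact h1

include he hj in
theorem low (i : ℕ) (hi : i < B.n) (p : ℤ) (hp : p ≤ B.dg i) (z : OE st.α)
    (hz : z ∈ ow st.α e (st.F B.gp) p) (h : rho st z ∈ B.I i) :
    z ∈ ow st.α e (st.F (B.Q i)) p := by
  have he0 := pos_e he hj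
  refine ⟨st.low i hi p hp _ hz.1 h, ?_⟩
  refine st.low i hi _ (by omega) _ hz.2 ?_
  have h2 := st.ρ_mem _ _ _ hz.2
  by_cases h3 : 0 < p - e
  · exact B.low i hi _ h3 (by omega) _ (B.gp_le _ h2)
  · unfold Base.gp at h2
    rw [if_neg h3, Submodule.mem_bot] at h2
    rw [h2]
    exact Submodule.zero_mem _

/-- graded kernel of `R_j → A / I j` -/
def N (st : Stage B j R) (q : ℤ) : Submodule K R :=
  st.F B.gr q ⊓ (B.I j).comap (st.ρ : R →ₗ[K] A)

include hu he in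
theorem u_mul_gr (q : ℤ) (r : R) (hr : r ∈ st.F B.gr q) : u * r ∈ st.F B.gr (q + e + 1) := by
  have h := st.mul_mem B.gp B.gr B.gr B.gp_le B.gr_idl.2 _ _ _ hu.mem_gp _ hr
  have e1 : B.dg j + q = q + e + 1 := by rw [he]; ring
  rwa [e1] at h

include hu he ho in
theorem acy_N : Acy (oD st.α st.D u) (ow st.α e (N st)) (ow st.α e (fun _ => ⊥)) := by
  refine Cx.acy_ow u e ?_ ?_ (D_u_mul hu ho) ?_
  · intro q r hr
    refine ⟨u_mul_gr hu he q r hr.1, ?_⟩
    change st.ρ (u * r) ∈ B.I j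
    rw [map_mul]
    exact B.I_left _ _ _ hr.2
  · intro q r hr
    rw [Submodule.mem_bot] at hr ⊢
    rw [hr, mul_zero]
  · intro p z hz hDz
    rw [Submodule.mem_bot] at hDz
    obtain ⟨w, hw, hρ, hD⟩ := st.acyN p z hz.1 hz.2 hDz
    refine ⟨w, ⟨hw, hρ⟩, ?_⟩
    rw [hD, sub_self]
    exact Submodule.zero_mem _

include hu he ho hj in
theorem acyN (p : ℤ) (z : OE st.α) (hz : z ∈ ow st.α e (st.F B.gr) p)
    (h0 : rho st z ∈ B.I (j + 1)) (hD : oD st.α st.D u z = 0) :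
    ∃ w ∈ ow st.α e (st.F B.gr) (p - 1), rho st w ∈ B.I (j + 1) ∧ oD st.α st.D u w = z := by
  obtain ⟨c, hc1, hc2⟩ := B.I_dec j hj _ _ (st.ρ_mem _ _ _ hz.1) h0
  set w : OE st.α := OE.mk st.α 0 (st.inc c) with hw
  have hwm : w ∈ ow st.α e (st.F B.gr) (p - 1) := by
    refine ⟨Submodule.zero_mem _, ?_⟩
    have e1 : p - 1 - e = p - B.dg j := by rw [he]; ring
    rw [e1]
    exact st.inc_mem _ _ _ hc1
  set z' := z - oD st.α st.D u w with hz'
  have hDw : oD st.α st.D u w ∈ ow st.α e (st.F B.gr) p := by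
    have h1 := m1 hu he _ w hwm
    rw [sub_add_cancel] at h1
    exact ⟨st.F_mono _ _ (B.Q_le _) _ h1.1, st.F_mono _ _ (B.Q_le _) _ h1.2⟩
  have hz'm : z' ∈ ow st.α e (st.F B.gr) p := Submodule.sub_mem _ hz hDw
  have hDz' : oD st.α st.D u z' = 0 := by
    rw [hz', map_sub, hD, D_sq hu ho, sub_zero]
  have h1 : st.ρ z'.c0 ∈ B.I j := by
    rw [hz', OE.c0_sub, c0_oD, hw, OE.c0_mk, OE.c1_mk, map_zero, zero_add, map_sub, map_mul,
      st.ρ_inc]
    have h6 := B.I_right _ c _ hu.ρ_sub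
    rw [sub_mul] at h6
    have h7 := Submodule.add_mem _ hc2 h6
    have e2 : st.ρ z.c0 - B.v j * c + (B.v j * c - st.ρ u * c) = st.ρ z.c0 - st.ρ u * c := by
      abel
    rwa [e2] at h7
  have h2 : st.ρ z'.c1 ∈ B.I j := by
    have h3 : st.D z'.c0 + u * z'.c1 = 0 := by
      have h4 := congrArg OE.c0 hDz'
      rw [c0_oD] at h4
      exact h4
    have h4 : st.ρ (st.D z'.c0) ∈ B.I j := by
      have h5 := Submodule.add_mem _ (st.ρD z'.c0) (B.I_d j hj.le _ h1)
      rwa [sub_add_cancel] at h5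
    have h5 : st.ρ u * st.ρ z'.c1 ∈ B.I j := by
      have h6 := congrArg st.ρ h3
      rw [map_add, map_mul, map_zero] at h6
      rw [eq_neg_of_add_eq_zero_right h6]
      exact Submodule.neg_mem _ h4
    have h6 : B.v j * st.ρ z'.c1 ∈ B.I j := by
      have h7 := B.I_right _ (st.ρ z'.c1) _ hu.ρ_sub
      rw [sub_mul] at h7
      have h8 := Submodule.add_mem _ h7 h5
      rwa [sub_add_cancel] at h8
    exact B.reg_ev j hj ho _ _ (st.ρ_mem _ _ _ hz'm.2) h6
  have hN : z' ∈ ow st.α e (N st) p := ⟨⟨hz'm.1, h1⟩, ⟨hz'm.2, h2⟩⟩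
  obtain ⟨w', hw', hb⟩ := acy_N hu he ho p z' hN (by rw [hDz']; exact Submodule.zero_mem _)
  have hz0 : z' - oD st.α st.D u w' = 0 := by
    have h3 := hb.1
    have h4 := hb.2
    rw [Submodule.mem_bot] at h3 h4
    exact OE.ext h3 h4
  refine ⟨w + w', Submodule.add_mem _ hwm ⟨hw'.1.1, hw'.2.1⟩, ?_, ?_⟩
  · rw [rho_apply, OE.c0_add, map_add]
    refine Submodule.add_mem _ ?_ (B.I_mono _ _ hw'.1.2)
    rw [hw, OE.c0_mk, map_zero]
    exact Submodule.zero_mem _
  · rw [map_add]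
    have h1 := sub_eq_zero.mp hz0
    rw [← h1, hz']
    abel

include hu he ho in
theorem acyT (X Y : ℤ → Submodule K A) (hX : B.Idl X) (hY : B.Idl Y) (hYX : ∀ q, Y q ≤ X q)
    (h : Acy B.d X Y) : Acy (oD st.α st.D u) (ow st.α e (st.F X)) (ow st.α e (st.F Y)) := by
  have key : ∀ X : ℤ → Submodule K A, B.Idl X → ∀ q, ∀ r ∈ st.F X q,
      u * r ∈ st.F X (q + e + 1) := by
    intro X hX q r hr
    have h1 := st.mul_mem B.gp X X B.gp_le hX.2 _ _ _ hu.mem_gp _ hr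
    have e1 : B.dg j + q = q + e + 1 := by rw [he]; ring
    rwa [e1] at h1
  exact Cx.acy_ow u e (key X hX) (key Y hY) (D_u_mul hu ho) (st.acyT X Y hX hY hYX h)

variable (st) in
/-- The next stage. -/
noncomputable def ext : Stage B (j + 1) (OE st.α) where
  α := al st
  D := oD st.α st.D u
  F := fun X => ow st.α e (st.F X)
  inc := inc st
  ρ := rho st
  F_mono := fun X Y h p z hz => ⟨st.F_mono X Y h _ hz.1, st.F_mono X Y h _ hz.2⟩
  F_bot := fun p => by
    rw [eq_bot_iff]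
    intro z hz
    have h1 := hz.1
    have h2 := hz.2
    rw [st.F_bot, Submodule.mem_bot] at h1 h2
    rw [Submodule.mem_bot]
    exact OE.ext h1 h2
  F_neg := fun X h p hp => by
    rw [eq_bot_iff]
    intro z hz
    have he0 := pos_e he hj
    have h1 := hz.1
    have h2 := hz.2
    rw [st.F_neg X h _ hp, Submodule.mem_bot] at h1
    rw [st.F_neg X h _ (by omega), Submodule.mem_bot] at h2
    rw [Submodule.mem_bot]
    exact OE.ext h1 h2
  inc_mem := fun X p a ha => ⟨st.inc_mem X p a ha, Submodule.zero_mem _⟩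
  ρ_mem := fun X p z hz => st.ρ_mem X p _ hz.1
  ρ_inc := fun a => st.ρ_inc a
  mul_mem := fun X Y Z hX h a b f hf g hg => mul_mem X Y Z hX h a b f hf g hg
  α_ev := α_ev he ho
  α_od := α_od he ho
  α_α := fun z => by
    ext
    · rw [c0_al, c0_al, st.α_α]
    · rw [c1_al, c1_al, map_neg, neg_neg, st.α_α]
  gc_ev := gc_ev he ho
  gc_od := gc_od he ho
  D_sq := D_sq hu ho
  D_mul := D_mul hu ho
  D_α := D_α hu ho
  D_inc := D_inc
  DF := DF hu he
  m1 := m1 hu he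
  m2 := m2 hu he ho hj
  ρD := ρD hu hj
  lin := lin
  low := low he hj
  acyN := acyN hu he ho hj
  acyT := acyT hu he ho

end Pool.Agent.H91.Hil.ExtOd
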