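import Pool.Agent.H91.Hil.Chain
import Pool.Agent.H91.Hil.ExtEv
import Pool.Agent.H91.Hil.ExtOd

/-!
# Hilali: a filtration of `ΛV` with `r` trivial layers has `r > dim V^odd`
-/

namespace Pool.Agent.H91.Hil

universe u v

set_option linter.unusedSectionVars false

variable {K : Type v} {A : Type u} [Field K] [CharZero K] [Ring A] [Algebra K A]

theorem Base.d_one (B : Base K A) : B.d 1 = 0 := by
  have h := B.d_mul 1 1
  rw [mul_one, mul_one, map_one B.α, one_mul] at h
  exact left_eq_add.mp h

theorem Ico_eq {j n : ℕ} (hj : j < n) : Finset.Ico j n = insert j (Finset.Ico (j + 1) n) := by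
  ext i
  simp only [Finset.mem_Ico, Finset.mem_insert]
  omega

theorem Base.odd_of_odd (B : Base K A) {j : ℕ} (hj : j < B.n) (ho : Odd (B.dg j)) :
    B.odd j = B.odd (j + 1) + 1 := by
  unfold Base.odd
  rw [Ico_eq hj, Finset.filter_insert, if_pos ho, Finset.card_insert_of_notMem]
  simp

theorem Base.odd_of_even (B : Base K A) {j : ℕ} (hj : j < B.n) (ho : Even (B.dg j)) :
    B.odd j = B.odd (j + 1) := by
  unfold Base.odd
  rw [Ico_eq hj, Finset.filter_insert, if_neg (Int.not_odd_iff_even.mpr ho)]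

section

variable {B : Base K A} {j : ℕ} {R : Type*} [Ring R] [Algebra K R] (st : Stage B j R)

theorem Stage.one_mem : (1 : R) ∈ st.F B.gr 0 := by
  have h := st.inc_mem B.gr 0 1 B.one_mem
  rwa [map_one] at h

theorem Stage.D_one : st.D 1 = 0 := by
  have h := st.D_inc 1
  rwa [map_one, B.d_one, map_zero] at h

theorem Stage.one_not_bdry (w : R) (hw : w ∈ st.F B.gr (0 - 1)) : st.D w ≠ 1 := by
  intro h
  rw [st.F_gr_neg (by norm_num), Submodule.mem_bot] at hw
  rw [hw, map_zero] at h
  have h1 := congrArg st.ρ h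
  rw [map_one, map_zero] at h1
  exact B.one_ne h1.symm

end

theorem desc (B : Base K A) (r : ℕ) (hr : Chain B r B.gr) (k : ℕ) :
    ∀ (j : ℕ) (R : Type u) [Ring R] [Algebra K R] (st : Stage B j R), j + k = B.n →
      ∃ (M : ℤ) (z : R), Top st.D (st.F B.gr) M z ∧
        ∃ (c : ℕ) (Y : ℤ → Submodule K A), c + B.odd j = r ∧ Chain B c Y ∧
          ∃ f ∈ st.F Y M, ∃ w ∈ st.F B.gr (M - 1), z = f + st.D w := by
  induction k with
  | zero =>
    intro j R _ _ st hj
    refine ⟨0, 1, ⟨st.one_mem, st.D_one, st.one_not_bdry, ?_⟩, r, B.gr, ?_, hr, 1, st.one_mem, 0,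
      Submodule.zero_mem _, ?_⟩
    · intro p hp x hx hDx
      have h1 : st.ρ x ∈ B.I j := by
        have h2 := B.I_top p hp _ (st.ρ_mem _ _ _ hx)
        rw [add_zero] at hj
        rwa [← hj] at h2
      obtain ⟨w, hw, _, h⟩ := st.acyN p x hx h1 hDx
      exact ⟨w, hw, h⟩
    · rw [add_zero] at hj
      unfold Base.odd
      rw [hj]
      simp
    · rw [map_zero, add_zero]
  | succ k ih =>
    intro j R _ _ st hjk
    have hj : j < B.n := by omega
    obtain ⟨u, hu⟩ := st.exists_next hj
    obtain ⟨e, he⟩ : ∃ e, B.dg j = e + 1 := ⟨B.dg j - 1, by ring⟩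
    rcases Int.even_or_odd (B.dg j) with ho | ho
    · -- even generator
      have he0 := ExtOd.pos_e he hj
      obtain ⟨M, z, htop, c, Y, hc, hch, f, hf, w, hw, hz⟩ :=
        ih (j + 1) (OE st.α) (ExtOd.ext st hu he ho hj) (by omega)
      have htop' : Top (oD st.α st.D u) (ow st.α e (st.F B.gr)) M z := htop
      have hf' : f ∈ ow st.α e (st.F Y) M := hf
      have hw' : w ∈ ow st.α e (st.F B.gr) (M - 1) := hw
      have hz' : z = f + oD st.α st.D u w := hz
      refine ⟨M - e, z.c1, ?_, c, Y, ?_, hch, f.c1, hf'.2, -w.c1, ?_, ?_⟩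
      · refine Cx.nonvan u e (by omega) (ExtOd.u_mul_gr hu he) (ExtOd.D_u_mul hu ho) ⟨r, ?_⟩ htop'
        intro p y hy hDy
        have h1 := st.nil hu.mem_gp (ExtOd.D_u_mul hu ho) r B.gr hr p y hy hDy
        rwa [he] at h1
      · rw [B.odd_of_even hj ho]
        exact hc
      · have h1 := hw'.2
        have e1 : M - 1 - e = M - e - 1 := by ring
        rw [e1] at h1
        exact Submodule.neg_mem _ h1
      · have h1 := congrArg OE.c1 hz'
        rw [OE.c1_add, c1_oD] at h1
        rw [h1, map_neg]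
    · -- odd generator
      have he0 := ExtEv.pos_e he ho hj
      obtain ⟨M, z, htop, c, Y, hc, hch, f, hf, w, hw, hz⟩ :=
        ih (j + 1) (PowerSeries R) (ExtEv.ext st hu he ho hj) (by omega)
      have htop' : Top (pD st.D u) (pw e (st.F B.gr)) M z := htop
      have hf' : f ∈ pw e (st.F Y) M := hf
      have hw' : w ∈ pw e (st.F B.gr) (M - 1) := hw
      have hz' : z = f + pD st.D u w := hz
      rcases c with _ | c
      · exfalso
        have hDf : pD st.D u f = 0 := by
          have h1 := htop'.2.1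
          rw [hz', map_add, ExtEv.D_sq hu ho, add_zero] at h1
          exact h1
        obtain ⟨w0, hw0, h2⟩ := (ExtEv.ext st hu he ho hj).bdry hch.1 hch.2 M f hf hDf
        have h3 : pD st.D u w0 = f := h2
        have hw0' : w0 ∈ pw e (st.F B.gr) (M - 1) :=
          fun a => st.F_mono _ _ hch.1.1 _ (hw0 a)
        refine htop'.2.2.1 (w0 + w) (Submodule.add_mem _ hw0' hw') ?_
        rw [map_add, h3, ← hz']
      · obtain ⟨hI, Y', Y₁, hI', hle, hmul, hd, hac, hch1⟩ := hch
        obtain ⟨w1, hw1, h1⟩ :=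
          (ExtEv.ext st hu he ho hj).acyT Y Y' hI hI' hle hac M f hf (by
            have hDf : pD st.D u f = 0 := by
              have h1 := htop'.2.1
              rw [hz', map_add, ExtEv.D_sq hu ho, add_zero] at h1
              exact h1
            have h2 : (ExtEv.ext st hu he ho hj).D f = 0 := hDf
            rw [h2]
            exact Submodule.zero_mem _)
        have hw1' : w1 ∈ pw e (st.F Y) (M - 1) := hw1
        have h1' : f - pD st.D u w1 ∈ pw e (st.F Y') M := h1
        have h2 := h1' 0
        have e1 : M - ((0 : ℕ) : ℤ) * e = M := by push_cast; ring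
        rw [e1] at h2
        have h3 := st.mul_mem B.gp Y' Y₁ B.gp_le hmul _ _ _ hu.mem_gp _ h2
        have e2 : B.dg j + M = M + e + 1 := by rw [he]; ring
        rw [e2] at h3
        refine ⟨M + e + 1, u * PowerSeries.coeff 0 z, ?_, c, Y₁, ?_, hch1, _, h3,
          -(u * PowerSeries.coeff 0 (w + w1)), ?_, ?_⟩
        · exact Cx.top_ev u e he0 (ExtEv.u_mul_gr hu he) (ExtEv.u_sq hu ho)
            (ExtEv.D_u_mul hu ho) htop'
        · rw [B.odd_of_odd hj ho]
          omega
        · have hww : w + w1 ∈ pw e (st.F B.gr) (M - 1) :=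
            Submodule.add_mem _ hw' (fun a => st.F_mono _ _ hI.1 _ (hw1' a))
          have h4 := hww 0
          have e3 : M - 1 - ((0 : ℕ) : ℤ) * e = M - 1 := by push_cast; ring
          rw [e3] at h4
          have h5 := ExtEv.u_mul_gr hu he _ _ h4
          have e4 : M - 1 + e + 1 = M + e + 1 - 1 := by ring
          rw [e4] at h5
          exact Submodule.neg_mem _ h5
        · rw [map_neg, ExtEv.D_u_mul hu ho, neg_neg]
          have h4 : u * PowerSeries.coeff 0 (pD st.D u (w + w1)) =
              u * st.D (PowerSeries.coeff 0 (w + w1)) := by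
            rw [coeff_pD, mul_add, mul_smul_comm, ← mul_assoc, ExtEv.u_sq hu ho, zero_mul,
              smul_zero, add_zero]
          rw [← h4, ← mul_add, ← map_add, hz', map_add (pD st.D u)]
          congr 2
          abel

/-- **Main inequality.** -/
theorem odd_lt (B : Base K A) (r : ℕ) (hr : Chain B r B.gr) : B.odd 0 < r := by
  obtain ⟨M, z, htop, c, Y, hc, hch, f, hf, w, hw, hz⟩ :=
    desc B r hr B.n 0 A (Stage.zero B) (zero_add _)
  rcases c with _ | c
  · exfalso
    have hDf : B.d f = 0 := by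
      have h1 : B.d z = 0 := htop.2.1
      have h2 : z = f + B.d w := hz
      rw [h2, map_add, B.d_sq, add_zero] at h1
      exact h1
    obtain ⟨w0, hw0, h2⟩ := (Stage.zero B).bdry hch.1 hch.2 M f hf hDf
    have hw0' : w0 ∈ B.gr (M - 1) := hch.1.1 _ hw0
    refine htop.2.2.1 (w0 + w) (Submodule.add_mem _ hw0' hw) ?_
    rw [map_add, h2, ← hz]
  · omega

end Pool.Agent.H91.Hil
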