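import Pool.Agent.H91.Hil.LamMon

/-!
# The algebra `ΛV` satisfies the facts of `Base`: conclusion
-/

namespace Pool.Agent.H91.Hil.LamBase

open Pool.Agent.H68.Sullivan

theorem gc_gen (K : Type*) [Field K] (q m : ℕ) : GC (gen K q m) := by
  constructor
  · intro i a
    exact Algebra.commutes (var K q i) a
  · intro j k
    rw [eq_neg_iff_add_eq_zero]
    exact ExteriorAlgebra.ι_add_mul_swap (vec K q m j) (vec K q m k)

theorem comp_eq (K : Type*) [Field K] {q m : ℕ} (deg : Fin q ⊕ Fin m → ℕ) (n l : ℕ) :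
    comp K deg n l = Pool.Agent.H68.Hil.cmp K (gen K q m) deg n l := rfl

theorem mn_of {K : Type*} [Field K] {q m : ℕ} {deg : Fin q ⊕ Fin m → ℕ}
    {d : Lam K q m →ₗ[K] Lam K q m} (hd : HilStatement.IsMin deg d) :
    Mn K (gen K q m) deg d := by
  refine ⟨hd.even_deg, hd.odd_deg, hd.two_le_deg, hd.sq_zero, ?_, ?_⟩
  · intro n l a b ha
    rw [← comp_eq] at ha
    exact hd.leibniz n l a b ha
  · intro v
    have h := hd.map_gen v
    simp only [comp_eq] at h
    exact h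

/-- **The algebra `ΛV` of a minimal Sullivan algebra satisfies `Base`.** -/
theorem exists_base {K : Type*} [Field K] {q m : ℕ} (deg : Fin q ⊕ Fin m → ℕ)
    (d : Lam K q m →ₗ[K] Lam K q m) (hd : HilStatement.IsMin deg d) :
    ∃ B : Base K (Lam K q m), B.d = d ∧ B.V = Submodule.span K (Set.range (gen K q m)) ∧
      B.odd 0 = m := by
  let e : Fin (q + m) ≃ Fin q ⊕ Fin m := finSumFinEquiv.symm
  let σ : Fin (q + m) ≃ Fin q ⊕ Fin m := (Tuple.sort (deg ∘ e)).trans e
  have hσ : ∀ j k : Fin (q + m), j ≤ k → deg (σ j) ≤ deg (σ k) :=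
    fun j k hjk => Tuple.monotone_sort (deg ∘ e) hjk
  exact ⟨mkBase (isMon K q m) (gc_gen K q m) (mn_of hd) σ hσ, rfl, rfl,
    odd_mkBase (isMon K q m) (gc_gen K q m) (mn_of hd) σ hσ⟩

end Pool.Agent.H91.Hil.LamBase
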