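import Pool.Agent.H91.Hil.Chain
import Pool.Agent.H68.Hil.Sullivan

/-!
# Hilali: a chain of ideals of `ΛV` with few layers, and the count
-/

namespace Pool.Agent.H91.Hil

open Pool.Agent.H68.Sullivan (Coh)

variable {K A : Type*} [Field K] [Ring A] [Algebra K A]

theorem exists_compl {Z Y : Submodule K A} (h : Z ≤ Y) :
    ∃ W : Submodule K A, W ≤ Y ∧ Z ⊓ W = ⊥ ∧ Z ⊔ W = Y := by
  obtain ⟨C, hC⟩ := Z.exists_isCompl
  refine ⟨C ⊓ Y, inf_le_right, ?_, ?_⟩
  · rw [eq_bot_iff, ← hC.inf_eq_bot]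
    exact inf_le_inf_left _ inf_le_left
  · rw [← sup_inf_assoc_of_le C h, hC.sup_eq_top, top_inf_eq]

theorem Base.gp_zero {B : Base K A} {a : ℤ} (ha : ¬ 0 < a) {x : A} (hx : x ∈ B.gp a) : x = 0 := by
  unfold Base.gp at hx
  rwa [if_neg ha, Submodule.mem_bot] at hx

theorem gr_zero_of_neg {B : Base K A} {a : ℤ} (ha : a < 0) {x : A} (hx : x ∈ B.gr a) : x = 0 := by
  rwa [B.gr_neg a ha, Submodule.mem_bot] at hx

/-- An ideal whose cohomology vanishes outside a set of `n` degrees has a chain of length `n`. -/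
theorem chain_of_finset (B : Base K A) (n : ℕ) : ∀ (S : Finset ℤ), S.card = n →
    ∀ Y : ℤ → Submodule K A, B.Idl Y → (∀ q, ∀ y ∈ Y q, B.d y ∈ Y (q + 1)) →
      (∀ p ∉ S, ∀ z ∈ Y p, B.d z = 0 → ∃ w ∈ Y (p - 1), B.d w = z) → Chain B n Y := by
  induction n with
  | zero =>
    intro S hS Y hY hd h
    rw [Finset.card_eq_zero] at hS
    refine ⟨hY, ?_⟩
    intro p z hz hDz
    rw [Submodule.mem_bot] at hDz
    obtain ⟨w, hw, h1⟩ := h p (by rw [hS]; exact Finset.notMem_empty p) z hz hDz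
    exact ⟨w, hw, by rw [h1, sub_self]; exact Submodule.zero_mem _⟩
  | succ n ih =>
    intro S hS Y hY hd h
    have hne : S.Nonempty := by
      rw [← Finset.card_pos, hS]
      exact Nat.succ_pos n
    set p₀ := S.min' hne with hp₀
    have hmem : p₀ ∈ S := S.min'_mem hne
    have hlt : ∀ q < p₀, q ∉ S := fun q hq hqS => by
      have := S.min'_le q hqS
      omega
    obtain ⟨W, hWY, hZW, hZWs⟩ :=
      exists_compl (Z := Y p₀ ⊓ LinearMap.ker B.d) (Y := Y p₀) inf_le_left
    have hBd : (Y (p₀ - 1)).map B.d ≤ Y p₀ ⊓ LinearMap.ker B.d := by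
      rintro _ ⟨y, hy, rfl⟩
      refine ⟨?_, B.d_sq y⟩
      have h1 := hd _ y hy
      rwa [sub_add_cancel] at h1
    obtain ⟨H, hHZ, hBH, hBHs⟩ := exists_compl hBd
    set Y₁ : ℤ → Submodule K A := fun q => if q < p₀ then ⊥ else if q = p₀ then W else Y q
      with hY₁
    set Y' : ℤ → Submodule K A := fun q => if q < p₀ then ⊥ else if q = p₀ then H ⊔ W else Y q
      with hY'
    have hY₁lt : ∀ q < p₀, Y₁ q = ⊥ := fun q hq => if_pos hq
    have hY₁eq : Y₁ p₀ = W := by rw [hY₁]; simp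
    have hY₁gt : ∀ q, p₀ < q → Y₁ q = Y q := fun q hq => by
      rw [hY₁]
      simp only
      rw [if_neg (by omega), if_neg (by omega)]
    have hY'lt : ∀ q < p₀, Y' q = ⊥ := fun q hq => if_pos hq
    have hY'eq : Y' p₀ = H ⊔ W := by rw [hY']; simp
    have hY'gt : ∀ q, p₀ < q → Y' q = Y q := fun q hq => by
      rw [hY']
      simp only
      rw [if_neg (by omega), if_neg (by omega)]
    have hY'le : ∀ q, Y' q ≤ Y q := by
      intro q
      rcases lt_trichotomy q p₀ with hq | hq | hq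
      · rw [hY'lt q hq]; exact bot_le
      · rw [hq, hY'eq]; exact sup_le (hHZ.trans inf_le_left) hWY
      · rw [hY'gt q hq]
    have hY₁le : ∀ q, Y₁ q ≤ Y q := by
      intro q
      rcases lt_trichotomy q p₀ with hq | hq | hq
      · rw [hY₁lt q hq]; exact bot_le
      · rw [hq, hY₁eq]; exact hWY
      · rw [hY₁gt q hq]
    -- products and differentials land above `p₀`
    have hmul : ∀ a q, ∀ x ∈ B.gp a, ∀ y ∈ Y' q, x * y ∈ Y₁ (a + q) := by
      intro a q x hx y hy
      by_cases ha : 0 < a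
      · by_cases hq : q < p₀
        · rw [hY'lt q hq, Submodule.mem_bot] at hy
          rw [hy, mul_zero]
          exact Submodule.zero_mem _
        · rw [hY₁gt _ (by omega)]
          exact hY.2 a q x hx y (hY'le q hy)
      · rw [B.gp_zero ha hx, zero_mul]
        exact Submodule.zero_mem _
    have hY₁Y' : ∀ q, Y₁ q ≤ Y' q := by
      intro q
      rcases lt_trichotomy q p₀ with hq | hq | hq
      · rw [hY₁lt q hq]; exact bot_le
      · rw [hq, hY₁eq, hY'eq]; exact le_sup_right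
      · rw [hY₁gt q hq, hY'gt q hq]
    have hdd : ∀ q, ∀ y ∈ Y' q, B.d y ∈ Y₁ (q + 1) := by
      intro q y hy
      by_cases hq : q < p₀
      · rw [hY'lt q hq, Submodule.mem_bot] at hy
        rw [hy, map_zero]
        exact Submodule.zero_mem _
      · rw [hY₁gt _ (by omega)]
        exact hd q y (hY'le q hy)
    refine ⟨hY, Y', Y₁, ⟨fun q => (hY'le q).trans (hY.1 q),
      fun a q x hx y hy => hY₁Y' _ (hmul a q x hx y hy)⟩, hY'le, hmul, hdd, ?_, ?_⟩
    · intro q z hz hDz
      rcases lt_trichotomy q p₀ with hq | hq | hq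
      · have h0 : B.d z = 0 := by
          by_cases hq1 : q + 1 < p₀
          · rwa [hY'lt _ hq1, Submodule.mem_bot] at hDz
          · have hq2 : q + 1 = p₀ := by omega
            rw [hq2, hY'eq] at hDz
            obtain ⟨a, ha, b, hb, hab⟩ := Submodule.mem_sup.mp hDz
            have ha0 : B.d a = 0 := (hHZ ha).2
            have hb0 : B.d b = 0 := by
              have h1 := B.d_sq z
              rw [← hab, map_add, ha0, zero_add] at h1
              exact h1
            have hb1 : b = 0 := by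
              have h2 : b ∈ Y p₀ ⊓ LinearMap.ker B.d ⊓ W := ⟨⟨hWY hb, hb0⟩, hb⟩
              rwa [hZW, Submodule.mem_bot] at h2
            rw [hb1, add_zero] at hab
            have h3 : B.d z ∈ (Y (p₀ - 1)).map B.d ⊓ H := by
              refine ⟨⟨z, ?_, rfl⟩, ?_⟩
              · have e1 : p₀ - 1 = q := by omega
                rw [e1]
                exact hz
              · rw [← hab]; exact ha
            rwa [hBH, Submodule.mem_bot] at h3
        obtain ⟨w, hw, h1⟩ := h q (hlt q hq) z hz h0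
        exact ⟨w, hw, by rw [h1, sub_self]; exact Submodule.zero_mem _⟩
      · rw [hq] at hz ⊢
        rw [← hZWs] at hz
        obtain ⟨a, ha, b, hb, hab⟩ := Submodule.mem_sup.mp hz
        rw [← hBHs] at ha
        obtain ⟨c, hc, c', hc', hcc⟩ := Submodule.mem_sup.mp ha
        obtain ⟨w, hw, rfl⟩ := hc
        refine ⟨w, hw, ?_⟩
        rw [hY'eq, ← hab, ← hcc]
        have e1 : B.d w + c' + b - B.d w = c' + b := by abel
        rw [e1]
        exact Submodule.add_mem_sup hc' hb
      · refine ⟨0, Submodule.zero_mem _, ?_⟩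
        rw [hY'gt q hq, map_zero, sub_zero]
        exact hz
    · refine ih (S.erase p₀) (by rw [Finset.card_erase_of_mem hmem, hS]; rfl) Y₁
        ⟨fun q => (hY₁le q).trans (hY.1 q),
          fun a q x hx y hy => hmul a q x hx y (hY₁Y' q hy)⟩
        (fun q y hy => hdd q y (hY₁Y' q hy)) ?_
      intro p hp z hz hDz
      rcases lt_trichotomy p p₀ with hq | hq | hq
      · rw [hY₁lt p hq, Submodule.mem_bot] at hz
        exact ⟨0, Submodule.zero_mem _, by rw [map_zero, hz]⟩
      · rw [hq, hY₁eq] at hz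
        have h2 : z ∈ Y p₀ ⊓ LinearMap.ker B.d ⊓ W := ⟨⟨hWY hz, hDz⟩, hz⟩
        rw [hZW, Submodule.mem_bot] at h2
        exact ⟨0, Submodule.zero_mem _, by rw [map_zero, h2]⟩
      · rw [hY₁gt p hq] at hz
        have hpS : p ∉ S := fun hpS => hp (Finset.mem_erase.mpr ⟨by omega, hpS⟩)
        obtain ⟨w, hw, h1⟩ := h p hpS z hz hDz
        by_cases hp1 : p₀ < p - 1
        · exact ⟨w, by rw [hY₁gt _ hp1]; exact hw, h1⟩
        · have e1 : p - 1 = p₀ := by omega
          rw [e1] at hw ⊢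
          rw [← hZWs] at hw
          obtain ⟨a, ha, b, hb, hab⟩ := Submodule.mem_sup.mp hw
          refine ⟨b, by rw [hY₁eq]; exact hb, ?_⟩
          rw [← h1, ← hab, map_add]
          have ha0 : B.d a = 0 := ha.2
          rw [ha0, zero_add]

/-- a complement of the closed elements of `V` in degree `p` -/
theorem exists_C (B : Base K A) : ∃ C : ℤ → Submodule K A, ∀ p, C p ≤ B.V ⊓ B.gr p ∧
    (B.V ⊓ B.gr p ⊓ LinearMap.ker B.d) ⊓ C p = ⊥ ∧
    (B.V ⊓ B.gr p ⊓ LinearMap.ker B.d) ⊔ C p = B.V ⊓ B.gr p := by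
  have h := fun p : ℤ => exists_compl (K := K) (A := A)
    (Z := B.V ⊓ B.gr p ⊓ LinearMap.ker B.d) (Y := B.V ⊓ B.gr p) inf_le_left
  choose C hC using h
  exact ⟨C, hC⟩

/-- the ideal `C + Λ^{≥2} V` -/
def EE (B : Base K A) (C : ℤ → Submodule K A) (p : ℤ) : Submodule K A :=
  if 0 < p then C p ⊔ B.G2 p else ⊥

section

variable {B : Base K A} {C : ℤ → Submodule K A} (hC : ∀ p, C p ≤ B.V ⊓ B.gr p)

theorem EE_pos {p : ℤ} (hp : 0 < p) : EE B C p = C p ⊔ B.G2 p := if_pos hp

theorem EE_neg {p : ℤ} (hp : ¬ 0 < p) : EE B C p = ⊥ := if_neg hp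

include hC in
theorem EE_le (p : ℤ) : EE B C p ≤ B.gr p := by
  by_cases hp : 0 < p
  · rw [EE_pos hp]
    exact sup_le ((hC p).trans inf_le_right) inf_le_right
  · rw [EE_neg hp]
    exact bot_le

include hC in
theorem EE_idl : B.Idl (EE B C) := by
  refine ⟨EE_le hC, ?_⟩
  intro a q x hx y hy
  by_cases ha : 0 < a
  · by_cases hq : 0 < q
    · rw [EE_pos (by omega)]
      refine Submodule.mem_sup_right ⟨?_, ?_⟩
      · exact B.A2_mul a q ha hq x (B.gp_le _ hx) y (EE_le hC _ hy)
      · exact B.mul_mem a q x (B.gp_le _ hx) y (EE_le hC _ hy)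
    · rw [EE_neg hq, Submodule.mem_bot] at hy
      rw [hy, mul_zero]
      exact Submodule.zero_mem _
  · rw [B.gp_zero ha hx, zero_mul]
    exact Submodule.zero_mem _

theorem d_mem_EE {q : ℤ} (hq : 0 < q) {y : A} (hy : y ∈ B.gr q) : B.d y ∈ EE B C (q + 1) := by
  rw [EE_pos (by omega)]
  exact Submodule.mem_sup_right ⟨B.d_A2 y, B.d_mem q y hy⟩

include hC in
theorem EE_d (q : ℤ) (y : A) (hy : y ∈ EE B C q) : B.d y ∈ EE B C (q + 1) := by
  by_cases hq : 0 < q
  · exact d_mem_EE hq (EE_le hC q hy)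
  · rw [EE_neg hq, Submodule.mem_bot] at hy
    rw [hy, map_zero]
    exact Submodule.zero_mem _

/-- The chain `A > A^+ > E > ..`. -/
theorem chain_gr (r : ℕ) (h : Chain B r (EE B C)) : Chain B (r + 2) B.gr := by
  refine ⟨B.gr_idl, B.gr, B.gp, B.gr_idl, fun q => le_refl _, ?_, ?_, ?_, B.gp_idl, B.gp, EE B C,
    B.gp_idl, fun q => le_refl _, ?_, ?_, ?_, h⟩
  · intro a q x hx y hy
    by_cases hq : q < 0
    · rw [gr_zero_of_neg hq hy, mul_zero]
      exact Submodule.zero_mem _
    · by_cases ha : 0 < a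
      · exact B.gp_mem (by omega) (B.mul_mem a q x (B.gp_le _ hx) y hy)
      · rw [B.gp_zero ha hx, zero_mul]
        exact Submodule.zero_mem _
  · intro q y hy
    by_cases hq : q < 0
    · rw [gr_zero_of_neg hq hy, map_zero]
      exact Submodule.zero_mem _
    · exact B.gp_mem (by omega) (B.d_mem q y hy)
  · intro p z hz _
    exact ⟨0, Submodule.zero_mem _, by rw [map_zero, sub_zero]; exact hz⟩
  · intro a q x hx y hy
    by_cases ha : 0 < a
    · by_cases hq : 0 < q
      · rw [EE_pos (by omega)]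
        refine Submodule.mem_sup_right ⟨?_, ?_⟩
        · exact B.A2_mul a q ha hq x (B.gp_le _ hx) y (B.gp_le _ hy)
        · exact B.mul_mem a q x (B.gp_le _ hx) y (B.gp_le _ hy)
      · rw [B.gp_zero hq hy, mul_zero]
        exact Submodule.zero_mem _
    · rw [B.gp_zero ha hx, zero_mul]
      exact Submodule.zero_mem _
  · intro q y hy
    by_cases hq : 0 < q
    · exact d_mem_EE hq (B.gp_le _ hy)
    · rw [B.gp_zero hq hy, map_zero]
      exact Submodule.zero_mem _
  · intro p z hz _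
    exact ⟨0, Submodule.zero_mem _, by rw [map_zero, sub_zero]; exact hz⟩

end

end Pool.Agent.H91.Hil
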