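import Pool.Agent.H91.Hil.Defs

/-!
# Hilali: the facts about the minimal Sullivan algebra `A = ΛV` that are used

`v 0, .., v (n-1)` are the generators, ordered by degree; `I i` is the ideal generated by
`v 0, .., v (i-1)`; `A2` is the ideal of the elements of word length at least two; `V` is the
span of the generators; `gr p` is the part of degree `p` and `π p` the projection to it.
-/

namespace Pool.Agent.H91.Hil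

/-- A minimal Sullivan algebra. -/
structure Base (K A : Type*) [Field K] [Ring A] [Algebra K A] where
  n : ℕ
  v : ℕ → A
  dg : ℕ → ℤ
  gr : ℤ → Submodule K A
  π : ℤ → A →ₗ[K] A
  α : A →ₐ[K] A
  d : A →ₗ[K] A
  I : ℕ → Submodule K A
  V : Submodule K A
  A2 : Submodule K A
  π_mem : ∀ p a, π p a ∈ gr p
  π_self : ∀ p, ∀ a ∈ gr p, π p a = a
  π_ne : ∀ p q, p ≠ q → ∀ a ∈ gr p, π q a = 0
  π_ext : ∀ a, (∀ p, π p a = 0) → a = 0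
  gr_neg : ∀ p < 0, gr p = ⊥
  one_mem : (1 : A) ∈ gr 0
  one_ne : (1 : A) ≠ 0
  gr_zero : ∀ a ∈ gr 0, ∃ c : K, a = algebraMap K A c
  mul_mem : ∀ p q, ∀ a ∈ gr p, ∀ b ∈ gr q, a * b ∈ gr (p + q)
  α_ev : ∀ p, Even p → ∀ a ∈ gr p, α a = a
  α_od : ∀ p, Odd p → ∀ a ∈ gr p, α a = -a
  α_α : ∀ a, α (α a) = a
  gc_ev : ∀ p, Even p → ∀ a ∈ gr p, ∀ b, a * b = b * a
  gc_od : ∀ p, Odd p → ∀ a ∈ gr p, ∀ b, a * b = α b * a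
  d_mem : ∀ p, ∀ a ∈ gr p, d a ∈ gr (p + 1)
  π_d : ∀ p a, π (p + 1) (d a) = d (π p a)
  d_sq : ∀ a, d (d a) = 0
  d_mul : ∀ a b, d (a * b) = d a * b + α a * d b
  d_α : ∀ a, d (α a) = -α (d a)
  d_A2 : ∀ a, d a ∈ A2
  two_le : ∀ i < n, 2 ≤ dg i
  v_mem : ∀ i < n, v i ∈ gr (dg i)
  I_zero : I 0 = ⊥
  I_mono : ∀ i x, x ∈ I i → x ∈ I (i + 1)
  v_mem_I : ∀ i < n, v i ∈ I (i + 1)
  I_left : ∀ i a x, x ∈ I i → a * x ∈ I i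
  I_right : ∀ i a x, x ∈ I i → x * a ∈ I i
  dv_mem : ∀ i < n, d (v i) ∈ I i
  I_d : ∀ i ≤ n, ∀ x ∈ I i, d x ∈ I i
  I_dec : ∀ i < n, ∀ p, ∀ x ∈ gr p, x ∈ I (i + 1) → ∃ c ∈ gr (p - dg i), x - v i * c ∈ I i
  reg_ev : ∀ i < n, Even (dg i) → ∀ p, ∀ a ∈ gr p, v i * a ∈ I i → a ∈ I i
  reg_od : ∀ i < n, Odd (dg i) → ∀ p, ∀ a ∈ gr p, v i * a ∈ I i →
    ∃ c ∈ gr (p - dg i), a - v i * c ∈ I i
  I_top : ∀ p, 0 < p → ∀ a ∈ gr p, a ∈ I n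
  low : ∀ i < n, ∀ p, 0 < p → p < dg i → ∀ a ∈ gr p, a ∈ I i
  A2_left : ∀ a x, x ∈ A2 → a * x ∈ A2
  A2_right : ∀ a x, x ∈ A2 → x * a ∈ A2
  A2_mul : ∀ p q, 0 < p → 0 < q → ∀ a ∈ gr p, ∀ b ∈ gr q, a * b ∈ A2
  lin : ∀ i < n, ∀ p ≤ 0, ∀ a ∈ gr p, a * v i ∈ I i ⊔ A2 → a = 0
  dec : ∀ p, 0 < p → ∀ a ∈ gr p, ∃ x ∈ V, ∃ y ∈ A2, x ∈ gr p ∧ y ∈ gr p ∧ x + y = a
  V_A2 : ∀ x ∈ V, x ∈ A2 → x = 0
  π_V : ∀ p, ∀ x ∈ V, π p x ∈ V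
  π_A2 : ∀ p, ∀ x ∈ A2, π p x ∈ A2
  V_pos : ∀ p ≤ 0, ∀ x ∈ V, x ∈ gr p → x = 0

variable {K A : Type*} [Field K] [Ring A] [Algebra K A]

/-- the augmentation ideal -/
def Base.gp (B : Base K A) (p : ℤ) : Submodule K A := if 0 < p then B.gr p else ⊥

/-- `I j + A2` -/
def Base.Q (B : Base K A) (j : ℕ) (p : ℤ) : Submodule K A := (B.I j ⊔ B.A2) ⊓ B.gr p

/-- the decomposables in degree `p` -/
def Base.G2 (B : Base K A) (p : ℤ) : Submodule K A := B.A2 ⊓ B.gr p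

/-- the number of odd generators among `v j, .., v (n-1)` -/
def Base.odd (B : Base K A) (j : ℕ) : ℕ := ((Finset.Ico j B.n).filter fun i => Odd (B.dg i)).card

end Pool.Agent.H91.Hil
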