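import Pool.Agent.H91.Hil.Stage

/-!
# Hilali: chains of ideals with trivial layers
-/

namespace Pool.Agent.H91.Hil

variable {K A : Type*} [Field K] [Ring A] [Algebra K A]

/-- `Chain B r Y`: the ideal `Y` has a filtration with `r` layers which are, up to acyclic
quotients, trivial modules, and ends with an acyclic ideal. -/
def Chain (B : Base K A) : ℕ → (ℤ → Submodule K A) → Prop
  | 0, Y => B.Idl Y ∧ Acy B.d Y (fun _ => ⊥)
  | r + 1, Y => B.Idl Y ∧ ∃ Y' Y₁ : ℤ → Submodule K A, B.Idl Y' ∧ (∀ q, Y' q ≤ Y q) ∧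
      (∀ a q, ∀ x ∈ B.gp a, ∀ y ∈ Y' q, x * y ∈ Y₁ (a + q)) ∧
      (∀ q, ∀ y ∈ Y' q, B.d y ∈ Y₁ (q + 1)) ∧ Acy B.d Y Y' ∧ Chain B r Y₁

theorem Chain.idl {B : Base K A} {r : ℕ} {Y : ℤ → Submodule K A} (h : Chain B r Y) : B.Idl Y := by
  cases r with
  | zero => exact h.1
  | succ r => exact h.1

section

variable {B : Base K A} {j : ℕ} {R : Type*} [Ring R] [Algebra K R] (st : Stage B j R)

theorem bot_idl (B : Base K A) : B.Idl (fun _ => ⊥) := by
  refine ⟨fun _ => bot_le, ?_⟩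
  intro a q x _ y hy
  rw [Submodule.mem_bot] at hy ⊢
  rw [hy, mul_zero]

/-- Cocycles of an acyclic ideal are boundaries. -/
theorem Stage.bdry {Y : ℤ → Submodule K A} (hY : B.Idl Y) (h : Acy B.d Y (fun _ => ⊥)) (p : ℤ)
    (z : R) (hz : z ∈ st.F Y p) (hD : st.D z = 0) : ∃ w ∈ st.F Y (p - 1), st.D w = z := by
  have h1 := st.acyT Y (fun _ => ⊥) hY (bot_idl B) (fun _ => bot_le) h p z hz
    (by rw [hD]; exact Submodule.zero_mem _)
  obtain ⟨w, hw, h2⟩ := h1
  rw [st.F_bot, Submodule.mem_bot] at h2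
  exact ⟨w, hw, (sub_eq_zero.mp h2).symm⟩

/-- A cocycle `x` in the augmentation ideal acts nilpotently on the cohomology. -/
theorem Stage.nil {x : R} {L : ℤ} (hx : x ∈ st.F B.gp L) (hDx : ∀ y, st.D (x * y) = x * st.D y)
    (r : ℕ) : ∀ Y : ℤ → Submodule K A, Chain B r Y → ∀ p, ∀ y ∈ st.F Y p, st.D y = 0 →
      ∃ w ∈ st.F B.gr (p + r * L - 1), st.D w = x ^ r * y := by
  induction r with
  | zero =>
    intro Y hY p y hy hDy
    obtain ⟨w, hw, h⟩ := st.bdry hY.1 hY.2 p y hy hDy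
    refine ⟨w, ?_, ?_⟩
    · have e1 : p + ((0 : ℕ) : ℤ) * L - 1 = p - 1 := by push_cast; ring
      rw [e1]
      exact st.F_mono _ _ hY.1.1 _ hw
    · rw [h, pow_zero, one_mul]
  | succ r ih =>
    intro Y hY p y hy hDy
    obtain ⟨hI, Y', Y₁, hI', hle, hmul, hd, hac, hch⟩ := hY
    obtain ⟨w, hw, h1⟩ := st.acyT Y Y' hI hI' hle hac p y hy
      (by rw [hDy]; exact Submodule.zero_mem _)
    have h2 : x * (y - st.D w) ∈ st.F Y₁ (L + p) :=
      st.mul_mem B.gp Y' Y₁ B.gp_le hmul _ _ _ hx _ h1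
    have h3 : st.D (x * (y - st.D w)) = 0 := by
      rw [hDx, map_sub, hDy, st.D_sq, sub_zero, mul_zero]
    obtain ⟨w', hw', h4⟩ := ih Y₁ hch (L + p) _ h2 h3
    have hxr : ∀ (i : ℕ) (f : R), st.D (x ^ i * f) = x ^ i * st.D f := by
      intro i
      induction i with
      | zero => intro f; rw [pow_zero, one_mul, one_mul]
      | succ i ih => intro f; rw [pow_succ', mul_assoc, hDx, ih, mul_assoc]
    have hpow : ∀ (i : ℕ) (q : ℤ) (f : R), f ∈ st.F B.gr q → x ^ i * f ∈ st.F B.gr (i * L + q) := by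
      intro i
      induction i with
      | zero =>
        intro q f hf
        have e1 : ((0 : ℕ) : ℤ) * L + q = q := by push_cast; ring
        rw [e1, pow_zero, one_mul]
        exact hf
      | succ i ih =>
        intro q f hf
        rw [pow_succ', mul_assoc]
        have h5 := st.mul_mem B.gp B.gr B.gr B.gp_le B.gr_idl.2 _ _ _ hx _ (ih q f hf)
        have e1 : L + ((i : ℤ) * L + q) = ((i + 1 : ℕ) : ℤ) * L + q := by push_cast; ring
        rwa [e1] at h5
    refine ⟨w' + x ^ (r + 1) * w, Submodule.add_mem _ ?_ ?_, ?_⟩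
    · have e1 : p + ((r + 1 : ℕ) : ℤ) * L - 1 = L + p + (r : ℤ) * L - 1 := by push_cast; ring
      rw [e1]
      exact hw'
    · have h5 := hpow (r + 1) _ w (st.F_mono _ _ hI.1 _ hw)
      have e1 : ((r + 1 : ℕ) : ℤ) * L + (p - 1) = p + ((r + 1 : ℕ) : ℤ) * L - 1 := by ring
      rwa [e1] at h5
    · rw [map_add, h4, hxr, pow_succ, mul_assoc, mul_assoc, ← mul_add, ← mul_add, sub_add_cancel]

end

end Pool.Agent.H91.Hil
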