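import Pool.Agent.H91.Hil.ChainE
import Pool.Agent.H91.Hil.Desc

/-!
# Hilali: the count
-/

namespace Pool.Agent.H91.Hil

open Pool.Agent.H68.Sullivan (Coh)

universe u v

set_option linter.unusedSectionVars false

variable {K : Type v} {A : Type u} [Field K] [CharZero K] [Ring A] [Algebra K A]

/-- the degrees in which the ideal `E` has cohomology -/
def Bad (B : Base K A) (C : ℤ → Submodule K A) (p : ℤ) : Prop :=
  ∃ c ∈ EE B C p, B.d c = 0 ∧ ∀ w ∈ EE B C (p - 1), B.d w ≠ c

theorem Bad.pos {B : Base K A} {C : ℤ → Submodule K A} {p : ℤ} (h : Bad B C p) : 0 < p := by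
  by_contra hp
  obtain ⟨c, hc, _, h1⟩ := h
  rw [EE_neg hp, Submodule.mem_bot] at hc
  exact h1 0 (Submodule.zero_mem _) (by rw [map_zero, hc])

/-- The linear map whose injectivity modulo boundaries is the count. -/
noncomputable def lc (B : Base K A) (T : Finset ℤ) (c : T → A) :
    (K × (LinearMap.ker B.d ⊓ B.V : Submodule K A) × (T → K)) →ₗ[K] A :=
  (LinearMap.toSpanSingleton K A 1).coprod
    ((Submodule.subtype _).coprod (Fintype.linearCombination K c))

theorem lc_apply (B : Base K A) (T : Finset ℤ) (c : T → A)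
    (x : K × (LinearMap.ker B.d ⊓ B.V : Submodule K A) × (T → K)) :
    lc B T c x = x.1 • (1 : A) + ((x.2.1 : A) + ∑ t, x.2.2 t • c t) := by
  simp [lc, Fintype.linearCombination_apply]

section

variable {B : Base K A} {C : ℤ → Submodule K A}
  (hC : ∀ p, C p ≤ B.V ⊓ B.gr p ∧ (B.V ⊓ B.gr p ⊓ LinearMap.ker B.d) ⊓ C p = ⊥ ∧
    (B.V ⊓ B.gr p ⊓ LinearMap.ker B.d) ⊔ C p = B.V ⊓ B.gr p)
  (T : Finset ℤ) (c : T → A) (hc : ∀ t : T, c t ∈ EE B C t ∧ B.d (c t) = 0 ∧
    ∀ w ∈ EE B C ((t : ℤ) - 1), B.d w ≠ c t) (hT : ∀ t : T, 0 < (t : ℤ))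

include hC hc in
theorem π_c (t : T) (q : ℤ) : B.π q (c t) = if (t : ℤ) = q then c t else 0 := by
  have h1 := EE_le (fun p => (hC p).1) _ (hc t).1
  split_ifs with h
  · rw [← h]
    exact B.π_self _ _ h1
  · exact B.π_ne _ _ h _ h1

include hC hc in
theorem π_sum (ν : T → K) (t : T) : B.π (t : ℤ) (∑ s, ν s • c s) = ν t • c t := by
  rw [map_sum, Finset.sum_eq_single t]
  · rw [map_smul, π_c hC T c hc, if_pos rfl]
  · intro s _ hs
    rw [map_smul, π_c hC T c hc, if_neg (fun h => hs (Subtype.ext h)), smul_zero]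
  · intro h
    exact absurd (Finset.mem_univ t) h

include hC hc in
theorem π_sum' (ν : T → K) (q : ℤ) (hq : q ∉ T) : B.π q (∑ s, ν s • c s) = 0 := by
  rw [map_sum]
  refine Finset.sum_eq_zero fun s _ => ?_
  have hs : ¬ (s : ℤ) = q := fun h => hq (by rw [← h]; exact s.2)
  rw [map_smul, π_c hC T c hc, if_neg hs, smul_zero]

include hC hc hT in
theorem lc_inj (x : K × (LinearMap.ker B.d ⊓ B.V : Submodule K A) × (T → K)) (a : A)
    (h : lc B T c x = B.d a) : x = 0 := by
  rw [lc_apply] at h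
  obtain ⟨lam, ⟨z, hzd, hzV⟩, ν⟩ := x
  simp only at h
  -- degree zero
  have hlam : lam = 0 := by
    have h1 := congrArg (B.π 0) h
    have h2 : B.π 0 (B.d a) = 0 := by
      have h3 := B.π_d (-1) a
      rw [neg_add_cancel] at h3
      rw [h3, gr_zero_of_neg (by norm_num) (B.π_mem (-1) a), map_zero]
    have h3 : B.π 0 z = 0 := B.V_pos 0 (le_refl _) _ (B.π_V 0 z hzV) (B.π_mem 0 z)
    have h4 : B.π 0 (∑ s, ν s • c s) = 0 :=
      π_sum' hC T c hc ν 0 (fun h0 => absurd (hT ⟨0, h0⟩) (lt_irrefl _))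
    rw [map_add, map_add, map_smul, B.π_self 0 1 B.one_mem, h2, h3, h4, add_zero, add_zero] at h1
    exact (smul_eq_zero.mp h1).resolve_right B.one_ne
  rw [hlam, zero_smul, zero_add] at h
  -- the linear part
  have hz : z = 0 := by
    apply B.π_ext
    intro q
    have h1 := congrArg (B.π q) h
    rw [map_add] at h1
    have h2 : B.π q (B.d a) ∈ B.A2 := B.π_A2 q _ (B.d_A2 a)
    have h3 : B.π q z ∈ B.V := B.π_V q z hzV
    have h4 : B.d (B.π q z) = 0 := by
      rw [← B.π_d, hzd, map_zero]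
    have h5 : B.π q z ∈ B.V ⊓ B.gr q ⊓ LinearMap.ker B.d := ⟨⟨h3, B.π_mem q z⟩, h4⟩
    by_cases hq : q ∈ T
    · have h6 := π_sum hC T c hc ν ⟨q, hq⟩
      simp only at h6
      rw [h6] at h1
      have h7 := (hc ⟨q, hq⟩).1
      rw [EE_pos (hT ⟨q, hq⟩)] at h7
      obtain ⟨c1, hc1, c2, hc2, h8⟩ := Submodule.mem_sup.mp h7
      have h9 : B.π q z + ν ⟨q, hq⟩ • c1 ∈ B.A2 := by
        have e1 : B.π q z + ν ⟨q, hq⟩ • c1 = B.π q (B.d a) - ν ⟨q, hq⟩ • c2 := by
          rw [← h1, ← h8, smul_add]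
          abel
        rw [e1]
        exact Submodule.sub_mem _ h2 (Submodule.smul_mem _ _ hc2.1)
      have h10 : B.π q z + ν ⟨q, hq⟩ • c1 ∈ B.V :=
        Submodule.add_mem _ h3 (Submodule.smul_mem _ _ ((hC q).1 hc1).1)
      have h11 := B.V_A2 _ h10 h9
      have h12 : B.π q z ∈ C q := by
        rw [eq_neg_of_add_eq_zero_left h11]
        exact Submodule.neg_mem _ (Submodule.smul_mem _ _ hc1)
      have h13 : B.π q z ∈ (B.V ⊓ B.gr q ⊓ LinearMap.ker B.d) ⊓ C q := ⟨h5, h12⟩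
      rwa [(hC q).2.1, Submodule.mem_bot] at h13
    · rw [π_sum' hC T c hc ν q hq, add_zero] at h1
      exact B.V_A2 _ h3 (by rw [h1]; exact h2)
  have hν : ν = 0 := by
    funext t
    rw [hz, zero_add] at h
    have h1 := congrArg (B.π (t : ℤ)) h
    rw [π_sum hC T c hc] at h1
    by_contra hne
    rw [Pi.zero_apply] at hne
    have h2 : B.π (t : ℤ) (B.d a) = B.d (B.π ((t : ℤ) - 1) a) := by
      have h3 := B.π_d ((t : ℤ) - 1) a
      rwa [sub_add_cancel] at h3
    have h3 : c t = B.d ((ν t)⁻¹ • B.π ((t : ℤ) - 1) a) := by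
      rw [map_smul, ← h2, ← h1, smul_smul, inv_mul_cancel₀ hne, one_smul]
    set a' := (ν t)⁻¹ • B.π ((t : ℤ) - 1) a with ha'
    have ha'm : a' ∈ B.gr ((t : ℤ) - 1) := Submodule.smul_mem _ _ (B.π_mem _ _)
    by_cases hp : 0 < (t : ℤ) - 1
    · obtain ⟨x, hx, y, hy, hxg, hyg, hxy⟩ := B.dec _ hp a' ha'm
      have h4 : x ∈ B.V ⊓ B.gr ((t : ℤ) - 1) := ⟨hx, hxg⟩
      rw [← (hC _).2.2] at h4
      obtain ⟨x1, hx1, x2, hx2, hxx⟩ := Submodule.mem_sup.mp h4
      refine (hc t).2.2 (x2 + y) ?_ ?_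
      · rw [EE_pos hp]
        exact Submodule.add_mem_sup hx2 ⟨hy, hyg⟩
      · have h5 : B.d x1 = 0 := hx1.2
        rw [h3, ← hxy, ← hxx, map_add, map_add, map_add, h5, zero_add]
    · refine (hc t).2.2 0 (Submodule.zero_mem _) ?_
      rw [map_zero, h3]
      by_cases hp1 : (t : ℤ) - 1 < 0
      · rw [gr_zero_of_neg hp1 ha'm, map_zero]
      · have hp2 : (t : ℤ) - 1 = 0 := by omega
        rw [hp2] at ha'm
        obtain ⟨k, hk⟩ := B.gr_zero a' ha'm
        rw [hk, Algebra.algebraMap_eq_smul_one, map_smul, B.d_one, smul_zero]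
  rw [hlam, hν]
  refine Prod.ext rfl (Prod.ext ?_ rfl)
  exact Subtype.ext hz

include hC hc hT in
theorem card_le (hfin : FiniteDimensional K (Coh B.d)) :
    T.card + 1 + Module.finrank K (LinearMap.ker B.d ⊓ B.V : Submodule K A) ≤
      Module.finrank K (Coh B.d) := by
  have hker : ∀ x, lc B T c x ∈ LinearMap.ker B.d := by
    intro x
    rw [lc_apply, LinearMap.mem_ker, map_add, map_add, map_smul, B.d_one, smul_zero, zero_add,
      map_sum]
    have h1 : B.d (x.2.1 : A) = 0 := x.2.1.2.1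
    rw [h1, zero_add]
    exact Finset.sum_eq_zero fun t _ => by rw [map_smul, (hc t).2.1, smul_zero]
  let L1 : (K × (LinearMap.ker B.d ⊓ B.V : Submodule K A) × (T → K)) →ₗ[K]
      LinearMap.ker B.d := (lc B T c).codRestrict _ hker
  let L : (K × (LinearMap.ker B.d ⊓ B.V : Submodule K A) × (T → K)) →ₗ[K] Coh B.d :=
    ((LinearMap.range B.d).submoduleOf (LinearMap.ker B.d)).mkQ ∘ₗ L1
  have hL : Function.Injective L := by
    rw [← LinearMap.ker_eq_bot, LinearMap.ker_eq_bot']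
    intro x hx
    have h1 : L1 x ∈ (LinearMap.range B.d).submoduleOf (LinearMap.ker B.d) :=
      (Submodule.Quotient.mk_eq_zero _).mp hx
    obtain ⟨a, ha⟩ := Submodule.mem_comap.mp h1
    exact lc_inj hC T c hc hT x a ha.symm
  have hfin' : FiniteDimensional K (K × (LinearMap.ker B.d ⊓ B.V : Submodule K A) × (T → K)) :=
    Module.Finite.of_injective L hL
  have h2 := LinearMap.finrank_le_finrank_of_injective hL
  have hV : FiniteDimensional K (LinearMap.ker B.d ⊓ B.V : Submodule K A) := by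
    refine Module.Finite.of_injective
      (L ∘ₗ (LinearMap.inr K K _) ∘ₗ (LinearMap.inl K _ (T → K))) ?_
    intro x y hxy
    have h3 := hL hxy
    have h4 := congrArg (fun z => z.2.1) h3
    exact h4
  rw [Module.finrank_prod, Module.finrank_prod, Module.finrank_self,
    Module.finrank_fintype_fun_eq_card, Fintype.card_coe] at h2
  omega

end

/-- **Theorem.** `dim V^odd + dim ker (d | V) ≤ dim H(ΛV, d)`. -/
theorem main (B : Base K A) (hfin : FiniteDimensional K (Coh B.d)) :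
    B.odd 0 + Module.finrank K (LinearMap.ker B.d ⊓ B.V : Submodule K A) ≤
      Module.finrank K (Coh B.d) := by
  obtain ⟨C, hC⟩ := exists_C B
  have hfinite : {p | Bad B C p}.Finite := by
    by_contra hinf
    obtain ⟨T, hT, hcard⟩ :=
      (show Set.Infinite {p | Bad B C p} from hinf).exists_subset_card_eq
        (Module.finrank K (Coh B.d))
    have h1 : ∀ t : T, Bad B C (t : ℤ) := fun t => hT t.2
    choose c hc using h1
    have h2 := card_le hC T c hc (fun t => Bad.pos (hT t.2)) hfin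
    omega
  set S := hfinite.toFinset with hS
  have hSmem : ∀ p, p ∈ S ↔ Bad B C p := fun p => by
    rw [hS, Set.Finite.mem_toFinset]
    exact Iff.rfl
  have h1 : ∀ t : S, Bad B C (t : ℤ) := fun t => (hSmem t).mp t.2
  choose c hc using h1
  have h2 := card_le hC S c hc (fun t => Bad.pos ((hSmem t).mp t.2)) hfin
  have h3 : Chain B S.card (EE B C) := by
    refine chain_of_finset B S.card S rfl (EE B C) (EE_idl fun p => (hC p).1)
      (EE_d fun p => (hC p).1) ?_
    intro p hp z hz hDz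
    by_contra hcon
    push Not at hcon
    exact hp ((hSmem p).mpr ⟨z, hz, hDz, hcon⟩)
  have h4 := odd_lt B _ (chain_gr _ h3)
  omega

end Pool.Agent.H91.Hil
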