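import Mathlib

/-!
# Hilali: one-variable extensions of complexes and rings (definitions)

`R⟦t⟧` for an even variable `t` with `D t = u` and `R ⊕ t R` for an odd variable `t` with
`D t = x`; graded subspaces are families `ℤ → Submodule K R`.
-/

namespace Pool.Agent.H91.Hil

open PowerSeries

section cx

variable {K R : Type*} [Field K] [AddCommGroup R] [Module K R]

/-- The quotient `P / Q` of graded subspaces is acyclic (degree by degree). -/
def Acy (D : R →ₗ[K] R) (P Q : ℤ → Submodule K R) : Prop :=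
  ∀ p : ℤ, ∀ z ∈ P p, D z ∈ Q (p + 1) → ∃ w ∈ P (p - 1), z - D w ∈ Q p

/-- `z` is a cocycle of degree `M`, not a boundary, and there is no cohomology above `M`. -/
def Top (D : R →ₗ[K] R) (gr : ℤ → Submodule K R) (M : ℤ) (z : R) : Prop :=
  z ∈ gr M ∧ D z = 0 ∧ (∀ w ∈ gr (M - 1), D w ≠ z) ∧
    ∀ p, M < p → ∀ x ∈ gr p, D x = 0 → ∃ w ∈ gr (p - 1), D w = x

end cx

section ev

variable {K R : Type*} [Field K] [Ring R] [Algebra K R]

/-- graded subspaces of `R⟦t⟧`, `t` of degree `e` -/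
def pw (e : ℤ) (P : ℤ → Submodule K R) (p : ℤ) : Submodule K R⟦X⟧ where
  carrier := {f | ∀ a : ℕ, coeff a f ∈ P (p - a * e)}
  add_mem' := by
    intro f g hf hg a
    rw [map_add]
    exact Submodule.add_mem _ (hf a) (hg a)
  zero_mem' := by
    intro a
    rw [map_zero]
    exact Submodule.zero_mem _
  smul_mem' := by
    intro c f hf a
    have h : coeff a (c • f) = c • coeff a f := rfl
    rw [h]
    exact Submodule.smul_mem _ c (hf a)

/-- the differential of `R⟦t⟧` with `D t = u` -/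
noncomputable def pD (D : R →ₗ[K] R) (u : R) : R⟦X⟧ →ₗ[K] R⟦X⟧ where
  toFun f := PowerSeries.mk fun a => D (coeff a f) + (a + 1) • (u * coeff (a + 1) f)
  map_add' := by
    intro f g
    ext a
    simp only [map_add, coeff_mk, mul_add, smul_add]
    abel
  map_smul' := by
    intro c f
    ext a
    have h : ∀ (a : ℕ) (f : R⟦X⟧), coeff a (c • f) = c • coeff a f := fun _ _ => rfl
    simp only [h, coeff_mk, RingHom.id_apply, map_smul, mul_smul_comm, smul_add]
    rw [smul_comm]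

theorem coeff_pD (D : R →ₗ[K] R) (u : R) (f : R⟦X⟧) (a : ℕ) :
    coeff a (pD D u f) = D (coeff a f) + (a + 1) • (u * coeff (a + 1) f) := by
  simp [pD]

theorem mem_pw {e : ℤ} {P : ℤ → Submodule K R} {p : ℤ} {f : R⟦X⟧} :
    f ∈ pw e P p ↔ ∀ a : ℕ, coeff a f ∈ P (p - a * e) := Iff.rfl

end ev

section od

variable {K R : Type*} [Field K] [Ring R] [Algebra K R]

/-- The algebra `R ⊕ t R` with `t` odd: `(a + t b) (c + t e) = a c + t (α a e + b c)`. -/
def OE (α : R →ₐ[K] R) : Type _ := (fun _ => R × R) α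

variable {α : R →ₐ[K] R}

instance : AddCommGroup (OE α) := (inferInstance : AddCommGroup (R × R))

instance : Module K (OE α) := (inferInstance : Module K (R × R))

/-- `a + t b` -/
def OE.mk (α : R →ₐ[K] R) (a b : R) : OE α := (a, b)

/-- constant coefficient -/
def OE.c0 (z : OE α) : R := z.1

/-- coefficient of `t` -/
def OE.c1 (z : OE α) : R := z.2

@[ext] theorem OE.ext {y z : OE α} (h0 : y.c0 = z.c0) (h1 : y.c1 = z.c1) : y = z :=
  Prod.ext h0 h1

@[simp] theorem OE.c0_mk (a b : R) : (OE.mk α a b).c0 = a := rfl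
@[simp] theorem OE.c1_mk (a b : R) : (OE.mk α a b).c1 = b := rfl
@[simp] theorem OE.c0_add (y z : OE α) : (y + z).c0 = y.c0 + z.c0 := rfl
@[simp] theorem OE.c1_add (y z : OE α) : (y + z).c1 = y.c1 + z.c1 := rfl
@[simp] theorem OE.c0_sub (y z : OE α) : (y - z).c0 = y.c0 - z.c0 := rfl
@[simp] theorem OE.c1_sub (y z : OE α) : (y - z).c1 = y.c1 - z.c1 := rfl
@[simp] theorem OE.c0_neg (y : OE α) : (-y).c0 = -y.c0 := rfl
@[simp] theorem OE.c1_neg (y : OE α) : (-y).c1 = -y.c1 := rfl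
@[simp] theorem OE.c0_zero : (0 : OE α).c0 = 0 := rfl
@[simp] theorem OE.c1_zero : (0 : OE α).c1 = 0 := rfl
@[simp] theorem OE.c0_smul (c : K) (y : OE α) : (c • y).c0 = c • y.c0 := rfl
@[simp] theorem OE.c1_smul (c : K) (y : OE α) : (c • y).c1 = c • y.c1 := rfl

/-- graded subspaces of `R ⊕ t R`, `t` of degree `e` -/
def ow (α : R →ₐ[K] R) (e : ℤ) (P : ℤ → Submodule K R) (p : ℤ) : Submodule K (OE α) where
  carrier := {z | z.c0 ∈ P p ∧ z.c1 ∈ P (p - e)}
  add_mem' := fun hf hg => ⟨Submodule.add_mem _ hf.1 hg.1, Submodule.add_mem _ hf.2 hg.2⟩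
  zero_mem' := ⟨Submodule.zero_mem _, Submodule.zero_mem _⟩
  smul_mem' := fun c _ hf => ⟨Submodule.smul_mem _ c hf.1, Submodule.smul_mem _ c hf.2⟩

theorem mem_ow {e : ℤ} {P : ℤ → Submodule K R} {p : ℤ} {z : OE α} :
    z ∈ ow α e P p ↔ z.c0 ∈ P p ∧ z.c1 ∈ P (p - e) := Iff.rfl

/-- the differential of `R ⊕ t R` with `D t = x`: `D (a + t b) = D a + x b - t D b` -/
def oD (α : R →ₐ[K] R) (D : R →ₗ[K] R) (x : R) : OE α →ₗ[K] OE α where
  toFun z := OE.mk α (D z.c0 + x * z.c1) (-(D z.c1))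
  map_add' := by
    intro y z
    ext
    · simp only [OE.c0_mk, OE.c0_add, OE.c1_add, map_add, mul_add]
      abel
    · simp only [OE.c1_mk, OE.c1_add, map_add]
      abel
  map_smul' := by
    intro c y
    ext
    · simp
    · simp

@[simp] theorem c0_oD (D : R →ₗ[K] R) (x : R) (z : OE α) :
    (oD α D x z).c0 = D z.c0 + x * z.c1 := rfl

@[simp] theorem c1_oD (D : R →ₗ[K] R) (x : R) (z : OE α) : (oD α D x z).c1 = -(D z.c1) := rfl

end od

end Pool.Agent.H91.Hil
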