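import Pool.Agent.H68.Hil.Sullivan

/-! Minimal Sullivan algebras: the definition used by the hand-in. -/

namespace Pool.Agent.H91.HilStatement

open Pool.Agent.H68.Sullivan

/-- `d` is the differential of a minimal Sullivan algebra `ΛV`: a graded derivation of degree
`+1` with square zero which maps every generator to a sum of products of at least two generators;
the generators `x_i` have even degrees, the generators `y_j` have odd degrees, and all these
degrees are at least `2`. -/
structure IsMin {K : Type*} [Field K] {q m : ℕ} (deg : Fin q ⊕ Fin m → ℕ)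
    (d : Lam K q m → Lam K q m) : Prop where
  even_deg : ∀ i : Fin q, Even (deg (Sum.inl i))
  odd_deg : ∀ j : Fin m, Odd (deg (Sum.inr j))
  two_le_deg : ∀ v, 2 ≤ deg v
  sq_zero : ∀ a, d (d a) = 0
  leibniz : ∀ (n l : ℕ) (a b : Lam K q m), a ∈ comp K deg n l →
    d (a * b) = d a * b + (-1) ^ n * (a * d b)
  map_gen : ∀ v, d (gen K q m v) ∈ ⨆ l : ℕ, ⨆ _ : 2 ≤ l, comp K deg (deg v + 1) l

end Pool.Agent.H91.HilStatement
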