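import Pool.Agent.H91.Hil.Base
import Pool.Agent.H91.Hil.Statement
import Pool.Agent.H68.Hil.Bridge

/-!
# The algebra `ΛV` satisfies the facts of `Base`

All subspaces are spans of sets of basis monomials.
-/

namespace Pool.Agent.H91.Hil.LamBase

open Finset Pool.Agent.H68.Hil

variable {K A : Type*} [Field K] [Ring A] [Algebra K A] {q m : ℕ}

/-- The index type of the monomials. -/
abbrev Ix (q m : ℕ) := (Fin q →₀ ℕ) × Finset (Fin m)

/-- The span of a set of monomials. -/
def cs (b : Module.Basis (Ix q m) K A) (S : Set (Ix q m)) : Submodule K A :=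
  Submodule.span K (b '' S)

theorem mem_cs {b : Module.Basis (Ix q m) K A} {S : Set (Ix q m)} {a : A} :
    a ∈ cs b S ↔ ∀ p, b.repr a p ≠ 0 → p ∈ S := by
  rw [cs, b.mem_span_image]
  constructor
  · intro h p hp
    exact h (by simpa using hp)
  · intro h p hp
    exact h p (by simpa using hp)

theorem bas_mem {b : Module.Basis (Ix q m) K A} {S : Set (Ix q m)} {p : Ix q m} (hp : p ∈ S) :
    b p ∈ cs b S := Submodule.subset_span ⟨p, hp, rfl⟩

theorem cs_mono {b : Module.Basis (Ix q m) K A} {S T : Set (Ix q m)} (h : S ⊆ T) :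
    cs b S ≤ cs b T := Submodule.span_mono (Set.image_mono h)

theorem cs_inf {b : Module.Basis (Ix q m) K A} {S T : Set (Ix q m)} {a : A} (h1 : a ∈ cs b S)
    (h2 : a ∈ cs b T) : a ∈ cs b (S ∩ T) := by
  rw [mem_cs] at *
  exact fun p hp => ⟨h1 p hp, h2 p hp⟩

theorem cs_ind {b : Module.Basis (Ix q m) K A} {S : Set (Ix q m)} {P : A → Prop}
    (h0 : P 0) (hadd : ∀ x y, P x → P y → P (x + y)) (hs : ∀ (c : K) x, P x → P (c • x))
    (hb : ∀ p ∈ S, P (b p)) {a : A} (ha : a ∈ cs b S) : P a := by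
  unfold cs at ha
  induction ha using Submodule.span_induction with
  | mem x hx => obtain ⟨p, hp, rfl⟩ := hx; exact hb p hp
  | zero => exact h0
  | add x y _ _ hx hy => exact hadd x y hx hy
  | smul c x _ hx => exact hs c x hx

/-- the generator `v` occurs in the monomial `p` -/
def occ : Fin q ⊕ Fin m → Ix q m → Prop
  | Sum.inl i, p => p.1 i ≠ 0
  | Sum.inr j, p => j ∈ p.2

/-- multiplication of a monomial by a generator -/
noncomputable def up : Fin q ⊕ Fin m → Ix q m → Ix q m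
  | Sum.inl i, p => (p.1 + Finsupp.single i 1, p.2)
  | Sum.inr j, p => (p.1, insert j p.2)

/-- the generator `v` is odd and occurs in `p` -/
def bad : Fin q ⊕ Fin m → Ix q m → Prop
  | Sum.inl _, _ => False
  | Sum.inr j, p => j ∈ p.2

theorem occ_up (v w : Fin q ⊕ Fin m) (p : Ix q m) : occ w (up v p) ↔ w = v ∨ occ w p := by
  rcases v with i | j <;> rcases w with k | l
  · by_cases h : k = i
    · subst h; simp [occ, up]
    · simp [occ, up, h, Finsupp.single_apply, Ne.symm h]
  · simp [occ, up]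
  · simp [occ, up]
  · simp [occ, up]

theorem up_inj {v : Fin q ⊕ Fin m} {p p' : Ix q m} (h : ¬ bad v p) (h' : ¬ bad v p')
    (e : up v p = up v p') : p = p' := by
  rcases v with i | j
  · obtain ⟨a, S⟩ := p
    obtain ⟨a', S'⟩ := p'
    simp only [up, Prod.mk.injEq, add_left_inj] at e
    rw [e.1, e.2]
  · obtain ⟨a, S⟩ := p
    obtain ⟨a', S'⟩ := p'
    simp only [up, Prod.mk.injEq] at e
    simp only [bad] at h h'
    have : S = S' := by
      have h1 := congrArg (fun T => T.erase j) e.2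
      simp only [erase_insert h, erase_insert h'] at h1
      exact h1
    rw [e.1, this]

/-- A generator that occurs can be taken out. -/
theorem exists_up {v : Fin q ⊕ Fin m} {p : Ix q m} (h : occ v p) :
    ∃ p', up v p' = p ∧ ¬ bad v p' := by
  rcases v with i | j
  · obtain ⟨a, S⟩ := p
    simp only [occ] at h
    refine ⟨(a - Finsupp.single i 1, S), ?_, fun h => h⟩
    simp only [up, Prod.mk.injEq, and_true]
    exact tsub_add_cancel_of_le (by rw [Finsupp.single_le_iff]; omega)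
  · obtain ⟨a, S⟩ := p
    simp only [occ] at h
    refine ⟨(a, S.erase j), ?_, by simp [bad]⟩
    simp only [up, Prod.mk.injEq, true_and]
    exact insert_erase h

theorem exists_occ {p : Ix q m} (h : wl p ≠ 0) : ∃ v, occ v p := by
  by_contra hcon
  push Not at hcon
  apply h
  unfold wl
  have h1 : ∀ i, p.1 i = 0 := fun i => by
    by_contra h2
    exact hcon (Sum.inl i) h2
  have h2 : p.2 = ∅ := by
    rw [eq_empty_iff_forall_notMem]
    exact fun j hj => hcon (Sum.inr j) hj
  simp [h1, h2]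

theorem wl_up {v : Fin q ⊕ Fin m} {p : Ix q m} (h : ¬ bad v p) : wl (up v p) = 1 + wl p := by
  rcases v with i | j
  · exact wl_add_single i p.1 p.2
  · exact wl_insert j p.1 p.2 h

theorem dg_up (deg : Fin q ⊕ Fin m → ℕ) {v : Fin q ⊕ Fin m} {p : Ix q m} (h : ¬ bad v p) :
    dg deg (up v p) = deg v + dg deg p := by
  rcases v with i | j
  · exact dg_add_single deg i p.1 p.2
  · exact dg_insert deg j p.1 p.2 h

section mon

variable {g : Fin q ⊕ Fin m → A} {b : Module.Basis (Ix q m) K A}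

theorem gen_mul_good (hb : IsMon g b) {v : Fin q ⊕ Fin m} {p : Ix q m} (h : ¬ bad v p) :
    g v * b p = b (up v p) ∨ g v * b p = -b (up v p) := by
  rcases v with i | j
  · exact Or.inl (hb.inl i p.1 p.2)
  · exact hb.inr_notMem j p.1 p.2 h

theorem gen_mul_bad (hb : IsMon g b) {v : Fin q ⊕ Fin m} {p : Ix q m} (h : bad v p) :
    g v * b p = 0 := by
  rcases v with i | j
  · exact h.elim
  · exact hb.inr_mem j p.1 p.2 h

/-- induction over the monomials -/
theorem mon_ind (hb : IsMon g b) {P : Ix q m → A → Prop} (h1 : P (0, ∅) 1)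
    (hn : ∀ p x, P p x → P p (-x))
    (hg : ∀ v p x, ¬ bad v p → x = b p → P p x → P (up v p) (g v * x)) (p : Ix q m) :
    P p (b p) := by
  induction hw : wl p generalizing p with
  | zero =>
    have : p = (0, ∅) := by
      by_contra hne
      obtain ⟨a, S⟩ := p
      unfold wl at hw
      simp only [Nat.add_eq_zero_iff, card_eq_zero, sum_eq_zero_iff, mem_univ,
        true_implies] at hw
      apply hne
      rw [Prod.mk.injEq]
      refine ⟨?_, hw.2⟩
      ext i
      simpa using hw.1 i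
    subst this
    rw [hb.one]
    exact h1
  | succ n ih =>
    obtain ⟨v, hv⟩ := exists_occ (p := p) (by omega)
    obtain ⟨p', rfl, hp'⟩ := exists_up hv
    have hw' : wl p' = n := by
      have := wl_up hp'
      omega
    have h2 := ih p' hw'
    have h3 := hg v p' (b p') hp' rfl h2
    rcases gen_mul_good hb hp' with h | h
    · rwa [h] at h3
    · rw [h] at h3
      simpa using hn _ _ h3

/-- the coefficients of `g v * a` -/
theorem repr_gen_mul (hb : IsMon g b) {v : Fin q ⊕ Fin m} {p : Ix q m} (h : ¬ bad v p) :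
    ∃ ε : K, (ε = 1 ∨ ε = -1) ∧ ∀ a, b.repr (g v * a) (up v p) = ε * b.repr a p := by
  classical
  have key : ∃ ε : K, (ε = 1 ∨ ε = -1) ∧ g v * b p = ε • b (up v p) := by
    rcases gen_mul_good hb h with h1 | h1
    · exact ⟨1, Or.inl rfl, by rw [h1, one_smul]⟩
    · exact ⟨-1, Or.inr rfl, by rw [h1, neg_one_smul]⟩
  obtain ⟨ε, hε, he⟩ := key
  refine ⟨ε, hε, ?_⟩
  let f1 : A →ₗ[K] K := (Finsupp.lapply (up v p)).comp
    (b.repr.toLinearMap.comp (LinearMap.mulLeft K (g v)))
  let f2 : A →ₗ[K] K := ε • ((Finsupp.lapply p).comp b.repr.toLinearMap)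
  have hf : f1 = f2 := by
    apply b.ext
    intro p'
    change b.repr (g v * b p') (up v p) = ε * b.repr (b p') p
    by_cases hbad : bad v p'
    · rw [gen_mul_bad hb hbad]
      have : p' ≠ p := fun e => h (e ▸ hbad)
      simp [Finsupp.single_apply, this]
    · by_cases hpp : p' = p
      · subst hpp
        rw [he]
        simp
      · have hne : up v p' ≠ up v p := fun e => hpp (up_inj hbad h e)
        rcases gen_mul_good hb hbad with h1 | h1
        · rw [h1]; simp [Finsupp.single_apply, hpp, hne]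
        · rw [h1]; simp [Finsupp.single_apply, hpp, hne]
  intro a
  exact LinearMap.congr_fun hf a

/-- product of monomials -/
theorem mul_bas (hb : IsMon g b) (p p' : Ix q m) :
    (¬ Disjoint p.2 p'.2 ∧ b p * b p' = 0) ∨
    (Disjoint p.2 p'.2 ∧ (b p * b p' = b (p.1 + p'.1, p.2 ∪ p'.2) ∨
      b p * b p' = -b (p.1 + p'.1, p.2 ∪ p'.2))) := by
  have := mon_ind hb (P := fun p x => (¬ Disjoint p.2 p'.2 ∧ x * b p' = 0) ∨
    (Disjoint p.2 p'.2 ∧ (x * b p' = b (p.1 + p'.1, p.2 ∪ p'.2) ∨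
      x * b p' = -b (p.1 + p'.1, p.2 ∪ p'.2)))) ?_ ?_ ?_ p
  · exact this
  · right
    refine ⟨by simp, Or.inl ?_⟩
    simp
  · rintro p x (⟨h1, h2⟩ | ⟨h1, h2 | h2⟩)
    · exact Or.inl ⟨h1, by rw [neg_mul, h2, neg_zero]⟩
    · exact Or.inr ⟨h1, Or.inr (by rw [neg_mul, h2])⟩
    · exact Or.inr ⟨h1, Or.inl (by rw [neg_mul, h2, neg_neg])⟩
  · rintro v p x hv - (⟨h1, h2⟩ | ⟨h1, h2⟩)
    · left
      refine ⟨?_, by rw [mul_assoc, h2, mul_zero]⟩
      rcases v with i | j
      · exact h1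
      · exact fun h => h1 (disjoint_of_subset_left (subset_insert _ _) h)
    · have e : g v * x * b p' = g v * b (p.1 + p'.1, p.2 ∪ p'.2) ∨
          g v * x * b p' = -(g v * b (p.1 + p'.1, p.2 ∪ p'.2)) := by
        rw [mul_assoc]
        rcases h2 with h2 | h2
        · exact Or.inl (by rw [h2])
        · exact Or.inr (by rw [h2, mul_neg])
      by_cases hbad : bad v (p.1 + p'.1, p.2 ∪ p'.2)
      · left
        rcases v with i | j
        · exact hbad.elim
        · simp only [bad, mem_union] at hbad hv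
          have hj : j ∈ p'.2 := hbad.resolve_left hv
          refine ⟨?_, ?_⟩
          · simp only [up]
            rw [disjoint_insert_left]
            exact fun h => h.1 hj
          · have : g (Sum.inr j) * b (p.1 + p'.1, p.2 ∪ p'.2) = 0 :=
              gen_mul_bad hb (by simp [bad, hj])
            rcases e with e | e <;> rw [e, this]
            simp
      · right
        have hd : Disjoint (up v p).2 p'.2 := by
          rcases v with i | j
          · exact h1
          · simp only [up]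
            rw [disjoint_insert_left]
            refine ⟨?_, h1⟩
            simp only [bad, mem_union] at hbad
            tauto
        refine ⟨hd, ?_⟩
        have hu : up v (p.1 + p'.1, p.2 ∪ p'.2) = ((up v p).1 + p'.1, (up v p).2 ∪ p'.2) := by
          rcases v with i | j
          · simp only [up, Prod.mk.injEq, and_true]
            abel
          · simp only [up, Prod.mk.injEq, true_and]
            rw [insert_union]
        rw [← hu]
        rcases gen_mul_good hb hbad with h3 | h3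
        · rw [h3] at e; exact e
        · rw [h3, neg_neg] at e; exact e.symm

/-- a set of monomials is an ideal set if it is closed under multiplication -/
def Idl (S : Set (Ix q m)) : Prop :=
  ∀ p p' : Ix q m, Disjoint p.2 p'.2 → (p ∈ S ∨ p' ∈ S) → (p.1 + p'.1, p.2 ∪ p'.2) ∈ S

theorem bas_mul_mem (hb : IsMon g b) {S : Set (Ix q m)} {p p' : Ix q m}
    (h : Disjoint p.2 p'.2 → (p.1 + p'.1, p.2 ∪ p'.2) ∈ S) : b p * b p' ∈ cs b S := by
  rcases mul_bas hb p p' with ⟨-, h1⟩ | ⟨h0, h1 | h1⟩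
  · rw [h1]; exact Submodule.zero_mem _
  · rw [h1]; exact bas_mem (h h0)
  · rw [h1]; exact Submodule.neg_mem _ (bas_mem (h h0))

theorem cs_mul (hb : IsMon g b) {S T U : Set (Ix q m)}
    (h : ∀ p ∈ S, ∀ p' ∈ T, Disjoint p.2 p'.2 → (p.1 + p'.1, p.2 ∪ p'.2) ∈ U) {x y : A}
    (hx : x ∈ cs b S) (hy : y ∈ cs b T) : x * y ∈ cs b U := by
  revert y
  apply cs_ind (P := fun x => ∀ y, y ∈ cs b T → x * y ∈ cs b U) _ _ _ _ hx
  · intro y _; rw [zero_mul]; exact Submodule.zero_mem _
  · intro x x' h1 h2 y hy; rw [add_mul]; exact Submodule.add_mem _ (h1 y hy) (h2 y hy)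
  · intro c x h1 y hy; rw [smul_mul_assoc]; exact Submodule.smul_mem _ _ (h1 y hy)
  · intro p hp y hy
    apply cs_ind (P := fun y => b p * y ∈ cs b U) _ _ _ _ hy
    · rw [mul_zero]; exact Submodule.zero_mem _
    · intro x x' h1 h2; rw [mul_add]; exact Submodule.add_mem _ h1 h2
    · intro c x h1; rw [mul_smul_comm]; exact Submodule.smul_mem _ _ h1
    · intro p' hp'
      exact bas_mul_mem hb (h p hp p' hp')

theorem mem_univ_cs (a : A) : a ∈ cs b (Set.univ : Set (Ix q m)) := mem_cs.2 fun p _ => trivial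

theorem idl_left (hb : IsMon g b) {S : Set (Ix q m)} (hS : Idl S) (a : A) {x : A}
    (hx : x ∈ cs b S) : a * x ∈ cs b S :=
  cs_mul hb (fun p _ p' hp' hd => hS p p' hd (Or.inr hp')) (mem_univ_cs a) hx

theorem idl_right (hb : IsMon g b) {S : Set (Ix q m)} (hS : Idl S) (a : A) {x : A}
    (hx : x ∈ cs b S) : x * a ∈ cs b S :=
  cs_mul hb (fun p hp p' _ hd => hS p p' hd (Or.inl hp)) hx (mem_univ_cs a)

theorem dg_add (deg : Fin q ⊕ Fin m → ℕ) {p p' : Ix q m} (h : Disjoint p.2 p'.2) :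
    dg deg (p.1 + p'.1, p.2 ∪ p'.2) = dg deg p + dg deg p' := by
  unfold dg
  simp only [Finsupp.add_apply, add_mul, sum_add_distrib, sum_union h]
  ring

theorem wl_add {p p' : Ix q m} (h : Disjoint p.2 p'.2) :
    wl (p.1 + p'.1, p.2 ∪ p'.2) = wl p + wl p' := by
  unfold wl
  simp only [Finsupp.add_apply, sum_add_distrib, card_union_of_disjoint h]
  ring

theorem occ_add (v : Fin q ⊕ Fin m) (p p' : Ix q m) :
    occ v (p.1 + p'.1, p.2 ∪ p'.2) ↔ occ v p ∨ occ v p' := by
  rcases v with i | j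
  · simp only [occ, Finsupp.add_apply]; omega
  · simp [occ]

/-- the part of degree `p` -/
def grd (b : Module.Basis (Ix q m) K A) (deg : Fin q ⊕ Fin m → ℕ) (p : ℤ) : Submodule K A :=
  cs b {s | (dg deg s : ℤ) = p}

/-- the projection -/
noncomputable def prj (b : Module.Basis (Ix q m) K A) (deg : Fin q ⊕ Fin m → ℕ) (p : ℤ) :
    A →ₗ[K] A := b.constr K (fun s => if (dg deg s : ℤ) = p then b s else 0)

theorem prj_bas (deg : Fin q ⊕ Fin m → ℕ) (p : ℤ) (s : Ix q m) :
    prj b deg p (b s) = if (dg deg s : ℤ) = p then b s else 0 := by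
  rw [prj, Module.Basis.constr_basis]

theorem prj_mem (deg : Fin q ⊕ Fin m → ℕ) (p : ℤ) (a : A) : prj b deg p a ∈ grd b deg p := by
  apply cs_ind (P := fun a => prj b deg p a ∈ grd b deg p) _ _ _ _ (mem_univ_cs (b := b) a)
  · rw [map_zero]; exact Submodule.zero_mem _
  · intro x y h1 h2; rw [map_add]; exact Submodule.add_mem _ h1 h2
  · intro c x h1; rw [map_smul]; exact Submodule.smul_mem _ _ h1
  · intro s _
    rw [prj_bas]
    split_ifs with h
    · exact bas_mem h
    · exact Submodule.zero_mem _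

theorem prj_self (deg : Fin q ⊕ Fin m → ℕ) (p : ℤ) {a : A} (ha : a ∈ grd b deg p) :
    prj b deg p a = a := by
  apply cs_ind (P := fun a => prj b deg p a = a) _ _ _ _ ha
  · rw [map_zero]
  · intro x y h1 h2; rw [map_add, h1, h2]
  · intro c x h1; rw [map_smul, h1]
  · intro s hs
    have hs' : (dg deg s : ℤ) = p := hs
    rw [prj_bas, if_pos hs']

theorem prj_ne (deg : Fin q ⊕ Fin m → ℕ) {p r : ℤ} (hpr : p ≠ r) {a : A}
    (ha : a ∈ grd b deg p) : prj b deg r a = 0 := by
  apply cs_ind (P := fun a => prj b deg r a = 0) _ _ _ _ ha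
  · rw [map_zero]
  · intro x y h1 h2; rw [map_add, h1, h2, add_zero]
  · intro c x h1; rw [map_smul, h1, smul_zero]
  · intro s hs
    have hs' : (dg deg s : ℤ) = p := hs
    rw [prj_bas, if_neg (by rw [hs']; exact hpr)]

theorem repr_prj (deg : Fin q ⊕ Fin m → ℕ) (p : ℤ) (a : A) (s : Ix q m) :
    b.repr (prj b deg p a) s = if (dg deg s : ℤ) = p then b.repr a s else 0 := by
  classical
  apply cs_ind (P := fun a => b.repr (prj b deg p a) s =
    if (dg deg s : ℤ) = p then b.repr a s else 0) _ _ _ _ (mem_univ_cs (b := b) a)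
  · simp
  · intro x y h1 h2
    rw [map_add, map_add, Finsupp.add_apply, h1, h2, map_add, Finsupp.add_apply]
    split_ifs <;> simp
  · intro c x h1
    rw [map_smul, map_smul, Finsupp.smul_apply, h1, map_smul, Finsupp.smul_apply]
    split_ifs <;> simp
  · intro t _
    rw [prj_bas]
    by_cases hts : t = s
    · subst hts
      split_ifs <;> simp
    · split_ifs <;> simp [Finsupp.single_apply, hts]

theorem prj_cs (deg : Fin q ⊕ Fin m → ℕ) (p : ℤ) {S : Set (Ix q m)} {a : A}
    (ha : a ∈ cs b S) : prj b deg p a ∈ cs b S := by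
  rw [mem_cs] at *
  intro s hs
  rw [repr_prj] at hs
  apply ha
  intro h0
  apply hs
  rw [h0]
  simp

theorem prj_ext (deg : Fin q ⊕ Fin m → ℕ) (a : A) (h : ∀ p, prj b deg p a = 0) : a = 0 := by
  apply b.repr.injective
  rw [map_zero]
  ext s
  have h1 := repr_prj (b := b) deg (dg deg s : ℤ) a s
  rw [h, if_pos rfl, map_zero] at h1
  exact h1.symm

theorem grd_neg (deg : Fin q ⊕ Fin m → ℕ) {p : ℤ} (hp : p < 0) : grd b deg p = ⊥ := by
  rw [eq_bot_iff]
  intro a ha
  rw [Submodule.mem_bot]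
  apply b.repr.injective
  rw [map_zero]
  ext s
  by_contra h
  have h1 : (dg deg s : ℤ) = p := mem_cs.1 ha s h
  omega

theorem grd_mul (hb : IsMon g b) (deg : Fin q ⊕ Fin m → ℕ) {p r : ℤ} {x y : A}
    (hx : x ∈ grd b deg p) (hy : y ∈ grd b deg r) : x * y ∈ grd b deg (p + r) := by
  apply cs_mul hb _ hx hy
  intro s hs s' hs' hd
  have h1 : (dg deg s : ℤ) = p := hs
  have h2 : (dg deg s' : ℤ) = r := hs'
  show ((dg deg (s.1 + s'.1, s.2 ∪ s'.2) : ℕ) : ℤ) = p + r
  rw [dg_add deg hd]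
  push_cast
  rw [h1, h2]

theorem dg_eq_zero {deg : Fin q ⊕ Fin m → ℕ} (h2 : ∀ v, 2 ≤ deg v) {p : Ix q m}
    (h : dg deg p = 0) : p = (0, ∅) := by
  by_contra hne
  have : wl p ≠ 0 := by
    intro hw
    obtain ⟨a, S⟩ := p
    unfold wl at hw
    simp only [Nat.add_eq_zero_iff, card_eq_zero, sum_eq_zero_iff, mem_univ, true_implies] at hw
    apply hne
    rw [Prod.mk.injEq]
    refine ⟨?_, hw.2⟩
    ext i
    simpa using hw.1 i
  obtain ⟨v, hv⟩ := exists_occ this
  obtain ⟨p', rfl, hp'⟩ := exists_up hv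
  rw [dg_up deg hp'] at h
  have := h2 v
  omega

/-- the parity involution -/
noncomputable def inv0 (b : Module.Basis (Ix q m) K A) : A →ₗ[K] A :=
  b.constr K (fun s => (-1 : K) ^ s.2.card • b s)

theorem inv0_bas (s : Ix q m) : inv0 b (b s) = (-1 : K) ^ s.2.card • b s := by
  rw [inv0, Module.Basis.constr_basis]

theorem inv0_mul (hb : IsMon g b) (x y : A) : inv0 b (x * y) = inv0 b x * inv0 b y := by
  revert y
  apply cs_ind (P := fun x => ∀ y, inv0 b (x * y) = inv0 b x * inv0 b y) _ _ _ _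
    (mem_univ_cs (b := b) x)
  · intro y; simp
  · intro x x' h1 h2 y; rw [add_mul, map_add, h1, h2, map_add, add_mul]
  · intro c x h1 y; rw [smul_mul_assoc, map_smul, h1, map_smul, smul_mul_assoc]
  · intro p _ y
    apply cs_ind (P := fun y => inv0 b (b p * y) = inv0 b (b p) * inv0 b y) _ _ _ _
      (mem_univ_cs (b := b) y)
    · simp
    · intro x x' h1 h2; rw [mul_add, map_add, h1, h2, map_add, mul_add]
    · intro c x h1; rw [mul_smul_comm, map_smul, h1, map_smul, mul_smul_comm]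
    · intro p' _
      rw [inv0_bas, inv0_bas, smul_mul_smul_comm]
      rcases mul_bas hb p p' with ⟨-, h1⟩ | ⟨h0, h1 | h1⟩
      · rw [h1]; simp
      · rw [h1, inv0_bas, card_union_of_disjoint h0, pow_add]
      · rw [h1, map_neg, inv0_bas, card_union_of_disjoint h0, pow_add, smul_neg]

/-- the parity involution, as a homomorphism of algebras -/
noncomputable def inv (hb : IsMon g b) : A →ₐ[K] A :=
  AlgHom.ofLinearMap (inv0 b) (by rw [← hb.one, inv0_bas]; simp) (inv0_mul hb)

theorem inv_bas (hb : IsMon g b) (s : Ix q m) : inv hb (b s) = (-1 : K) ^ s.2.card • b s :=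
  inv0_bas s

theorem inv_gen_inl (hb : IsMon g b) (i : Fin q) : inv hb (g (Sum.inl i)) = g (Sum.inl i) := by
  have h : g (Sum.inl i) = b (up (Sum.inl i) (0, ∅)) := by
    rw [up, ← hb.inl, hb.one, mul_one]
  rw [h, inv_bas]
  simp [up]

theorem inv_gen_inr (hb : IsMon g b) (j : Fin m) : inv hb (g (Sum.inr j)) = -g (Sum.inr j) := by
  have h := gen_mul_good hb (v := Sum.inr j) (p := (0, ∅)) (by simp [bad])
  rw [hb.one, mul_one] at h
  rcases h with h | h
  · rw [h, inv_bas]; simp [up]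
  · rw [h, map_neg, inv_bas]; simp [up]

theorem inv_inv (hb : IsMon g b) (a : A) : inv hb (inv hb a) = a := by
  apply cs_ind (P := fun a => inv hb (inv hb a) = a) _ _ _ _ (mem_univ_cs (b := b) a)
  · simp
  · intro x y h1 h2; rw [map_add, map_add, h1, h2]
  · intro c x h1; rw [map_smul, map_smul, h1]
  · intro s _
    rw [inv_bas, map_smul, inv_bas, smul_smul, ← pow_add]
    have : Even (s.2.card + s.2.card) := ⟨_, rfl⟩
    rw [this.neg_one_pow, one_smul]

/-- graded commutativity of the generators -/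
structure GC (g : Fin q ⊕ Fin m → A) : Prop where
  cen : ∀ i a, g (Sum.inl i) * a = a * g (Sum.inl i)
  anti : ∀ j k, g (Sum.inr j) * g (Sum.inr k) = -(g (Sum.inr k) * g (Sum.inr j))

theorem inr_comm (hb : IsMon g b) (hg : GC g) (j : Fin m) (a : A) :
    g (Sum.inr j) * a = inv hb a * g (Sum.inr j) := by
  apply cs_ind (P := fun a => g (Sum.inr j) * a = inv hb a * g (Sum.inr j)) _ _ _ _
    (mem_univ_cs (b := b) a)
  · simp
  · intro x y h1 h2; rw [mul_add, h1, h2, map_add, add_mul]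
  · intro c x h1; rw [mul_smul_comm, h1, map_smul, smul_mul_assoc]
  · intro s _
    apply mon_ind hb (P := fun _ x => g (Sum.inr j) * x = inv hb x * g (Sum.inr j))
    · rw [map_one, mul_one, one_mul]
    · intro p x h; rw [mul_neg, h, map_neg, neg_mul]
    · intro v p x _ _ h
      rcases v with i | k
      · rw [← mul_assoc, ← hg.cen, mul_assoc, h, map_mul, inv_gen_inl, mul_assoc]
      · rw [← mul_assoc, hg.anti, neg_mul, mul_assoc, h, map_mul, inv_gen_inr, neg_mul, neg_mul,
          mul_assoc]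

theorem bas_comm (hb : IsMon g b) (hg : GC g) (s : Ix q m) (a : A) :
    (Even s.2.card → b s * a = a * b s) ∧ (¬ Even s.2.card → b s * a = inv hb a * b s) := by
  revert a
  apply mon_ind hb (P := fun s x => ∀ a, (Even s.2.card → x * a = a * x) ∧
    (¬ Even s.2.card → x * a = inv hb a * x))
  · intro a
    refine ⟨fun _ => by rw [one_mul, mul_one], fun h => ?_⟩
    exact (h (by simp)).elim
  · intro p x h a
    refine ⟨fun h1 => ?_, fun h1 => ?_⟩
    · rw [neg_mul, (h a).1 h1, mul_neg]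
    · rw [neg_mul, (h a).2 h1, mul_neg]
  · intro v p x hv _ h a
    rcases v with i | j
    · refine ⟨fun h1 => ?_, fun h1 => ?_⟩
      · rw [mul_assoc, (h a).1 h1, ← mul_assoc, hg.cen, mul_assoc]
      · rw [mul_assoc, (h a).2 h1, ← mul_assoc, hg.cen, mul_assoc]
    · have hc : (up (Sum.inr j) p).2.card = p.2.card + 1 := card_insert_of_notMem hv
      rw [hc, Nat.even_add_one]
      refine ⟨fun h1 => ?_, fun h1 => ?_⟩
      · rw [mul_assoc, (h a).2 h1, ← mul_assoc, inr_comm hb hg, inv_inv, mul_assoc]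
      · rw [mul_assoc, (h a).1 (not_not.1 h1), ← mul_assoc, inr_comm hb hg, mul_assoc]

/-- the hypotheses on the differential -/
structure Mn (K : Type*) {A : Type*} [Field K] [Ring A] [Algebra K A] {q m : ℕ}
    (g : Fin q ⊕ Fin m → A) (deg : Fin q ⊕ Fin m → ℕ) (d : A → A) : Prop where
  even_deg : ∀ i : Fin q, Even (deg (Sum.inl i))
  odd_deg : ∀ j : Fin m, Odd (deg (Sum.inr j))
  two_le_deg : ∀ v, 2 ≤ deg v
  sq_zero : ∀ a, d (d a) = 0
  leibniz : ∀ (n l : ℕ) (a b : A), a ∈ cmp K g deg n l →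
    d (a * b) = d a * b + (-1) ^ n * (a * d b)
  map_gen : ∀ v, d (g v) ∈ ⨆ l : ℕ, ⨆ _ : 2 ≤ l, cmp K g deg (deg v + 1) l

variable {deg : Fin q ⊕ Fin m → ℕ} {d : A →ₗ[K] A}

theorem par (hd : Mn K g deg d) {p : ℤ} {s : Ix q m} (h : (dg deg s : ℤ) = p) :
    Even s.2.card ↔ Even p := by
  rw [← parity_dg hd.even_deg hd.odd_deg, ← h, Int.even_coe_nat]

theorem inv_ev (hb : IsMon g b) (hd : Mn K g deg d) {p : ℤ} (hp : Even p) {a : A}
    (ha : a ∈ grd b deg p) : inv hb a = a := by
  apply cs_ind (P := fun a => inv hb a = a) _ _ _ _ ha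
  · simp
  · intro x y h1 h2; rw [map_add, h1, h2]
  · intro c x h1; rw [map_smul, h1]
  · intro s hs
    rw [inv_bas, ((par hd hs).2 hp).neg_one_pow, one_smul]

theorem inv_od (hb : IsMon g b) (hd : Mn K g deg d) {p : ℤ} (hp : Odd p) {a : A}
    (ha : a ∈ grd b deg p) : inv hb a = -a := by
  apply cs_ind (P := fun a => inv hb a = -a) _ _ _ _ ha
  · simp
  · intro x y h1 h2; rw [map_add, h1, h2, neg_add]
  · intro c x h1; rw [map_smul, h1, smul_neg]
  · intro s hs
    have h1 : Odd s.2.card := by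
      rw [← Nat.not_even_iff_odd, par hd hs, Int.not_even_iff_odd]
      exact hp
    rw [inv_bas, h1.neg_one_pow, neg_one_smul]

theorem gc_ev (hb : IsMon g b) (hg : GC g) (hd : Mn K g deg d) {p : ℤ} (hp : Even p) {a : A}
    (ha : a ∈ grd b deg p) (x : A) : a * x = x * a := by
  apply cs_ind (P := fun a => a * x = x * a) _ _ _ _ ha
  · simp
  · intro y z h1 h2; rw [add_mul, h1, h2, mul_add]
  · intro c y h1; rw [smul_mul_assoc, h1, mul_smul_comm]
  · intro s hs
    exact (bas_comm hb hg s x).1 ((par hd hs).2 hp)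

theorem gc_od (hb : IsMon g b) (hg : GC g) (hd : Mn K g deg d) {p : ℤ} (hp : Odd p) {a : A}
    (ha : a ∈ grd b deg p) (x : A) : a * x = inv hb x * a := by
  apply cs_ind (P := fun a => a * x = inv hb x * a) _ _ _ _ ha
  · simp
  · intro y z h1 h2; rw [add_mul, h1, h2, mul_add]
  · intro c y h1; rw [smul_mul_assoc, h1, mul_smul_comm]
  · intro s hs
    refine (bas_comm hb hg s x).2 ?_
    rw [par hd hs, Int.not_even_iff_odd]
    exact hp

theorem d_one (hd : Mn K g deg d) : d 1 = 0 := by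
  have h := hd.leibniz 0 0 1 1 (one_mem_cmp g deg)
  simpa using h

theorem gen_mem_cs (hb : IsMon g b) (v : Fin q ⊕ Fin m) : g v ∈ cs b {up v (0, ∅)} := by
  have h := gen_mul_good hb (v := v) (p := (0, ∅)) (by rcases v with i | j <;> simp [bad])
  rw [hb.one, mul_one] at h
  rcases h with h | h
  · rw [h]; exact bas_mem rfl
  · rw [h]; exact Submodule.neg_mem _ (bas_mem rfl)

theorem not_bad_zero (v : Fin q ⊕ Fin m) : ¬ bad v ((0, ∅) : Ix q m) := by
  rcases v with i | j <;> simp [bad]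

theorem dg_zero : dg deg ((0, ∅) : Ix q m) = 0 := by simp [dg]

theorem wl_zero : wl ((0, ∅) : Ix q m) = 0 := by simp [wl]

theorem dg_gen (v : Fin q ⊕ Fin m) : dg deg (up v ((0, ∅) : Ix q m)) = deg v := by
  rw [dg_up deg (not_bad_zero v), dg_zero, add_zero]

theorem wl_gen (v : Fin q ⊕ Fin m) : wl (up v ((0, ∅) : Ix q m)) = 1 := by
  rw [wl_up (not_bad_zero v), wl_zero, add_zero]

theorem d_gen (hb : IsMon g b) (hd : Mn K g deg d) (v : Fin q ⊕ Fin m) :
    d (g v) ∈ cs b {s | dg deg s = deg v + 1 ∧ 2 ≤ wl s} := by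
  have h : (⨆ l : ℕ, ⨆ _ : 2 ≤ l, cmp K g deg (deg v + 1) l) ≤
      cs b {s | dg deg s = deg v + 1 ∧ 2 ≤ wl s} := by
    apply iSup_le
    intro l
    apply iSup_le
    intro hl
    refine (cmp_le_span hb deg _ _).trans (Submodule.span_mono (Set.image_mono ?_))
    rintro p ⟨h1, h2⟩
    exact ⟨h1, by omega⟩
  exact h (hd.map_gen v)

theorem d_bas (hb : IsMon g b) (hd : Mn K g deg d) (s : Ix q m) :
    d (b s) ∈ cs b {t | dg deg t = dg deg s + 1 ∧ 2 ≤ wl t} := by
  apply mon_ind hb (P := fun s x => d x ∈ cs b {t | dg deg t = dg deg s + 1 ∧ 2 ≤ wl t})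
  · rw [d_one hd]; exact Submodule.zero_mem _
  · intro p x h; rw [map_neg]; exact Submodule.neg_mem _ h
  · intro v p x hv hx h
    rw [hd.leibniz (deg v) 1 _ _ (gen_mem_cmp g deg v)]
    apply Submodule.add_mem
    · apply cs_mul hb _ (d_gen hb hd v) (hx ▸ bas_mem (S := {p}) rfl)
      rintro t ⟨ht1, ht2⟩ t' rfl hdis
      refine ⟨?_, ?_⟩
      · rw [dg_add deg hdis, dg_up deg hv, ht1]; omega
      · rw [wl_add hdis]; omega
    · have h3 : g v * d x ∈ cs b {t | dg deg t = dg deg (up v p) + 1 ∧ 2 ≤ wl t} := by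
        apply cs_mul hb _ (gen_mem_cs hb v) h
        rintro t rfl t' ⟨ht1, ht2⟩ hdis
        refine ⟨?_, ?_⟩
        · rw [dg_add deg hdis, dg_up deg hv, dg_gen, ht1]; omega
        · rw [wl_add hdis]; omega
      rcases neg_one_pow_eq_or A (deg v) with h4 | h4
      · rw [h4, one_mul]; exact h3
      · rw [h4, neg_one_mul]; exact Submodule.neg_mem _ h3

theorem d_mem (hb : IsMon g b) (hd : Mn K g deg d) {p : ℤ} {a : A} (ha : a ∈ grd b deg p) :
    d a ∈ grd b deg (p + 1) := by
  apply cs_ind (P := fun a => d a ∈ grd b deg (p + 1)) _ _ _ _ ha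
  · rw [map_zero]; exact Submodule.zero_mem _
  · intro x y h1 h2; rw [map_add]; exact Submodule.add_mem _ h1 h2
  · intro c x h1; rw [map_smul]; exact Submodule.smul_mem _ _ h1
  · intro s hs
    have hs' : (dg deg s : ℤ) = p := hs
    refine cs_mono ?_ (d_bas hb hd s)
    rintro t ⟨ht, -⟩
    show ((dg deg t : ℕ) : ℤ) = p + 1
    rw [ht]; push_cast; rw [hs']

theorem d_A2 (hb : IsMon g b) (hd : Mn K g deg d) (a : A) :
    d a ∈ cs b {s : Ix q m | 2 ≤ wl s} := by
  apply cs_ind (P := fun a => d a ∈ cs b {s : Ix q m | 2 ≤ wl s}) _ _ _ _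
    (mem_univ_cs (b := b) a)
  · rw [map_zero]; exact Submodule.zero_mem _
  · intro x y h1 h2; rw [map_add]; exact Submodule.add_mem _ h1 h2
  · intro c x h1; rw [map_smul]; exact Submodule.smul_mem _ _ h1
  · intro s _
    exact cs_mono (fun t ht => ht.2) (d_bas hb hd s)

theorem d_mul (hb : IsMon g b) (hd : Mn K g deg d) (x y : A) :
    d (x * y) = d x * y + inv hb x * d y := by
  apply cs_ind (P := fun x => d (x * y) = d x * y + inv hb x * d y) _ _ _ _
    (mem_univ_cs (b := b) x)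
  · simp
  · intro u v h1 h2; rw [add_mul, map_add, h1, h2, map_add, map_add, add_mul, add_mul]; abel
  · intro c u h1
    rw [smul_mul_assoc, map_smul, h1, map_smul, map_smul, smul_mul_assoc, smul_mul_assoc, smul_add]
  · intro s _
    rw [hd.leibniz _ _ _ _ (bas_mem_cmp hb deg s), inv_bas]
    congr 1
    rcases Nat.even_or_odd (dg deg s) with h | h
    · have h2 : Even s.2.card := (parity_dg hd.even_deg hd.odd_deg s).1 h
      rw [h.neg_one_pow, h2.neg_one_pow, one_mul, one_smul]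
    · have h2 : Odd s.2.card := by
        rw [← Nat.not_even_iff_odd, ← parity_dg hd.even_deg hd.odd_deg s, Nat.not_even_iff_odd]
        exact h
      rw [h.neg_one_pow, h2.neg_one_pow, neg_one_mul, neg_one_smul, neg_mul]

theorem d_inv (hb : IsMon g b) (hd : Mn K g deg d) (a : A) : d (inv hb a) = -inv hb (d a) := by
  apply cs_ind (P := fun a => d (inv hb a) = -inv hb (d a)) _ _ _ _ (mem_univ_cs (b := b) a)
  · simp
  · intro x y h1 h2; rw [map_add, map_add, h1, h2, map_add, map_add, neg_add]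
  · intro c x h1; rw [map_smul, map_smul, h1, map_smul, map_smul, smul_neg]
  · intro s _
    have h0 : b s ∈ grd b deg (dg deg s : ℤ) := bas_mem rfl
    have h1 := d_mem hb hd h0
    rcases Int.even_or_odd (dg deg s : ℤ) with h | h
    · rw [inv_ev hb hd h h0, inv_od hb hd h.add_one h1, neg_neg]
    · rw [inv_od hb hd h h0, inv_ev hb hd h.add_one h1, map_neg]

theorem prj_d (hb : IsMon g b) (hd : Mn K g deg d) (p : ℤ) (a : A) :
    prj b deg (p + 1) (d a) = d (prj b deg p a) := by
  apply cs_ind (P := fun a => prj b deg (p + 1) (d a) = d (prj b deg p a)) _ _ _ _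
    (mem_univ_cs (b := b) a)
  · simp
  · intro x y h1 h2; rw [map_add, map_add, h1, h2, map_add, map_add]
  · intro c x h1; rw [map_smul, map_smul, h1, map_smul, map_smul]
  · intro s _
    have h0 : b s ∈ grd b deg (dg deg s : ℤ) := bas_mem rfl
    have h1 := d_mem hb hd h0
    by_cases h : (dg deg s : ℤ) = p
    · rw [prj_bas, if_pos h]
      rw [h] at h1
      exact prj_self deg _ h1
    · rw [prj_bas, if_neg h, map_zero]
      exact prj_ne deg (by omega) h1

theorem bas_zero_mem (hb : IsMon g b) : (1 : A) ∈ grd b deg 0 := by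
  rw [← hb.one]
  exact bas_mem (by show ((dg deg ((0, ∅) : Ix q m) : ℕ) : ℤ) = 0; rw [dg_zero]; rfl)

theorem grd_zero (hb : IsMon g b) (h2 : ∀ v, 2 ≤ deg v) {a : A} (ha : a ∈ grd b deg 0) :
    ∃ c : K, a = algebraMap K A c := by
  apply cs_ind (P := fun a => ∃ c : K, a = algebraMap K A c) _ _ _ _ ha
  · exact ⟨0, by simp⟩
  · rintro x y ⟨c, rfl⟩ ⟨c', rfl⟩
    exact ⟨c + c', by rw [map_add]⟩
  · rintro c x ⟨c', rfl⟩
    exact ⟨c * c', by rw [map_mul, Algebra.smul_def]⟩
  · intro s hs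
    have h1 : (dg deg s : ℤ) = 0 := hs
    have h3 : s = (0, ∅) := dg_eq_zero h2 (by exact_mod_cast h1)
    exact ⟨1, by rw [h3, hb.one, map_one]⟩

theorem span_gen (hb : IsMon g b) :
    Submodule.span K (Set.range g) = cs b {s : Ix q m | wl s = 1} := by
  apply le_antisymm
  · rw [Submodule.span_le]
    rintro _ ⟨v, rfl⟩
    refine cs_mono ?_ (gen_mem_cs hb v)
    rintro s rfl
    exact wl_gen v
  · unfold cs
    rw [Submodule.span_le]
    rintro _ ⟨s, hs, rfl⟩
    have h1 := bas_mem_cmp hb (fun _ => 0) s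
    rw [hs] at h1
    refine (?_ : Pool.Agent.H68.Hil.cmp K g (fun _ => 0) _ 1 ≤ _) h1
    unfold Pool.Agent.H68.Hil.cmp
    apply Submodule.span_mono
    rintro _ ⟨L, h2, -, rfl⟩
    obtain ⟨v, rfl⟩ := List.length_eq_one_iff.1 h2
    exact ⟨v, by simp⟩

section ord

variable {N : ℕ} (σ : Fin N ≃ Fin q ⊕ Fin m)

/-- the monomials which contain one of the first `i` generators -/
def Si (i : ℕ) : Set (Ix q m) := {p | ∃ k : Fin N, k.1 < i ∧ occ (σ k) p}

variable {σ}

theorem idl_Si (i : ℕ) : Idl (Si σ i) := by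
  rintro p p' - (⟨k, hk, h⟩ | ⟨k, hk, h⟩)
  · exact ⟨k, hk, (occ_add _ _ _).2 (Or.inl h)⟩
  · exact ⟨k, hk, (occ_add _ _ _).2 (Or.inr h)⟩

theorem Si_mono {i j : ℕ} (h : i ≤ j) : Si σ i ⊆ Si σ j := by
  rintro p ⟨k, hk, h1⟩
  exact ⟨k, by omega, h1⟩

theorem occ_dg {v : Fin q ⊕ Fin m} {p : Ix q m} (h : occ v p) : deg v ≤ dg deg p := by
  obtain ⟨p', rfl, hp'⟩ := exists_up h
  rw [dg_up deg hp']
  omega

theorem dv_mem (hb : IsMon g b) (hd : Mn K g deg d)
    (hσ : ∀ j k : Fin N, j ≤ k → deg (σ j) ≤ deg (σ k)) (k : Fin N) :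
    d (g (σ k)) ∈ cs b (Si σ k.1) := by
  refine cs_mono ?_ (d_gen hb hd (σ k))
  rintro s ⟨hs1, hs2⟩
  obtain ⟨w, hw⟩ := exists_occ (p := s) (by omega)
  obtain ⟨s', rfl, hs'⟩ := exists_up hw
  rw [dg_up deg hs'] at hs1
  rw [wl_up hs'] at hs2
  obtain ⟨w', hw'⟩ := exists_occ (p := s') (by omega)
  have h1 := occ_dg (deg := deg) hw'
  have h2 := hd.two_le_deg w'
  refine ⟨σ.symm w, ?_, by simpa using hw⟩
  by_contra hcon
  have h3 := hσ k (σ.symm w) (by rw [Fin.le_def]; omega)
  rw [Equiv.apply_symm_apply] at h3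
  omega

theorem I_d (hb : IsMon g b) (hd : Mn K g deg d)
    (hσ : ∀ j k : Fin N, j ≤ k → deg (σ j) ≤ deg (σ k)) (i : ℕ) {x : A}
    (hx : x ∈ cs b (Si σ i)) : d x ∈ cs b (Si σ i) := by
  apply cs_ind (P := fun x => d x ∈ cs b (Si σ i)) _ _ _ _ hx
  · rw [map_zero]; exact Submodule.zero_mem _
  · intro x y h1 h2; rw [map_add]; exact Submodule.add_mem _ h1 h2
  · intro c x h1; rw [map_smul]; exact Submodule.smul_mem _ _ h1
  · rintro s ⟨k, hk, h⟩
    obtain ⟨s', rfl, hs'⟩ := exists_up h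
    have key : d (g (σ k) * b s') ∈ cs b (Si σ i) := by
      rw [hd.leibniz (deg (σ k)) 1 _ _ (gen_mem_cmp g deg (σ k))]
      apply Submodule.add_mem
      · exact idl_right hb (idl_Si i) _ (cs_mono (Si_mono hk.le) (dv_mem hb hd hσ k))
      · have h3 : g (σ k) * d (b s') ∈ cs b (Si σ i) := by
          apply idl_right hb (idl_Si i)
          refine cs_mono ?_ (gen_mem_cs hb (σ k))
          rintro t rfl
          exact ⟨k, hk, (occ_up _ _ _).2 (Or.inl rfl)⟩
        rcases neg_one_pow_eq_or A (deg (σ k)) with h4 | h4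
        · rw [h4, one_mul]; exact h3
        · rw [h4, neg_one_mul]; exact Submodule.neg_mem _ h3
    rcases gen_mul_good hb hs' with h5 | h5
    · rwa [h5] at key
    · rw [h5, map_neg] at key
      simpa using Submodule.neg_mem _ key

theorem I_dec (hb : IsMon g b) (i : Fin N) (p : ℤ) {x : A} (hx : x ∈ grd b deg p)
    (hx' : x ∈ cs b (Si σ (i.1 + 1))) :
    ∃ c ∈ grd b deg (p - deg (σ i)), x - g (σ i) * c ∈ cs b (Si σ i.1) := by
  have h0 := cs_inf hx hx'
  apply cs_ind (P := fun x => ∃ c ∈ grd b deg (p - deg (σ i)),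
    x - g (σ i) * c ∈ cs b (Si σ i.1)) _ _ _ _ h0
  · exact ⟨0, Submodule.zero_mem _, by simp⟩
  · rintro x y ⟨c, hc, h1⟩ ⟨c', hc', h2⟩
    refine ⟨c + c', Submodule.add_mem _ hc hc', ?_⟩
    have : x + y - g (σ i) * (c + c') = (x - g (σ i) * c) + (y - g (σ i) * c') := by
      rw [mul_add]; abel
    rw [this]
    exact Submodule.add_mem _ h1 h2
  · rintro r x ⟨c, hc, h1⟩
    refine ⟨r • c, Submodule.smul_mem _ _ hc, ?_⟩
    rw [mul_smul_comm, ← smul_sub]
    exact Submodule.smul_mem _ _ h1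
  · rintro s ⟨hs1, k, hk, hk'⟩
    have hs1' : (dg deg s : ℤ) = p := hs1
    by_cases hki : k.1 < i.1
    · exact ⟨0, Submodule.zero_mem _, by rw [mul_zero, sub_zero]; exact bas_mem ⟨k, hki, hk'⟩⟩
    · have hki' : k = i := by
        apply Fin.ext
        omega
      subst hki'
      obtain ⟨s', rfl, hs'⟩ := exists_up hk'
      have hs2 : b s' ∈ grd b deg (p - deg (σ k)) := by
        apply bas_mem
        show ((dg deg s' : ℕ) : ℤ) = p - deg (σ k)
        rw [dg_up deg hs'] at hs1'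
        push_cast at hs1'
        omega
      rcases gen_mul_good hb hs' with h5 | h5
      · exact ⟨b s', hs2, by rw [h5, sub_self]; exact Submodule.zero_mem _⟩
      · exact ⟨-b s', Submodule.neg_mem _ hs2, by
          rw [mul_neg, h5, neg_neg, sub_self]; exact Submodule.zero_mem _⟩

theorem reg (hb : IsMon g b) (i : Fin N) {a : A} (h : g (σ i) * a ∈ cs b (Si σ i.1))
    (p : Ix q m) (hp : b.repr a p ≠ 0) (hbad : ¬ bad (σ i) p) : p ∈ Si σ i.1 := by
  obtain ⟨ε, hε, he⟩ := repr_gen_mul hb hbad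
  have h1 : b.repr (g (σ i) * a) (up (σ i) p) ≠ 0 := by
    rw [he]
    apply mul_ne_zero _ hp
    rcases hε with h2 | h2
    · rw [h2]; exact one_ne_zero
    · rw [h2]; exact neg_ne_zero.2 one_ne_zero
  obtain ⟨k, hk, hk'⟩ := mem_cs.1 h _ h1
  rw [occ_up] at hk'
  rcases hk' with h3 | h3
  · have : k = i := σ.injective h3
    subst this
    omega
  · exact ⟨k, hk, h3⟩

theorem bad_occ {v : Fin q ⊕ Fin m} {p : Ix q m} (h : bad v p) : occ v p := by
  rcases v with i | j
  · exact h.elim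
  · exact h

theorem I_top {p : ℤ} (hp : 0 < p) {a : A} (ha : a ∈ grd b deg p) : a ∈ cs b (Si σ N) := by
  refine cs_mono ?_ ha
  intro s hs
  have hs' : (dg deg s : ℤ) = p := hs
  obtain ⟨w, hw⟩ := exists_occ (p := s) (by
    intro h0
    have : dg deg s = 0 := by
      unfold wl at h0
      simp only [Nat.add_eq_zero_iff, card_eq_zero, sum_eq_zero_iff, mem_univ,
        true_implies] at h0
      unfold dg
      rw [h0.2]
      simp [h0.1]
    omega)
  exact ⟨σ.symm w, (σ.symm w).2, by simpa using hw⟩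

theorem low (hσ : ∀ j k : Fin N, j ≤ k → deg (σ j) ≤ deg (σ k)) (i : Fin N) {p : ℤ}
    (hp : 0 < p) (hpi : p < deg (σ i)) {a : A} (ha : a ∈ grd b deg p) :
    a ∈ cs b (Si σ i.1) := by
  have h1 := cs_inf ha (I_top (σ := σ) hp ha)
  refine cs_mono ?_ h1
  rintro s ⟨hs, k, -, hk⟩
  have hs' : (dg deg s : ℤ) = p := hs
  refine ⟨k, ?_, hk⟩
  by_contra hcon
  have h3 := hσ i k (by rw [Fin.le_def]; omega)
  have h4 := occ_dg (deg := deg) hk
  omega

theorem lin (hb : IsMon g b) (h2 : ∀ v, 2 ≤ deg v) (i : Fin N) {p : ℤ} (hp : p ≤ 0) {a : A}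
    (ha : a ∈ grd b deg p) (h : a * g (σ i) ∈ cs b (Si σ i.1) ⊔ cs b {s : Ix q m | 2 ≤ wl s}) :
    a = 0 := by
  rcases hp.lt_or_eq with hp | hp
  · rw [grd_neg deg hp, Submodule.mem_bot] at ha
    exact ha
  · subst hp
    obtain ⟨c, rfl⟩ := grd_zero hb h2 ha
    by_contra hne
    have hc : c ≠ 0 := by
      intro h0
      rw [h0, map_zero] at hne
      exact hne rfl
    have h3 : cs b (Si σ i.1) ⊔ cs b {s : Ix q m | 2 ≤ wl s} =
        cs b (Si σ i.1 ∪ {s : Ix q m | 2 ≤ wl s}) := by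
      unfold cs
      rw [Set.image_union, Submodule.span_union]
    rw [h3, ← Algebra.smul_def] at h
    have h4 : g (σ i) ∈ cs b (Si σ i.1 ∪ {s : Ix q m | 2 ≤ wl s}) := by
      have := Submodule.smul_mem _ c⁻¹ h
      rwa [smul_smul, inv_mul_cancel₀ hc, one_smul] at this
    have h5 : b (up (σ i) (0, ∅)) ∈ cs b (Si σ i.1 ∪ {s : Ix q m | 2 ≤ wl s}) := by
      have h6 := gen_mul_good hb (not_bad_zero (σ i))
      rw [hb.one, mul_one] at h6
      rcases h6 with h6 | h6
      · rwa [h6] at h4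
      · rw [h6] at h4
        simpa using Submodule.neg_mem _ h4
    have h7 := mem_cs.1 h5 (up (σ i) (0, ∅)) (by simp)
    rcases h7 with ⟨k, hk, h8⟩ | h8
    · rw [occ_up] at h8
      rcases h8 with h8 | h8
      · have : k = i := σ.injective h8
        subst this
        omega
      · generalize σ k = v at h8
        rcases v with i | j <;> simp [occ] at h8
    · have : wl (up (σ i) ((0, ∅) : Ix q m)) = 1 := wl_gen _
      have h9 : 2 ≤ wl (up (σ i) ((0, ∅) : Ix q m)) := h8
      omega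

theorem dec (hb : IsMon g b) {p : ℤ} (hp : 0 < p) {a : A} (ha : a ∈ grd b deg p) :
    ∃ x ∈ Submodule.span K (Set.range g), ∃ y ∈ cs b {s : Ix q m | 2 ≤ wl s},
      x ∈ grd b deg p ∧ y ∈ grd b deg p ∧ x + y = a := by
  rw [span_gen hb]
  apply cs_ind (P := fun a => ∃ x ∈ cs b {s : Ix q m | wl s = 1},
    ∃ y ∈ cs b {s : Ix q m | 2 ≤ wl s}, x ∈ grd b deg p ∧ y ∈ grd b deg p ∧ x + y = a) _ _ _ _ ha
  · exact ⟨0, Submodule.zero_mem _, 0, Submodule.zero_mem _, Submodule.zero_mem _,
      Submodule.zero_mem _, by simp⟩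
  · rintro _ _ ⟨x, h1, y, h2, h3, h4, rfl⟩ ⟨x', h1', y', h2', h3', h4', rfl⟩
    exact ⟨x + x', Submodule.add_mem _ h1 h1', y + y', Submodule.add_mem _ h2 h2',
      Submodule.add_mem _ h3 h3', Submodule.add_mem _ h4 h4', by abel⟩
  · rintro c _ ⟨x, h1, y, h2, h3, h4, rfl⟩
    exact ⟨c • x, Submodule.smul_mem _ _ h1, c • y, Submodule.smul_mem _ _ h2,
      Submodule.smul_mem _ _ h3, Submodule.smul_mem _ _ h4, by rw [smul_add]⟩
  · intro s hs
    have hs' : (dg deg s : ℤ) = p := hs
    have hw : wl s ≠ 0 := by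
      intro h0
      unfold wl at h0
      simp only [Nat.add_eq_zero_iff, card_eq_zero, sum_eq_zero_iff, mem_univ,
        true_implies] at h0
      have : dg deg s = 0 := by
        unfold dg
        rw [h0.2]
        simp [h0.1]
      omega
    by_cases h1 : wl s = 1
    · exact ⟨b s, bas_mem h1, 0, Submodule.zero_mem _, bas_mem hs, Submodule.zero_mem _, by simp⟩
    · have h2 : 2 ≤ wl s := by omega
      exact ⟨0, Submodule.zero_mem _, b s, bas_mem h2, Submodule.zero_mem _, bas_mem hs, by simp⟩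

end ord

end mon

section fin

variable {g : Fin q ⊕ Fin m → A} {b : Module.Basis (Ix q m) K A} {deg : Fin q ⊕ Fin m → ℕ}
  {d : A →ₗ[K] A} {N : ℕ}

/-- the generators in the order of `σ` -/
noncomputable def vf (g : Fin q ⊕ Fin m → A) (σ : Fin N ≃ Fin q ⊕ Fin m) (i : ℕ) : A :=
  if h : i < N then g (σ ⟨i, h⟩) else 0

/-- their degrees -/
def df (deg : Fin q ⊕ Fin m → ℕ) (σ : Fin N ≃ Fin q ⊕ Fin m) (i : ℕ) : ℤ :=
  if h : i < N then (deg (σ ⟨i, h⟩) : ℤ) else 0

/-- all the facts -/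
noncomputable def mkBase (hb : IsMon g b) (hg : GC g) (hd : Mn K g deg d)
    (σ : Fin N ≃ Fin q ⊕ Fin m) (hσ : ∀ j k : Fin N, j ≤ k → deg (σ j) ≤ deg (σ k)) :
    Base K A where
  n := N
  v := vf g σ
  dg := df deg σ
  gr := grd b deg
  π := prj b deg
  α := inv hb
  d := d
  I := fun i => cs b (Si σ i)
  V := Submodule.span K (Set.range g)
  A2 := cs b {s : Ix q m | 2 ≤ wl s}
  π_mem := fun p a => prj_mem deg p a
  π_self := fun p a ha => prj_self deg p ha
  π_ne := fun p r h a ha => prj_ne deg h ha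
  π_ext := fun a h => prj_ext deg a h
  gr_neg := fun p hp => grd_neg deg hp
  one_mem := bas_zero_mem hb
  one_ne := by
    rw [← hb.one]
    exact b.ne_zero _
  gr_zero := fun a ha => grd_zero hb hd.two_le_deg ha
  mul_mem := fun p r a ha x hx => grd_mul hb deg ha hx
  α_ev := fun p hp a ha => inv_ev hb hd hp ha
  α_od := fun p hp a ha => inv_od hb hd hp ha
  α_α := inv_inv hb
  gc_ev := fun p hp a ha x => gc_ev hb hg hd hp ha x
  gc_od := fun p hp a ha x => gc_od hb hg hd hp ha x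
  d_mem := fun p a ha => d_mem hb hd ha
  π_d := fun p a => prj_d hb hd p a
  d_sq := hd.sq_zero
  d_mul := d_mul hb hd
  d_α := d_inv hb hd
  d_A2 := d_A2 hb hd
  two_le := by
    intro i hi
    rw [df, dif_pos hi]
    exact_mod_cast hd.two_le_deg _
  v_mem := by
    intro i hi
    rw [df, dif_pos hi, vf, dif_pos hi]
    refine cs_mono ?_ (gen_mem_cs hb _)
    rintro t rfl
    show ((dg deg _ : ℕ) : ℤ) = _
    rw [dg_gen]
  I_zero := by
    rw [eq_bot_iff]
    intro x hx
    rw [Submodule.mem_bot]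
    apply b.repr.injective
    rw [map_zero]
    ext s
    by_contra h
    obtain ⟨k, hk, -⟩ := mem_cs.1 hx s h
    omega
  I_mono := fun i x hx => cs_mono (Si_mono (Nat.le_succ i)) hx
  v_mem_I := by
    intro i hi
    rw [vf, dif_pos hi]
    refine cs_mono ?_ (gen_mem_cs hb _)
    rintro t rfl
    exact ⟨⟨i, hi⟩, Nat.lt_succ_self i, (occ_up _ _ _).2 (Or.inl rfl)⟩
  I_left := fun i a x hx => idl_left hb (idl_Si i) a hx
  I_right := fun i a x hx => idl_right hb (idl_Si i) a hx
  dv_mem := by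
    intro i hi
    rw [vf, dif_pos hi]
    exact dv_mem hb hd hσ ⟨i, hi⟩
  I_d := fun i _ x hx => I_d hb hd hσ i hx
  I_dec := by
    intro i hi p x hx hx'
    rw [vf, dif_pos hi, df, dif_pos hi]
    exact I_dec hb ⟨i, hi⟩ p hx hx'
  reg_ev := by
    intro i hi he p a ha h
    rw [vf, dif_pos hi] at h
    rw [df, dif_pos hi] at he
    rw [mem_cs]
    intro s hs
    refine reg hb ⟨i, hi⟩ h s hs ?_
    intro hbad
    have he' : Even (deg (σ ⟨i, hi⟩)) := by exact_mod_cast he
    generalize σ ⟨i, hi⟩ = w at hbad he'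
    rcases w with j | j
    · exact hbad
    · exact Nat.not_even_iff_odd.2 (hd.odd_deg j) he'
  reg_od := by
    intro i hi _ p a ha h
    rw [vf, dif_pos hi] at h ⊢
    rw [df, dif_pos hi]
    apply I_dec hb ⟨i, hi⟩ p ha
    rw [mem_cs]
    intro s hs
    by_cases hbad : bad (σ ⟨i, hi⟩) s
    · exact ⟨⟨i, hi⟩, Nat.lt_succ_self i, bad_occ hbad⟩
    · exact Si_mono (Nat.le_succ i) (reg hb ⟨i, hi⟩ h s hs hbad)
  I_top := fun p hp a ha => I_top hp ha
  low := by
    intro i hi p hp hpi a ha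
    rw [df, dif_pos hi] at hpi
    exact low hσ ⟨i, hi⟩ hp hpi ha
  A2_left := fun a x hx => idl_left hb (fun p p' hd h => by
    show 2 ≤ wl _
    rw [wl_add hd]
    rcases h with h | h
    · have : 2 ≤ wl p := h
      omega
    · have : 2 ≤ wl p' := h
      omega) a hx
  A2_right := fun a x hx => idl_right hb (fun p p' hd h => by
    show 2 ≤ wl _
    rw [wl_add hd]
    rcases h with h | h
    · have : 2 ≤ wl p := h
      omega
    · have : 2 ≤ wl p' := h
      omega) a hx
  A2_mul := by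
    intro p r hp hr a ha x hx
    have hpos : ∀ (p : ℤ), 0 < p → ∀ s : Ix q m, (dg deg s : ℤ) = p → 1 ≤ wl s := by
      intro p hp s hs
      by_contra h0
      have h1 : wl s = 0 := by omega
      unfold wl at h1
      simp only [Nat.add_eq_zero_iff, card_eq_zero, sum_eq_zero_iff, mem_univ,
        true_implies] at h1
      have : dg deg s = 0 := by
        unfold dg
        rw [h1.2]
        simp [h1.1]
      omega
    apply cs_mul hb _ ha hx
    intro s hs s' hs' hdis
    show 2 ≤ wl _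
    rw [wl_add hdis]
    have h1 := hpos p hp s hs
    have h2 := hpos r hr s' hs'
    omega
  lin := by
    intro i hi p hp a ha h
    rw [vf, dif_pos hi] at h
    exact lin hb hd.two_le_deg ⟨i, hi⟩ hp ha h
  dec := fun p hp a ha => dec hb hp ha
  V_A2 := by
    intro x hx hx'
    rw [span_gen hb] at hx
    apply b.repr.injective
    rw [map_zero]
    ext s
    by_contra h
    have h1 : wl s = 1 := mem_cs.1 hx s h
    have h2 : 2 ≤ wl s := mem_cs.1 hx' s h
    omega
  π_V := by
    intro p x hx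
    rw [span_gen hb] at hx ⊢
    exact prj_cs deg p hx
  π_A2 := fun p x hx => prj_cs deg p hx
  V_pos := by
    intro p hp x hx hx'
    rw [span_gen hb] at hx
    apply b.repr.injective
    rw [map_zero]
    ext s
    by_contra h
    have h1 : wl s = 1 := mem_cs.1 hx s h
    have h2 : (dg deg s : ℤ) = p := mem_cs.1 hx' s h
    have h3 : dg deg s = 0 := by omega
    rw [dg_eq_zero hd.two_le_deg h3, wl_zero] at h1
    omega

theorem odd_mkBase (hb : IsMon g b) (hg : GC g) (hd : Mn K g deg d)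
    (σ : Fin N ≃ Fin q ⊕ Fin m) (hσ : ∀ j k : Fin N, j ≤ k → deg (σ j) ≤ deg (σ k)) :
    (mkBase hb hg hd σ hσ).odd 0 = m := by
  classical
  unfold Base.odd
  show ((Finset.Ico 0 N).filter fun i => Odd (df deg σ i)).card = m
  have h1 : ((Finset.Ico 0 N).filter fun i => Odd (df deg σ i)) =
      ((univ : Finset (Fin m)).image (fun j => ((σ.symm (Sum.inr j)).1 : ℕ))) := by
    ext i
    simp only [mem_filter, mem_Ico, zero_le, true_and, mem_image, mem_univ]
    constructor
    · rintro ⟨hi, ho⟩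
      rw [df, dif_pos hi] at ho
      have ho' : Odd (deg (σ ⟨i, hi⟩)) := by exact_mod_cast ho
      rcases hw : σ ⟨i, hi⟩ with j | j
      · rw [hw] at ho'
        exact (Nat.not_even_iff_odd.2 ho' (hd.even_deg j)).elim
      · exact ⟨j, by rw [← hw]; simp⟩
    · rintro ⟨j, rfl⟩
      refine ⟨(σ.symm (Sum.inr j)).2, ?_⟩
      rw [df, dif_pos (σ.symm (Sum.inr j)).2]
      have : σ ⟨(σ.symm (Sum.inr j)).1, (σ.symm (Sum.inr j)).2⟩ = Sum.inr j := by simp
      rw [this]
      exact_mod_cast hd.odd_deg j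
  rw [h1, card_image_of_injective, card_univ, Fintype.card_fin]
  intro j k hjk
  have h2 : σ.symm (Sum.inr j) = σ.symm (Sum.inr k) := Fin.ext hjk
  simpa using h2

end fin

end Pool.Agent.H91.Hil.LamBase
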