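import Pool.Agent.H91.Hil.Base

/-!
# Hilali: the stages `R_j = A ⊗ Λ(sv_1, .., sv_j)` of the acyclic closure
-/

namespace Pool.Agent.H91.Hil

variable {K A : Type*} [Field K] [Ring A] [Algebra K A]

/-- A graded ideal (stability under left multiplication by the augmentation ideal). -/
def Base.Idl (B : Base K A) (X : ℤ → Submodule K A) : Prop :=
  (∀ q, X q ≤ B.gr q) ∧ ∀ a q, ∀ x ∈ B.gp a, ∀ y ∈ X q, x * y ∈ X (a + q)

theorem Base.gp_le (B : Base K A) (p : ℤ) : B.gp p ≤ B.gr p := by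
  unfold Base.gp
  split_ifs
  · exact le_refl _
  · exact bot_le

theorem Base.gp_mem (B : Base K A) {p : ℤ} (hp : 0 < p) {a : A} (ha : a ∈ B.gr p) :
    a ∈ B.gp p := by
  unfold Base.gp
  rw [if_pos hp]
  exact ha

theorem Base.Q_le (B : Base K A) (j : ℕ) (p : ℤ) : B.Q j p ≤ B.gr p := inf_le_right

theorem Base.G2_le (B : Base K A) (p : ℤ) : B.G2 p ≤ B.gr p := inf_le_right

theorem Base.G2_le_Q (B : Base K A) (j : ℕ) (p : ℤ) : B.G2 p ≤ B.Q j p :=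
  inf_le_inf_right _ le_sup_right

theorem Base.Q_mono (B : Base K A) (j : ℕ) (p : ℤ) : B.Q j p ≤ B.Q (j + 1) p :=
  inf_le_inf_right _ (sup_le_sup_right (fun x hx => B.I_mono j x hx) _)

theorem Base.gp_idl (B : Base K A) : B.Idl B.gp := by
  refine ⟨B.gp_le, ?_⟩
  intro a q x hx y hy
  by_cases ha : 0 < a
  · by_cases hq : 0 < q
    · exact B.gp_mem (by omega) (B.mul_mem _ _ _ (B.gp_le a hx) _ (B.gp_le q hy))
    · unfold Base.gp at hy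
      rw [if_neg hq, Submodule.mem_bot] at hy
      rw [hy, mul_zero]
      exact Submodule.zero_mem _
  · unfold Base.gp at hx
    rw [if_neg ha, Submodule.mem_bot] at hx
    rw [hx, zero_mul]
    exact Submodule.zero_mem _

theorem Base.gr_idl (B : Base K A) : B.Idl B.gr :=
  ⟨fun _ => le_refl _, fun a q x hx y hy => B.mul_mem a q x (B.gp_le a hx) y hy⟩

/-- A stage `R_j` of the acyclic closure: a graded commutative dg algebra `R` containing `A`,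
with a retraction `ρ` to `A`, and for every graded subspace `X` of `A` the subspace `F X` of `R`
of the elements all of whose coefficients are in `X`. -/
structure Stage (B : Base K A) (j : ℕ) (R : Type*) [Ring R] [Algebra K R] where
  α : R →ₐ[K] R
  D : R →ₗ[K] R
  F : (ℤ → Submodule K A) → ℤ → Submodule K R
  inc : A →ₐ[K] R
  ρ : R →ₐ[K] A
  F_mono : ∀ X Y : ℤ → Submodule K A, (∀ p, X p ≤ Y p) → ∀ p, F X p ≤ F Y p
  F_bot : ∀ p, F (fun _ => ⊥) p = ⊥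
  F_neg : ∀ X : ℤ → Submodule K A, (∀ p < 0, X p = ⊥) → ∀ p < 0, F X p = ⊥
  inc_mem : ∀ (X : ℤ → Submodule K A) (p : ℤ), ∀ a ∈ X p, inc a ∈ F X p
  ρ_mem : ∀ (X : ℤ → Submodule K A) (p : ℤ), ∀ z ∈ F X p, ρ z ∈ X p
  ρ_inc : ∀ a, ρ (inc a) = a
  mul_mem : ∀ X Y Z : ℤ → Submodule K A, (∀ p, X p ≤ B.gr p) →
    (∀ a b, ∀ x ∈ X a, ∀ y ∈ Y b, x * y ∈ Z (a + b)) →
    ∀ a b, ∀ f ∈ F X a, ∀ g ∈ F Y b, f * g ∈ F Z (a + b)
  α_ev : ∀ p, Even p → ∀ z ∈ F B.gr p, α z = z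
  α_od : ∀ p, Odd p → ∀ z ∈ F B.gr p, α z = -z
  α_α : ∀ z, α (α z) = z
  gc_ev : ∀ p, Even p → ∀ z ∈ F B.gr p, ∀ f, z * f = f * z
  gc_od : ∀ p, Odd p → ∀ z ∈ F B.gr p, ∀ f, z * f = α f * z
  D_sq : ∀ z, D (D z) = 0
  D_mul : ∀ f g, D (f * g) = D f * g + α f * D g
  D_α : ∀ z, D (α z) = -α (D z)
  D_inc : ∀ a, D (inc a) = inc (B.d a)
  DF : ∀ Y Y' : ℤ → Submodule K A, (∀ q, ∀ y ∈ Y' q, B.d y ∈ Y (q + 1)) →
    (∀ a q, ∀ x ∈ B.gp a, ∀ y ∈ Y' q, x * y ∈ Y (a + q)) →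
    ∀ p, ∀ z ∈ F Y' p, D z ∈ F Y (p + 1)
  m1 : ∀ p, ∀ z ∈ F B.gr p, D z ∈ F (B.Q j) (p + 1)
  m2 : ∀ p, 0 < p → ∀ z ∈ F B.gr p, D z ∈ F B.G2 (p + 1) → z ∈ F B.gp p
  ρD : ∀ z, ρ (D z) - B.d (ρ z) ∈ B.I j
  lin : ∀ i < B.n, ∀ p, ∀ z ∈ F B.gr p, z * inc (B.v i) ∈ F (B.Q i) (p + B.dg i) → z ∈ F B.gp p
  low : ∀ i < B.n, ∀ p ≤ B.dg i, ∀ z ∈ F B.gp p, ρ z ∈ B.I i → z ∈ F (B.Q i) p
  acyN : ∀ p, ∀ z ∈ F B.gr p, ρ z ∈ B.I j → D z = 0 →
    ∃ w ∈ F B.gr (p - 1), ρ w ∈ B.I j ∧ D w = z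
  acyT : ∀ X Y : ℤ → Submodule K A, B.Idl X → B.Idl Y → (∀ q, Y q ≤ X q) →
    Acy B.d X Y → Acy D (F X) (F Y)

/-- The stage `R_0 = A`. -/
def Stage.zero (B : Base K A) : Stage B 0 A where
  α := B.α
  D := B.d
  F := fun X => X
  inc := AlgHom.id K A
  ρ := AlgHom.id K A
  F_mono := fun X Y h p => h p
  F_bot := fun _ => rfl
  F_neg := fun X h p hp => h p hp
  inc_mem := fun X p a ha => ha
  ρ_mem := fun X p z hz => hz
  ρ_inc := fun a => rfl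
  mul_mem := fun X Y Z _ h a b f hf g hg => h a b f hf g hg
  α_ev := B.α_ev
  α_od := B.α_od
  α_α := B.α_α
  gc_ev := B.gc_ev
  gc_od := B.gc_od
  D_sq := B.d_sq
  D_mul := B.d_mul
  D_α := B.d_α
  D_inc := fun a => rfl
  DF := fun Y Y' h _ p z hz => h p z hz
  m1 := fun p z hz => ⟨Submodule.mem_sup_right (B.d_A2 z), B.d_mem p z hz⟩
  m2 := fun p hp z hz _ => B.gp_mem hp hz
  ρD := fun z => by
    rw [AlgHom.id_apply, AlgHom.id_apply, sub_self]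
    exact Submodule.zero_mem _
  lin := fun i hi p z hz h => by
    by_cases hp : 0 < p
    · exact B.gp_mem hp hz
    · rw [B.lin i hi p (not_lt.mp hp) z hz h.1]
      exact Submodule.zero_mem _
  low := fun i hi p _ z hz h => ⟨Submodule.mem_sup_left h, B.gp_le p hz⟩
  acyN := fun p z hz h _ => by
    rw [AlgHom.id_apply, B.I_zero, Submodule.mem_bot] at h
    exact ⟨0, Submodule.zero_mem _, by rw [map_zero]; exact Submodule.zero_mem _,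
      by rw [map_zero, h]⟩
  acyT := fun X Y _ _ _ h => h

section

variable {B : Base K A} {j : ℕ} {R : Type*} [Ring R] [Algebra K R] (st : Stage B j R)
include st

theorem Stage.F_gr_neg {p : ℤ} (hp : p < 0) : st.F B.gr p = ⊥ := st.F_neg _ B.gr_neg p hp

theorem Stage.D_gr {p : ℤ} {z : R} (hz : z ∈ st.F B.gr p) : st.D z ∈ st.F B.gr (p + 1) :=
  st.F_mono _ _ (B.Q_le j) _ (st.m1 p z hz)

/-- `u` is a cocycle of the stage `R_j` by which the next generator can be killed. -/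
structure Nxt (u : R) : Prop where
  mem_gp : u ∈ st.F B.gp (B.dg j)
  mem_Q : u ∈ st.F (B.Q (j + 1)) (B.dg j)
  D_u : st.D u = 0
  sub_mem : st.inc (B.v j) - u ∈ st.F (B.Q j) (B.dg j)
  ρ_sub : B.v j - st.ρ u ∈ B.I j

theorem Stage.exists_next (hj : j < B.n) : ∃ u, Nxt st u := by
  have hL := B.two_le j hj
  have hv := B.v_mem j hj
  have h1 : st.inc (B.d (B.v j)) ∈ st.F B.gr (B.dg j + 1) :=
    st.inc_mem _ _ _ (B.d_mem _ _ hv)
  have h2 : st.inc (B.d (B.v j)) ∈ st.F B.G2 (B.dg j + 1) :=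
    st.inc_mem _ _ _ ⟨B.d_A2 _, B.d_mem _ _ hv⟩
  have h3 : st.D (st.inc (B.d (B.v j))) = 0 := by
    rw [st.D_inc, B.d_sq, map_zero]
  obtain ⟨ξ, hξ, hρ, hD⟩ := st.acyN _ _ h1 (by rw [st.ρ_inc]; exact B.dv_mem j hj) h3
  rw [add_sub_cancel_right] at hξ
  have h4 : ξ ∈ st.F B.gp (B.dg j) := st.m2 _ (by omega) ξ hξ (by rw [hD]; exact h2)
  have h5 : ξ ∈ st.F (B.Q j) (B.dg j) := st.low j hj _ (le_refl _) ξ h4 hρ
  refine ⟨st.inc (B.v j) - ξ, ?_, ?_, ?_, ?_, ?_⟩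
  · exact Submodule.sub_mem _ (st.inc_mem _ _ _ (B.gp_mem (by omega) hv)) h4
  · refine Submodule.sub_mem _ (st.inc_mem _ _ _ ⟨Submodule.mem_sup_left (B.v_mem_I j hj), hv⟩) ?_
    exact st.F_mono _ _ (B.Q_mono j) _ h5
  · rw [map_sub, st.D_inc, hD, sub_self]
  · rw [sub_sub_cancel]
    exact h5
  · rw [map_sub, st.ρ_inc, sub_sub_cancel]
    exact hρ

end

end Pool.Agent.H91.Hil
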